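import Mathlib
import Pool.Agent.H119R2.Kp.NT

set_option autoImplicit false

/-! # The arithmetic of the five blocks -/

namespace Pool.Agent.L0h93.Karp

open Pool.Agent.H119R2.Kp

/-- the sizes of the parts: `r + 5 p = n`, and for the facts `y + r' + k p' = n` -/
structure Ar (n q r p : ℕ) : Prop where
  hp : p.Prime
  hp3 : 3 < p
  hr : 0 < r
  hrp : r ≤ p
  hn : r + 5 * p = n
  hq : q < 10 * (p * (p - 1))
  a5 : ∀ y, (y = p ∨ y = p + r) → ∃ p' r' : ℕ, p'.Prime ∧ 20 < p' ∧ y + r' + 5 * p' = n ∧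
    r' ≤ r ∧ q < 5 * p' * y + 10 * p' * p'
  a11 : ∀ y, (y = p ∨ y = p + r ∨ y = 2 * p ∨ y = 2 * p + r) → ∃ p' r' : ℕ, p'.Prime ∧ 20 < p' ∧
    y + r' + 11 * p' = n ∧ r' ≤ r ∧ q < 11 * p' * y + 55 * p' * p'
  a17 : ∀ y, (y = p ∨ y = p + r ∨ y = 2 * p ∨ y = 2 * p + r) → ∃ p' r' : ℕ, p'.Prime ∧ 20 < p' ∧
    y + r' + 17 * p' = n ∧ r' ≤ r ∧ q < 17 * p' * y + 136 * p' * p'

/-- a prime for the part `y` -/
theorem aux (k : ℕ) (hk : 5 ≤ k) (hk2 : k ≤ 17) (δ t y : ℝ) (N₀ : ℕ)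
    (hN₀ : ∀ x : ℝ, (N₀ : ℝ) ≤ x → ∃ p : ℕ, p.Prime ∧ x < p ∧ (p : ℝ) < (1 + δ) * x)
    (hδ0 : 0 < δ) (hδ1 : δ ≤ 1 / 1000) (ht : 50 * (N₀ : ℝ) + 2000 ≤ t) (hy : y ≤ t / 2) :
    ∃ p' : ℕ, p'.Prime ∧ 20 < p' ∧ (1 - δ) * (t - y) < k * p' ∧ k * (p' : ℝ) < t - y := by
  have hk0 : (5 : ℝ) ≤ k := by exact_mod_cast hk
  have hk17 : (k : ℝ) ≤ 17 := by exact_mod_cast hk2
  have hkp : (0 : ℝ) < k := by linarith
  have hN0 : (0 : ℝ) ≤ N₀ := Nat.cast_nonneg _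
  have ht0 : 0 < t := by linarith
  have hz : t / 2 ≤ t - y := by linarith
  have h0 : (1 - δ) * (t - y) = (t - y) - δ * (t - y) := by ring
  have h1 : δ * (t - y) ≤ (t - y) / 1000 := by
    have := mul_le_mul_of_nonneg_right hδ1 (show 0 ≤ t - y by linarith)
    linarith
  have hx : t / 50 ≤ (1 - δ) * (t - y) / k := by
    rw [le_div_iff₀ hkp, h0]
    have : t / 50 * k ≤ t / 50 * 17 := mul_le_mul_of_nonneg_left hk17 (by linarith)
    linarith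
  obtain ⟨p', hp', h2, h3⟩ := hN₀ ((1 - δ) * (t - y) / k) (by linarith)
  refine ⟨p', hp', ?_, ?_, ?_⟩
  · have : (20 : ℝ) < p' := by linarith
    exact_mod_cast this
  · rw [div_lt_iff₀ hkp] at h2
    linarith
  · have h4 : (1 + δ) * ((1 - δ) * (t - y) / k) = ((1 - δ ^ 2) * (t - y)) / k := by ring
    rw [h4, lt_div_iff₀ hkp] at h3
    have h5 : 0 ≤ δ ^ 2 * (t - y) := by
      have : 0 ≤ t - y := by linarith
      positivity
    linarith

/-- the choice of the sizes -/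
theorem ar_exists (e : ℝ) (he : 0 < e) (he1 : e ≤ 1 / 100) : ∃ N : ℕ, ∀ n : ℕ, N ≤ n →
    ∀ q : ℕ, (q : ℝ) < (2 / 5 - e / 2) * (n : ℝ) ^ 2 → ∃ r p : ℕ, Ar n q r p := by
  set δ := e / 100 with hδ
  have hδ0 : 0 < δ := by positivity
  have hδ1 : δ ≤ 1 / 10000 := by rw [hδ]; linarith
  have heδ : e = 100 * δ := by rw [hδ]; ring
  obtain ⟨N₀, hN₀⟩ := prime_between δ hδ0
  refine ⟨50 * N₀ + ⌈8 / e⌉₊ + 2000, fun n hn q hq => ?_⟩
  have hn' : (50 * (N₀ : ℝ) + ⌈8 / e⌉₊ + 2000) ≤ n := by exact_mod_cast hn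
  have hceil : 8 / e ≤ (⌈8 / e⌉₊ : ℝ) := Nat.le_ceil _
  have hN0 : (0 : ℝ) ≤ N₀ := Nat.cast_nonneg _
  have hc0 : (0 : ℝ) ≤ (⌈8 / e⌉₊ : ℝ) := Nat.cast_nonneg _
  have hn100 : (2000 : ℝ) ≤ n := by linarith
  have hn6 : 50 * (N₀ : ℝ) + 2000 ≤ n := by linarith
  have hne : 8 / e ≤ n := by linarith
  have hne' : 8 ≤ e * n := by
    rw [div_le_iff₀ he] at hne
    linarith
  obtain ⟨t, ht⟩ : ∃ t : ℝ, (n : ℝ) = t := ⟨_, rfl⟩
  rw [ht] at hn' hn100 hn6 hne hne' hq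
  have ht0 : 0 < t := by linarith
  have hδt : δ * t ≤ t / 10000 := by
    have := mul_le_mul_of_nonneg_right hδ1 ht0.le
    linarith
  have ht2 : 0 < t ^ 2 := by positivity
  have hδt2 : 0 < δ * t ^ 2 := by positivity
  -- the prime p
  obtain ⟨p, hp, hp1, hp2⟩ := hN₀ ((1 - 3 * δ) * t / 5) (by linarith)
  have hp0 : (0 : ℝ) ≤ p := Nat.cast_nonneg p
  have hp2' : 5 * (p : ℝ) < t - 2 * (δ * t) := by
    have h1 : (1 + δ) * ((1 - 3 * δ) * t / 5) = (t - 2 * (δ * t) - 3 * (δ ^ 2 * t)) / 5 := by ring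
    rw [h1] at hp2
    have : 0 ≤ δ ^ 2 * t := by positivity
    linarith
  have hp1' : t - 3 * (δ * t) < 5 * (p : ℝ) := by linarith
  have hδtp : 0 < δ * t := by positivity
  have h5p : 5 * p < n := by
    rw [← Nat.cast_lt (α := ℝ)]
    push_cast
    rw [ht]
    linarith
  obtain ⟨r, hr⟩ : ∃ r : ℕ, r + 5 * p = n := ⟨n - 5 * p, by omega⟩
  have hrr : (r : ℝ) = t - 5 * p := by
    have : ((r + 5 * p : ℕ) : ℝ) = t := by rw [hr, ht]
    push_cast at this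
    linarith
  have hrl : 2 * (δ * t) < (r : ℝ) := by linarith
  have hru : (r : ℝ) < 3 * (δ * t) := by linarith
  have hr0 : 0 < r := by omega
  have hq5 : (q : ℝ) < 2 / 5 * t ^ 2 - 50 * (δ * t ^ 2) := by
    have : (2 / 5 - e / 2) * t ^ 2 = 2 / 5 * t ^ 2 - 50 * (δ * t ^ 2) := by rw [heδ]; ring
    linarith
  -- the general choice of p'
  have key : ∀ (k : ℕ) (y : ℕ), 5 ≤ k → k ≤ 17 → (y : ℝ) ≤ t / 2 →
      ∃ p' r' : ℕ, p'.Prime ∧ 20 < p' ∧ y + r' + k * p' = n ∧ r' ≤ r ∧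
        (1 - δ) * (t - y) < k * p' := by
    intro k y hk hk2 hy
    obtain ⟨p', h1, h2, h3, h4⟩ := aux k hk hk2 δ t y N₀ hN₀ hδ0 (by linarith) hn6 hy
    have h5 : y + k * p' < n := by
      rw [← Nat.cast_lt (α := ℝ)]
      push_cast
      rw [ht]
      linarith
    refine ⟨p', n - (y + k * p'), h1, h2, by omega, ?_, h3⟩
    have h6 : ((n - (y + k * p') : ℕ) : ℝ) ≤ r := by
      rw [Nat.cast_sub h5.le]
      push_cast
      rw [ht]
      have h7 : (1 - δ) * (t - y) = t - y - δ * t + δ * y := by ring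
      have h8 : 0 ≤ δ * (y : ℝ) := mul_nonneg hδ0.le (Nat.cast_nonneg y)
      linarith
    exact_mod_cast h6
  -- the two inequalities
  have hq1 : ∀ y m : ℝ, (1 - δ) * (t - y) < m → t / 5 - δ * t ≤ y → y ≤ t / 5 + 3 * (δ * t) →
      (q : ℝ) < m * y + 2 / 5 * m ^ 2 := by
    intro y m h1 h2 h3
    have h4 : (1 - δ) * (t - y) = t - y - δ * t + δ * y := by ring
    have h5 : 0 ≤ δ * y := mul_nonneg hδ0.le (by linarith)
    have h6 : 4 / 5 * t - 4 * (δ * t) ≤ m := by linarith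
    have h7 : 0 ≤ 4 / 5 * t - 4 * (δ * t) := by linarith
    have h8 : (4 / 5 * t - 4 * (δ * t)) * (t / 5 - δ * t) ≤ m * y :=
      mul_le_mul h6 h2 (by linarith) (by linarith)
    have h9 : (4 / 5 * t - 4 * (δ * t)) ^ 2 ≤ m ^ 2 := pow_le_pow_left₀ h7 h6 2
    have h10 : (4 / 5 * t - 4 * (δ * t)) * (t / 5 - δ * t) =
        4 / 25 * t ^ 2 - 8 / 5 * (δ * t ^ 2) + 4 * (δ ^ 2 * t ^ 2) := by ring
    have h11 : (4 / 5 * t - 4 * (δ * t)) ^ 2 =
        16 / 25 * t ^ 2 - 32 / 5 * (δ * t ^ 2) + 16 * (δ ^ 2 * t ^ 2) := by ring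
    have h12 : 0 ≤ δ ^ 2 * t ^ 2 := by positivity
    rw [h10] at h8
    rw [h11] at h9
    linarith
  have hq2 : ∀ y m : ℝ, (1 - δ) * (t - y) < m → 2 / 5 * t - 2 * (δ * t) ≤ y →
      y ≤ 2 / 5 * t + 3 * (δ * t) → (q : ℝ) < m * y + 5 / 11 * m ^ 2 := by
    intro y m h1 h2 h3
    have h4 : (1 - δ) * (t - y) = t - y - δ * t + δ * y := by ring
    have h5 : 0 ≤ δ * y := mul_nonneg hδ0.le (by linarith)
    have h6 : 3 / 5 * t - 4 * (δ * t) ≤ m := by linarith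
    have h7 : 0 ≤ 3 / 5 * t - 4 * (δ * t) := by linarith
    have h8 : (3 / 5 * t - 4 * (δ * t)) * (2 / 5 * t - 2 * (δ * t)) ≤ m * y :=
      mul_le_mul h6 h2 (by linarith) (by linarith)
    have h9 : (3 / 5 * t - 4 * (δ * t)) ^ 2 ≤ m ^ 2 := pow_le_pow_left₀ h7 h6 2
    have h10 : (3 / 5 * t - 4 * (δ * t)) * (2 / 5 * t - 2 * (δ * t)) =
        6 / 25 * t ^ 2 - 14 / 5 * (δ * t ^ 2) + 8 * (δ ^ 2 * t ^ 2) := by ring
    have h11 : (3 / 5 * t - 4 * (δ * t)) ^ 2 =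
        9 / 25 * t ^ 2 - 24 / 5 * (δ * t ^ 2) + 16 * (δ ^ 2 * t ^ 2) := by ring
    have h12 : 0 ≤ δ ^ 2 * t ^ 2 := by positivity
    rw [h10] at h8
    rw [h11] at h9
    linarith
  have hyr : ∀ y : ℕ, (y = p ∨ y = p + r) → t / 5 - δ * t ≤ y ∧ (y : ℝ) ≤ t / 5 + 3 * (δ * t) := by
    intro y hy
    rcases hy with rfl | rfl
    · constructor <;> linarith
    · push_cast
      constructor <;> linarith
  have hyr2 : ∀ y : ℕ, (y = 2 * p ∨ y = 2 * p + r) →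
      2 / 5 * t - 2 * (δ * t) ≤ y ∧ (y : ℝ) ≤ 2 / 5 * t + 3 * (δ * t) := by
    intro y hy
    rcases hy with rfl | rfl
    · push_cast
      constructor <;> linarith
    · push_cast
      constructor <;> linarith
  refine ⟨r, p, hp, ?_, hr0, ?_, hr, ?_, ?_, ?_, ?_⟩
  · have : (3 : ℝ) < p := by linarith
    exact_mod_cast this
  · have : (r : ℝ) ≤ p := by linarith
    exact_mod_cast this
  · have h1 : (q : ℝ) < ((10 * (p * (p - 1)) : ℕ) : ℝ) := by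
      have hp1n : 1 ≤ p := hp.one_lt.le
      push_cast [Nat.cast_sub hp1n]
      have h3 : (t - 3 * (δ * t)) ^ 2 ≤ (5 * (p : ℝ)) ^ 2 := by
        apply pow_le_pow_left₀ _ hp1'.le
        linarith
      have h4 : (t - 3 * (δ * t)) ^ 2 = t ^ 2 - 6 * (δ * t ^ 2) + 9 * (δ ^ 2 * t ^ 2) := by ring
      have h5 : 0 ≤ δ ^ 2 * t ^ 2 := by positivity
      have h6 : (5 * (p : ℝ)) ^ 2 = 25 * (p * p) := by ring
      have h7 : 10 * ((p : ℝ) * (p - 1)) = 10 * (p * p) - 10 * p := by ring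
      have h9 : 8 * t ≤ 100 * (δ * t ^ 2) := by
        have := mul_le_mul_of_nonneg_right hne' ht0.le
        have h10 : e * t * t = 100 * (δ * t ^ 2) := by rw [heδ]; ring
        linarith
      rw [h7]
      rw [h4, h6] at h3
      linarith
    exact_mod_cast h1
  · intro y hy
    obtain ⟨h1, h2⟩ := hyr y hy
    obtain ⟨p', r', h3, h4, h5, h6, h7⟩ := key 5 y (by norm_num) (by norm_num) (by linarith)
    refine ⟨p', r', h3, h4, h5, h6, ?_⟩
    have h8 := hq1 y (((5 : ℕ) : ℝ) * p') h7 h1 h2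
    have h9 : (q : ℝ) < ((5 * p' * y + 10 * p' * p' : ℕ) : ℝ) := by
      push_cast at h8 ⊢
      have h10 : 5 * (p' : ℝ) * y + 2 / 5 * (5 * (p' : ℝ)) ^ 2 = 5 * p' * y + 10 * p' * p' := by
        ring
      linarith
    exact_mod_cast h9
  · intro y hy
    have hy2 : (y : ℝ) ≤ t / 2 := by
      rcases hy with h | h | h | h
      · linarith [(hyr y (Or.inl h)).2]
      · linarith [(hyr y (Or.inr h)).2]
      · linarith [(hyr2 y (Or.inl h)).2]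
      · linarith [(hyr2 y (Or.inr h)).2]
    obtain ⟨p', r', h3, h4, h5, h6, h7⟩ := key 11 y (by norm_num) (by norm_num) hy2
    refine ⟨p', r', h3, h4, h5, h6, ?_⟩
    have h0 : (0 : ℝ) ≤ (p' : ℝ) ^ 2 := by positivity
    have h9 : (q : ℝ) < ((11 * p' * y + 55 * p' * p' : ℕ) : ℝ) := by
      have h10 : (y = p ∨ y = p + r) ∨ (y = 2 * p ∨ y = 2 * p + r) := by tauto
      rcases h10 with h | h
      · have h8 := hq1 y (((11 : ℕ) : ℝ) * p') h7 (hyr y h).1 (hyr y h).2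
        push_cast at h8 ⊢
        have h11 : 11 * (p' : ℝ) * y + 2 / 5 * (11 * (p' : ℝ)) ^ 2 =
          11 * p' * y + 242 / 5 * (p' : ℝ) ^ 2 := by ring
        have h12 : 55 * (p' : ℝ) * p' = 55 * (p' : ℝ) ^ 2 := by ring
        linarith
      · have h8 := hq2 y (((11 : ℕ) : ℝ) * p') h7 (hyr2 y h).1 (hyr2 y h).2
        push_cast at h8 ⊢
        have h11 : 11 * (p' : ℝ) * y + 5 / 11 * (11 * (p' : ℝ)) ^ 2 =
          11 * p' * y + 55 * (p' : ℝ) ^ 2 := by ring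
        have h12 : 55 * (p' : ℝ) * p' = 55 * (p' : ℝ) ^ 2 := by ring
        linarith
    exact_mod_cast h9
  · intro y hy
    have hy2 : (y : ℝ) ≤ t / 2 := by
      rcases hy with h | h | h | h
      · linarith [(hyr y (Or.inl h)).2]
      · linarith [(hyr y (Or.inr h)).2]
      · linarith [(hyr2 y (Or.inl h)).2]
      · linarith [(hyr2 y (Or.inr h)).2]
    obtain ⟨p', r', h3, h4, h5, h6, h7⟩ := key 17 y (by norm_num) (by norm_num) hy2
    refine ⟨p', r', h3, h4, h5, h6, ?_⟩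
    have h0 : (0 : ℝ) ≤ (p' : ℝ) ^ 2 := by positivity
    have h9 : (q : ℝ) < ((17 * p' * y + 136 * p' * p' : ℕ) : ℝ) := by
      have h10 : (y = p ∨ y = p + r) ∨ (y = 2 * p ∨ y = 2 * p + r) := by tauto
      rcases h10 with h | h
      · have h8 := hq1 y (((17 : ℕ) : ℝ) * p') h7 (hyr y h).1 (hyr y h).2
        push_cast at h8 ⊢
        have h11 : 17 * (p' : ℝ) * y + 2 / 5 * (17 * (p' : ℝ)) ^ 2 =
          17 * p' * y + 578 / 5 * (p' : ℝ) ^ 2 := by ring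
        have h12 : 136 * (p' : ℝ) * p' = 136 * (p' : ℝ) ^ 2 := by ring
        linarith
      · have h8 := hq2 y (((17 : ℕ) : ℝ) * p') h7 (hyr2 y h).1 (hyr2 y h).2
        push_cast at h8 ⊢
        have h11 : 17 * (p' : ℝ) * y + 5 / 11 * (17 * (p' : ℝ)) ^ 2 =
          17 * p' * y + 1445 / 11 * (p' : ℝ) ^ 2 := by ring
        have h12 : 136 * (p' : ℝ) * p' = 136 * (p' : ℝ) ^ 2 := by ring
        linarith
    exact_mod_cast h9

end Pool.Agent.L0h93.Karp
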