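import Pool.Agent.L0h93.Karp.Facts5
import Pool.Agent.Y46.Kc.Near2

set_option autoImplicit false

/-! # Blow-ups in which the small part is joined to no block or to all blocks -/

namespace Pool.Agent.L0h93.Karp

open Finset
open Pool.Agent.H119R2.Kp
open Pool.Agent.Y46.Kc (VV)

/-- the part of a vertex -/
def pt {r k : ℕ} [NeZero k] {W : Type} : VV r k W → Fin (k + 1)
  | .inl _ => 0
  | .inr u => Fin.succ ⟨u.1.val, ZMod.val_lt u.1⟩

theorem pt_inr {r k : ℕ} [NeZero k] {W : Type} (u : ZMod k × W) :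
    pt (r := r) (Sum.inr u) = Fin.succ ⟨u.1.val, ZMod.val_lt u.1⟩ := rfl

theorem pt_inr_ne {r k : ℕ} [NeZero k] {W : Type} (u : ZMod k × W) :
    pt (r := r) (Sum.inr u) ≠ 0 := by
  rw [pt_inr]
  exact Fin.succ_ne_zero _

theorem sum_pt {r k p : ℕ} [NeZero k] [NeZero p] (i : Fin (k + 1)) :
    ∑ v : VV r k (Fin 1 → ZMod p), (if pt v = i then 1 else 0) = sz k r p i := by
  rw [Fintype.sum_sum_type]
  refine Fin.cases ?_ (fun j => ?_) i
  · have h1 : ∀ a : Fin r, (if pt (k := k) (W := Fin 1 → ZMod p) (Sum.inl a) = 0 then 1 else 0)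
        = (1 : ℕ) := fun a => rfl
    have h2 : ∀ u : ZMod k × (Fin 1 → ZMod p),
        (if pt (r := r) (Sum.inr u) = 0 then 1 else 0) = (0 : ℕ) := fun u => by
      rw [if_neg (pt_inr_ne u)]
    rw [Finset.sum_congr rfl (fun a _ => h1 a), Finset.sum_congr rfl (fun u _ => h2 u)]
    simp [sz]
  · have h1 : ∀ a : Fin r, (if pt (k := k) (W := Fin 1 → ZMod p) (Sum.inl a) = j.succ then 1
        else 0) = (0 : ℕ) := fun a => by
      rw [if_neg]
      exact (Fin.succ_ne_zero _).symm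
    have h2 : ∀ u : ZMod k × (Fin 1 → ZMod p),
        (if pt (r := r) (Sum.inr u) = j.succ then 1 else 0) =
          if u.1 = ((j.val : ℕ) : ZMod k) then (1 : ℕ) else 0 := by
      intro u
      have h3 : pt (r := r) (Sum.inr u) = j.succ ↔ u.1 = ((j.val : ℕ) : ZMod k) := by
        change Fin.succ ⟨u.1.val, ZMod.val_lt u.1⟩ = j.succ ↔ _
        rw [Fin.succ_inj, Fin.ext_iff]
        constructor
        · intro h
          have h4 : u.1.val = j.val := h
          rw [← h4, ZMod.natCast_zmod_val]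
        · intro h
          change u.1.val = j.val
          rw [h, ZMod.val_natCast, Nat.mod_eq_of_lt j.2]
      simp only [h3]
    rw [Finset.sum_congr rfl (fun a _ => h1 a), Finset.sum_congr rfl (fun u _ => h2 u),
      Fintype.sum_prod_type]
    have h5 : ∀ x : ZMod k, (∑ _w : Fin 1 → ZMod p,
        if x = ((j.val : ℕ) : ZMod k) then (1 : ℕ) else 0) =
          if x = ((j.val : ℕ) : ZMod k) then p else 0 := by
      intro x
      rw [Finset.sum_const, Finset.card_univ]
      split_ifs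
      · simp
      · simp
    rw [Finset.sum_congr rfl (fun x _ => h5 x), Finset.sum_ite_eq' univ, if_pos (mem_univ _)]
    simp [sz]

open FA in
/-- the small part is joined to no block -/
theorem sig_empty {n q : ℕ} {P : SimpleGraph (Fin n) → Prop} (hP : GP n q P) (hS : Star n P)
    (k r p : ℕ) [Fact p.Prime] (hk : k.Prime) (hk3 : 3 ≤ k) (l N : ℕ) (hl : l.Prime)
    (hm : k = 2 * l ^ N + 1 ∨ k = 4 * l ^ N + 1) (hn : r + k * p = n)
    (hq : q < k.choose 2 * p ^ 2) (Γ : Fin (k + 1) → Fin (k + 1) → Bool)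
    (h0 : ∀ i, i ≠ 0 → Γ 0 i = false ∧ Γ i 0 = false) : hv P (sz k r p) Γ = 0 := by
  have : NeZero k := ⟨by omega⟩
  have : NeZero p := ⟨(Fact.out : p.Prime).ne_zero⟩
  rcases hv01 P (sz k r p) Γ with h | h
  · exact h
  exfalso
  have hK : PV P (VV r k (Fin 1 → ZMod p))
      (Pool.Agent.Y46.Kc.GG ⊤ ∅ Set.univ Set.univ) := by
    refine of_hv hP _ _ pt (fun i => sum_pt i) _ ?_ h
    rintro (u | u) (v | v) huv h1
    · exact fun hc => huv (by rw [hc])
    · exfalso
      have h2 := h0 (pt (r := r) (Sum.inr v)) (pt_inr_ne v)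
      rcases h1 with h1 | h1
      · exact Bool.noConfusion (h2.1.symm.trans h1)
      · exact Bool.noConfusion (h2.2.symm.trans h1)
    · exfalso
      have h2 := h0 (pt (r := r) (Sum.inr u)) (pt_inr_ne u)
      rcases h1 with h1 | h1
      · exact Bool.noConfusion (h2.2.symm.trans h1)
      · exact Bool.noConfusion (h2.1.symm.trans h1)
    · by_cases hb : u.1 = v.1
      · refine Or.inl ⟨hb, ?_, Or.inl trivial⟩
        intro hw
        exact huv (by rw [Prod.ext hb hw])
      · exact Or.inr ⟨hb, Or.inl trivial⟩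
  have h2 := Pool.Agent.Y46.Kc.near hP p 1 hk hk3 (by rw [pow_one]; exact hn) l N hl hm
    (by rw [pow_one]; exact hq) ⊤ ∅ hK
  refine not_PV_isol hS _ (Sum.inr (0, 0)) ?_ h2
  rintro (w | w) hw
  · exact hw
  · rcases hw with ⟨_, _, h | h⟩ | ⟨_, h | h⟩ <;> exact h

/-- the small part is joined to all blocks -/
theorem sig_full {n q : ℕ} {P : SimpleGraph (Fin n) → Prop} (hP : GP n q P) (hS : Star n P)
    (k r p : ℕ) [Fact p.Prime] (hk : k.Prime) (hk3 : 3 ≤ k) (l N : ℕ) (hl : l.Prime)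
    (hm : k = 2 * l ^ N + 1 ∨ k = 4 * l ^ N + 1) (hn : r + k * p = n)
    (hq : q < k.choose 2 * p ^ 2) (Γ : Fin (k + 1) → Fin (k + 1) → Bool)
    (h0 : ∀ i, i ≠ 0 → Γ 0 i = true ∨ Γ i 0 = true) : hv P (sz k r p) Γ = 1 := by
  have h1 := hv_dual hP (sz k r p) (by
    rw [Fin.sum_univ_succ]
    simp [sz, hn]) (fun a b => !(Γ a b || Γ b a)) Γ (by
      intro a b
      cases Γ a b <;> cases Γ b a <;> rfl)
  rw [sig_empty hP.dual' hS.dual' k r p hk hk3 l N hl hm hn hq _ (by
    intro i hi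
    rcases h0 i hi with h | h <;> simp [h])] at h1
  omega

/-- five blocks: the small part is joined to no block -/
theorem sig_empty5 {n q : ℕ} {P : SimpleGraph (Fin n) → Prop} (hP : GP n q P) (hS : Star n P)
    (r p : ℕ) [Fact p.Prime] (hn : r + 5 * p = n) (hq : q < 10 * p ^ 2)
    (Γ : Fin 6 → Fin 6 → Bool) (h0 : ∀ i, i ≠ 0 → Γ 0 i = false ∧ Γ i 0 = false) :
    hv P (sz 5 r p) Γ = 0 :=
  sig_empty hP hS 5 r p (by norm_num) (by norm_num) 2 1 Nat.prime_two (Or.inl (by norm_num)) hn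
    (by
      have : Nat.choose 5 2 = 10 := by decide
      rw [this]
      exact hq) Γ h0

/-- five blocks: the small part is joined to all blocks -/
theorem sig_full5 {n q : ℕ} {P : SimpleGraph (Fin n) → Prop} (hP : GP n q P) (hS : Star n P)
    (r p : ℕ) [Fact p.Prime] (hn : r + 5 * p = n) (hq : q < 10 * p ^ 2)
    (Γ : Fin 6 → Fin 6 → Bool) (h0 : ∀ i, i ≠ 0 → Γ 0 i = true ∨ Γ i 0 = true) :
    hv P (sz 5 r p) Γ = 1 :=
  sig_full hP hS 5 r p (by norm_num) (by norm_num) 2 1 Nat.prime_two (Or.inl (by norm_num)) hn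
    (by
      have : Nat.choose 5 2 = 10 := by decide
      rw [this]
      exact hq) Γ h0

end Pool.Agent.L0h93.Karp
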