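import Pool.Agent.L0h93.Karp.Case
import Pool.Agent.L0h93.Karp.Ar
import Pool.Agent.L0h93.Karp.Sig

set_option autoImplicit false

/-! # The facts for the five blocks of size `p` and the part `R` of size `r` -/

namespace Pool.Agent.L0h93.Karp

open Finset
open Pool.Agent.H119R2.Kp

variable {n q : ℕ} {P : SimpleGraph (Fin n) → Prop}

theorem szA_add {k : ℕ} (s : Fin k → ℕ) (A : Fin k → Bool) :
    szA s A true + szA s A false = ∑ i, s i := by
  unfold szA
  rw [← Finset.sum_add_distrib]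
  refine Finset.sum_congr rfl fun i _ => ?_
  cases A i <;> simp

theorem sum_sz5 (r p : ℕ) : ∑ i, sz 5 r p i = r + 5 * p := by
  rw [Fin.sum_univ_succ]
  simp [sz]

theorem le_sz5 {r p r' : ℕ} (h : r' ≤ r) (hrp : r ≤ p) (j : Fin 6) : r' ≤ sz 5 r p j := by
  refine Fin.cases ?_ (fun i => ?_) j
  · simpa [sz] using h
  · simpa [sz] using h.trans hrp

/-- the size of `A` among the parts is `p` or `p + r` -/
def DiscF (P : SimpleGraph (Fin n) → Prop) (r p y : ℕ) : Prop :=
  ∀ (A : Fin 6 → Bool) (Γ : Fin 6 → Fin 6 → Bool), szA (sz 5 r p) A true = y →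
    (∀ a b, A a = true → A b = false → Γ a b = false ∧ Γ b a = false) → hv P (sz 5 r p) Γ = 0

/-- the hub facts -/
def HubF (P : SimpleGraph (Fin n) → Prop) (r p y : ℕ) : Prop :=
  ∀ (A : Fin 6 → Bool) (Γ : Fin 6 → Fin 6 → Bool) (j : Fin 6), szA (sz 5 r p) A true = y →
    A j = false → (∀ a b, A a = true → A b = true → Γ a b = true ∨ Γ b a = true) →
    (∀ b, A b = false → Γ j b = true ∨ Γ b j = true) → hv P (sz 5 r p) Γ = 1

/-- the dual of the disconnected facts -/
def CodiscF (P : SimpleGraph (Fin n) → Prop) (r p y : ℕ) : Prop :=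
  ∀ (A : Fin 6 → Bool) (Γ : Fin 6 → Fin 6 → Bool), szA (sz 5 r p) A true = y →
    (∀ a b, A a = true → A b = false → Γ a b = true ∨ Γ b a = true) → hv P (sz 5 r p) Γ = 1

/-- the dual of the hub facts -/
def CohubF (P : SimpleGraph (Fin n) → Prop) (r p y : ℕ) : Prop :=
  ∀ (A : Fin 6 → Bool) (Γ : Fin 6 → Fin 6 → Bool) (j : Fin 6), szA (sz 5 r p) A true = y →
    A j = false → (∀ a b, A a = true → A b = true → Γ a b = false ∧ Γ b a = false) →
    (∀ b, A b = false → Γ j b = false ∧ Γ b j = false) → hv P (sz 5 r p) Γ = 0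

theorem rest5 {r p y r' p' : ℕ} (hn : r + 5 * p = n) (hn' : y + r' + 5 * p' = n)
    (A : Fin 6 → Bool) (hA : szA (sz 5 r p) A true = y) :
    szA (sz 5 r p) A false = r' + 5 * p' := by
  have h1 := szA_add (sz 5 r p) A
  rw [sum_sz5, hA] at h1
  omega

/-- **the case distinction for `y = p` and `y = p + r`** -/
theorem dcase5 (hP : GP n q P) (hS : Star n P) {r p : ℕ} (har : Ar n q r p) (y : ℕ)
    (hy : y = p ∨ y = p + r) : DiscF P r p y ∨ HubF P r p y := by
  obtain ⟨p', r', h1, h2, h3, h4, h5⟩ := har.a5 y hy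
  have : Fact p'.Prime := ⟨h1⟩
  have hp := har.hp.pos
  have hy0 : 0 < y := by omega
  rcases case_disc hP hS p' y r' (by omega) hy0 h3 h5 with h | h
  · left
    intro A Γ hA hΓ
    exact h 6 (sz 5 r p) A Γ hA (rest5 har.hn h3 A hA) hΓ
  · right
    intro A Γ j hA hj hc hh
    exact h 6 (sz 5 r p) A Γ j hA (rest5 har.hn h3 A hA) hj (le_sz5 h4 har.hrp j) hc hh

/-- **the dual case distinction for `y = p` and `y = p + r`** -/
theorem ccase5 (hP : GP n q P) (hS : Star n P) {r p : ℕ} (har : Ar n q r p) (y : ℕ)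
    (hy : y = p ∨ y = p + r) : CodiscF P r p y ∨ CohubF P r p y := by
  obtain ⟨p', r', h1, h2, h3, h4, h5⟩ := har.a5 y hy
  have : Fact p'.Prime := ⟨h1⟩
  have hp := har.hp.pos
  have hy0 : 0 < y := by omega
  rcases case_codisc hP hS p' y r' (by omega) hy0 h3 h5 with h | h
  · left
    intro A Γ hA hΓ
    exact h 6 (sz 5 r p) A Γ hA (rest5 har.hn h3 A hA) hΓ
  · right
    intro A Γ j hA hj hc hh
    exact h 6 (sz 5 r p) A Γ j hA (rest5 har.hn h3 A hA) hj (le_sz5 h4 har.hrp j) hc hh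

theorem szA_block (r p : ℕ) (i : Fin 5) :
    szA (sz 5 r p) (fun a => decide (a = i.succ)) true = p := by
  unfold szA
  rw [Finset.sum_eq_single i.succ]
  · simp [sz]
  · intro b _ hb
    simp [hb]
  · intro h
    exact absurd (Finset.mem_univ _) h

theorem szA_Rblock (r p : ℕ) (i : Fin 5) :
    szA (sz 5 r p) (fun a => decide (a = 0 ∨ a = i.succ)) true = p + r := by
  unfold szA
  rw [Fin.sum_univ_succ, Finset.sum_eq_single i]
  · simp [sz, add_comm]
  · intro b _ hb
    simp [hb]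
  · intro h
    exact absurd (Finset.mem_univ _) h

/-- the facts with `R` joined to no block, or to all blocks -/
theorem sg_empty (hP : GP n q P) (hS : Star n P) {r p : ℕ} (har : Ar n q r p)
    (Γ : Fin 6 → Fin 6 → Bool) (h0 : ∀ i, i ≠ 0 → Γ 0 i = false ∧ Γ i 0 = false) :
    hv P (sz 5 r p) Γ = 0 := by
  have : Fact p.Prime := ⟨har.hp⟩
  refine sig_empty5 hP hS r p har.hn (lt_of_lt_of_le har.hq ?_) Γ h0
  have h1 : p * (p - 1) ≤ p * p := Nat.mul_le_mul_left _ (Nat.sub_le _ _)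
  nlinarith [h1]

theorem sg_full (hP : GP n q P) (hS : Star n P) {r p : ℕ} (har : Ar n q r p)
    (Γ : Fin 6 → Fin 6 → Bool) (h0 : ∀ i, i ≠ 0 → Γ 0 i = true ∨ Γ i 0 = true) :
    hv P (sz 5 r p) Γ = 1 := by
  have : Fact p.Prime := ⟨har.hp⟩
  refine sig_full5 hP hS r p har.hn (lt_of_lt_of_le har.hq ?_) Γ h0
  have h1 : p * (p - 1) ≤ p * p := Nat.mul_le_mul_left _ (Nat.sub_le _ _)
  nlinarith [h1]

end Pool.Agent.L0h93.Karp
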