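import Mathlib
import Pool.Agent.L0h93.Karp.Mask5
import Pool.Agent.L0h93.Karp.Cs5

set_option autoImplicit false

/-! MP_257582_lc: the facts on the values of `P` on the patterns. -/

namespace Pool.Agent.L0h93.Karp.M5

open Finset
open Pool.Agent.H98R2.Ev (EV toG NE)
open Pool.Agent.H119R2.Kp Pool.Agent.N593.Karp

/-- the blocks with multiplier `1` -/
def ml : ℕ → List (Fin 5)
  | 1 => [3]
  | 2 => [1, 3]
  | 3 => [2, 3]
  | 4 => [0, 2, 3]
  | 5 => [1, 2, 3]
  | 6 => [0, 1, 2, 3]
  | _ => []

/-- multipliers: the product over each cycle of `tau t` is `μ` -/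
def mu {p : ℕ} (t : ℕ) (μ : (ZMod p)ˣ) (b : Fin 5) : (ZMod p)ˣ := if b ∈ ml t then 1 else μ

theorem rc_pow' {k r p : ℕ} (τ : Equiv.Perm (Fin k)) (m : Fin k → (ZMod p)ˣ) (e : ℕ) (b : Fin k)
    (u : ZMod p) : (rc τ m ^ e : Equiv.Perm (W k r p)) (Sum.inr (b, u)) =
      Sum.inr ((τ ^ e) b, ((∏ i ∈ range e, m ((τ ^ i) b) : (ZMod p)ˣ) : ZMod p) * u) := by
  induction e with
  | zero => simp
  | succ e ih =>
    rw [pow_succ', Equiv.Perm.mul_apply, ih, rc_inr, pow_succ', Equiv.Perm.mul_apply,
      prod_range_succ, Units.val_mul, mul_comm _ (m ((τ ^ e) b) : ZMod p), mul_assoc]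

theorem cyc : ∀ t : Fin 7, ∀ b : Fin 5, ∃ e < 6, (tau t.val ^ e) b = b ∧
    ((range e).filter (fun i => (tau t.val ^ i) b ∉ ml t.val)).card = 1 := by
  decide +kernel

theorem per_mu {p : ℕ} (t : ℕ) (ht : t < 7) (μ : (ZMod p)ˣ) : Per (tau t) (mu t μ) μ := by
  intro b
  obtain ⟨e, _, h1, h2⟩ := cyc ⟨t, ht⟩ b
  refine ⟨e, fun r u => ?_⟩
  rw [rc_pow', h1]
  have h3 : (∏ i ∈ range e, mu t μ ((tau t ^ i) b)) = μ := by
    have h4 : ∀ i ∈ range e, mu t μ ((tau t ^ i) b) =
        if (tau t ^ i) b ∉ ml t then μ else 1 := by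
      intro i _
      unfold mu
      by_cases h : (tau t ^ i) b ∈ ml t <;> simp [h]
    rw [prod_congr rfl h4, ← prod_filter, prod_const, h2, pow_one]
  rw [h3]

theorem relM {n q : ℕ} {P : SimpleGraph (Fin n) → Prop} (hP : GP n q P) (r p : ℕ)
    [hpf : Fact p.Prime] (hp : 2 < p) (hn : r + 5 * p = n) (hq : q < 10 * (p * (p - 1)))
    (t fm g : ℕ) (h : okRel t fm g = true) :
    alt' (fV P r p) ((sel t fm).map Prod.fst) g = 0 := by
  have hp0 : NeZero p := ⟨by omega⟩
  obtain ⟨μ, hμ⟩ := IsCyclic.exists_generator (α := (ZMod p)ˣ)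
  unfold okRel at h
  simp only [Bool.and_eq_true, List.all_eq_true, decide_eq_true_eq, List.mem_range, beq_iff_eq,
    Bool.or_eq_true, Bool.not_eq_true'] at h
  obtain ⟨⟨⟨ht, h1⟩, h2⟩, h3⟩ := h
  set S := sel t fm with hS
  have hsub : S.Sublist (tbl t) := List.filter_sublist
  have hmem : ∀ w ∈ S, w ∈ tbl t := fun w hw => hsub.subset hw
  have hdis : S.Pairwise (fun w w' => ∀ A B : Fin 6, pm w.1 A B = true →
    pm w'.1 A B = true → False) := (tbl_dis ⟨t, ht⟩).sublist hsub
  set O : Fin S.length → List (Fin 6 × Fin 6) := fun j => Owl (S.get j).1 with hO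
  have hpat : ∀ j, pat (O j) = pm (S.get j).1 := fun j => pat_Owl _
  have hin : ∀ j : Fin S.length, S.get j ∈ tbl t := fun j => hmem _ (List.get_mem _ _)
  have hcnt : ∑ j : Fin S.length, cnt (sz 5 r p) (pat (O j)) ≥ 20 * (p * (p - 1)) := by
    have e1 : ∑ j : Fin S.length, (S.get j).2 = (S.map Prod.snd).sum := by
      rw [← List.sum_ofFn]
      congr 1
      apply List.ext_get
      · simp
      · intro i h1 h2
        simp
    calc 20 * (p * (p - 1)) ≤ (∑ j : Fin S.length, (S.get j).2) * (p * (p - 1)) := by
          rw [e1]; exact Nat.mul_le_mul_right _ h2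
      _ = ∑ j : Fin S.length, (S.get j).2 * (p * (p - 1)) := Finset.sum_mul _ _ _
      _ ≤ _ := Finset.sum_le_sum fun j _ => by
          rw [hpat]
          exact tbl_cnt r p t ht _ (hin j)
  have hmain := relT hP 5 r p hp hn (tau t) (mu t μ) μ hμ (per_mu t ht μ) (pm g) O
    (by
      intro A B hAB
      rw [ad_pm] at hAB ⊢
      rcases h3 A.val A.isLt B.val B.isLt with h4 | h4
      · exfalso
        have : pm g A B = false := h4
        rw [this] at hAB
        exact Bool.noConfusion hAB
      · unfold pm
        rw [ta_tau ⟨t, ht⟩, ta_tau ⟨t, ht⟩]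
        exact h4)
    (by
      intro j A B hAB
      rw [hpat, ad_pm] at hAB ⊢
      exact tbl_inv ⟨t, ht⟩ _ (hin j) A B hAB)
    (by
      intro i j hij A B h4 h5
      rw [hpat, ad_pm] at h4 h5
      rcases lt_or_gt_of_ne hij with h6 | h6
      · exact List.pairwise_iff_get.mp hdis i j h6 A B h4 h5
      · exact List.pairwise_iff_get.mp hdis j i h6 A B h5 h4)
    (by
      intro i A B h4 h5
      rw [ad_pm] at h4
      rw [hpat, ad_pm] at h5
      have h6 := h1 _ (List.get_mem S i)
      have h7 : (g &&& (S.get i).1).testBit (bx A.val B.val) = true := by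
        rw [Nat.testBit_and]
        simp only [pm, pb] at h4 h5
        rw [h4, h5]
        rfl
      rw [h6] at h7
      simp at h7)
    (by
      intro j
      obtain ⟨A, B, h4⟩ := tbl_ne ⟨t, ht⟩ _ (hin j)
      exact ⟨A, B, by rw [hpat, ad_pm]; exact h4⟩)
    (by
      intro j A B h4
      rw [hpat, ad_pm] at h4
      exact tbl_0 ⟨t, ht⟩ _ (hin j) A B h4)
    (by
      intro j A B A' B' h4 h5
      rw [hpat, ad_pm] at h4 h5
      exact tbl_tr t ht _ (hin j) A B A' B' h4 h5)
    (by omega)
  have hsum := sum_altP (fun Γ => hv P (sz 5 r p) Γ) O (List.finRange S.length)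
    (List.nodup_finRange _) (pm g)
  have hu : (List.finRange S.length).toFinset = univ := by ext i; simp
  rw [hu, powerset_univ] at hsum
  have hmain' : ∑ I : Finset (Fin S.length), (-1 : ℤ) ^ I.card *
      hv P (sz 5 r p) (fun a b => pm g a b || decide (∃ j ∈ I, (a, b) ∈ O j)) = 0 := hmain
  have hz := hsum.symm.trans (Eq.trans (Finset.sum_congr rfl (fun I _ => by
    refine congrArg (fun x => (-1 : ℤ) ^ I.card * hv P (sz 5 r p) x) ?_
    funext a b
    rw [Bool.eq_iff_iff]
    simp only [Bool.or_eq_true, decide_eq_true_eq])) hmain')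
  have hmap : (List.finRange S.length).map (fun j => pat (O j)) = (S.map Prod.fst).map pm := by
    apply List.ext_get
    · simp
    · intro i h1 h2
      simp [hpat]
  rw [hmap, altP_pm] at hz
  exact hz

/-- digits of a coded permutation of the parts -/
def pv (π a : ℕ) : ℕ := (π >>> (3 * a)) &&& 7

/-- the code gives a permutation fixing `0` -/
def okP (π : ℕ) : Bool :=
  (pv π 0 == 0) && (List.range 6).all (fun a => decide (pv π a < 6)) &&
    (List.range 6).all (fun b => (List.range 6).any (fun a => pv π a == b))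

theorem okP_perm (π : ℕ) (h : okP π = true) : ∃ σ : Equiv.Perm (Fin 6), σ 0 = 0 ∧
    ∀ a : Fin 6, (σ a).val = pv π a.val := by
  unfold okP at h
  simp only [Bool.and_eq_true, List.all_eq_true, List.any_eq_true, decide_eq_true_eq,
    List.mem_range, beq_iff_eq] at h
  obtain ⟨⟨h1, h2⟩, h3⟩ := h
  let F : Fin 6 → Fin 6 := fun a => ⟨pv π a.val, h2 _ a.isLt⟩
  have hsurj : Function.Surjective F := by
    intro b
    obtain ⟨a, ha, hab⟩ := h3 b.val b.isLt
    exact ⟨⟨a, ha⟩, Fin.ext hab⟩
  have hbij : Function.Bijective F := Finite.surjective_iff_bijective.mp hsurj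
  exact ⟨Equiv.ofBijective F hbij, Fin.ext h1, fun a => rfl⟩

/-- support of the exchange of part `0` with a piece of part `i` (`i = 0`: no exchange) -/
def sp (i a : ℕ) : List ℕ := if i = 0 then [a] else if a = 0 then [i] else if a = i then [i, 0] else [a]

/-- domination check -/
def okD (i π g g' : ℕ) : Bool :=
  okP π && decide (i < 6) && (List.range 6).all (fun a => (List.range 6).all (fun b =>
    !(pb g a b) || (sp i a).all (fun u => (sp i b).all (fun v => pb g' (pv π u) (pv π v)))))

theorem sz0 (r p : ℕ) : sz 5 r p 0 = r := rfl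

theorem szne (r p : ℕ) (i : Fin 6) (hi : i ≠ 0) : sz 5 r p i = p := by
  obtain ⟨j, rfl⟩ := Fin.exists_succ_eq.2 hi
  rfl

theorem dom {n q : ℕ} {P : SimpleGraph (Fin n) → Prop} (hP : GP n q P) (r p : ℕ) (hrp : r ≤ p)
    (i π g g' : ℕ) (h : okD i π g g' = true) : fV P r p g ≤ fV P r p g' := by
  unfold okD at h
  simp only [Bool.and_eq_true, List.all_eq_true, decide_eq_true_eq, List.mem_range,
    Bool.or_eq_true, Bool.not_eq_true'] at h
  obtain ⟨⟨hπ, hi⟩, h3⟩ := h
  obtain ⟨σ, hσ0, hσ⟩ := okP_perm π hπ
  have key : ∀ a b u v : Fin 6, pm g a b = true → u.val ∈ sp i a.val → v.val ∈ sp i b.val →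
      pm g' (σ u) (σ v) = true := by
    intro a b u v hab hu hv
    rcases h3 a.val a.isLt b.val b.isLt with h4 | h4
    · exfalso
      have : pm g a b = false := h4
      rw [this] at hab
      exact Bool.noConfusion hab
    · have := h4 u.val hu v.val hv
      unfold pm
      rw [hσ, hσ]
      exact this
  have hszσ : ∀ a, sz 5 r p (σ a) = sz 5 r p a := by
    intro a
    by_cases ha : a = 0
    · rw [ha, hσ0]
    · rw [szne r p a ha, szne r p (σ a)]
      intro h1
      exact ha (σ.injective (h1.trans hσ0.symm))
  by_cases hi0 : i = 0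
  · subst hi0
    refine emb hP (sz 5 r p) (sz 5 r p) (pm g) (pm g')
      (fun a x => if x = σ a then sz 5 r p a else 0) (fun a => ?_) (fun x => ?_) ?_
    · rw [Finset.sum_ite_eq', if_pos (Finset.mem_univ _)]
    · have h1 : ∀ a, (if x = σ a then sz 5 r p a else 0) =
          if a = σ.symm x then sz 5 r p a else 0 := by
        intro a
        by_cases h2 : x = σ a
        · rw [if_pos h2, if_pos (by rw [h2, Equiv.symm_apply_apply])]
        · rw [if_neg h2, if_neg (fun h3 => h2 (by rw [h3, Equiv.apply_symm_apply]))]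
      rw [Finset.sum_congr rfl (fun a _ => h1 a), Finset.sum_ite_eq', if_pos (Finset.mem_univ _),
        ← hszσ, Equiv.apply_symm_apply]
    · intro a b x y hab hax hby
      have h1 : x = σ a := by
        by_contra hne
        exact hax (if_neg hne)
      have h2 : y = σ b := by
        by_contra hne
        exact hby (if_neg hne)
      subst h1 h2
      left
      refine key a b a b ?_ (by simp [sp]) (by simp [sp])
      rcases hab with h4 | h4
      · exact h4
      · rw [pm_symm]; exact h4
  · -- exchange
    set I : Fin 6 := ⟨i, hi⟩ with hI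
    have hI0 : I ≠ 0 := by
      intro h
      apply hi0
      have := congrArg Fin.val h
      simpa [hI] using this
    have hσI0 : σ I ≠ 0 := fun h => hI0 (σ.injective (h.trans hσ0.symm))
    let t : Fin 6 → Fin 6 → ℕ := fun a x =>
      if a = 0 then (if x = σ I then r else 0)
      else if a = I then (if x = 0 then r else if x = σ I then p - r else 0)
      else if x = σ a then p else 0
    have hsupp : ∀ a x, t a x ≠ 0 → ∃ u : Fin 6, x = σ u ∧ u.val ∈ sp i a.val := by
      intro a x hax
      by_cases h1 : a = 0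
      · subst h1
        have hx : x = σ I := by
          by_contra hne
          apply hax
          simp [t, hne]
        exact ⟨I, hx, by simp [sp, hi0, hI]⟩
      · by_cases h2 : a = I
        · by_cases hx0 : x = 0
          · exact ⟨0, by rw [hx0, hσ0], by rw [h2]; simp [sp, hi0, hI]⟩
          · have hx : x = σ I := by
              by_contra hne
              apply hax
              simp [t, h1, h2, hne, hx0]
            exact ⟨I, hx, by rw [h2]; simp [sp, hi0, hI]⟩
        · have hx : x = σ a := by
            by_contra hne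
            apply hax
            simp [t, h1, h2, hne]
          refine ⟨a, hx, ?_⟩
          have h3 : a.val ≠ 0 := fun h => h1 (Fin.ext h)
          have h4 : a.val ≠ i := fun h => h2 (Fin.ext h)
          simp [sp, hi0, h3, h4]
    have hrow : ∀ a, ∑ x, t a x = sz 5 r p a := by
      intro a
      by_cases h1 : a = 0
      · subst h1
        have : ∀ x, t 0 x = if x = σ I then r else 0 := fun x => by simp [t]
        rw [Finset.sum_congr rfl (fun x _ => this x), Finset.sum_ite_eq',
          if_pos (Finset.mem_univ _)]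
        rfl
      · rw [szne r p a h1]
        by_cases h2 : a = I
        · have : ∀ x, t a x = (if x = 0 then r else 0) + (if x = σ I then p - r else 0) := by
            intro x
            by_cases hx0 : x = 0
            · have : (0 : Fin 6) ≠ σ I := hσI0.symm
              simp [t, h1, h2, hx0, this, hI0]
            · simp [t, h1, h2, hx0, hI0]
          rw [Finset.sum_congr rfl (fun x _ => this x), Finset.sum_add_distrib,
            Finset.sum_ite_eq', Finset.sum_ite_eq', if_pos (Finset.mem_univ _),
            if_pos (Finset.mem_univ _)]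
          omega
        · have : ∀ x, t a x = if x = σ a then p else 0 := fun x => by simp [t, h1, h2]
          rw [Finset.sum_congr rfl (fun x _ => this x), Finset.sum_ite_eq',
            if_pos (Finset.mem_univ _)]
    have hcol : ∀ x, ∑ a, t a x = sz 5 r p x := by
      intro x
      by_cases hx0 : x = 0
      · subst hx0
        have : ∀ a, t a 0 = if a = I then r else 0 := by
          intro a
          by_cases h1 : a = 0
          · simp [t, h1, hσI0.symm, hI0.symm]
          · by_cases h2 : a = I
            · simp [t, h1, h2, hI0]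
            · have h3 : (0 : Fin 6) ≠ σ a := fun h => h1 (σ.injective (h.symm.trans hσ0.symm))
              simp [t, h1, h2, h3]
        rw [Finset.sum_congr rfl (fun a _ => this a), Finset.sum_ite_eq',
          if_pos (Finset.mem_univ _)]
        rfl
      · rw [szne r p x hx0]
        by_cases hx : x = σ I
        · have : ∀ a, t a x = (if a = 0 then r else 0) + (if a = I then p - r else 0) := by
            intro a
            by_cases h1 : a = 0
            · simp [t, h1, hx, hI0.symm]
            · by_cases h2 : a = I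
              · simp [t, h1, h2, hx, hI0, hσI0]
              · have h3 : σ I ≠ σ a := fun h => h2 (σ.injective h).symm
                simp [t, h1, h2, hx, h3]
          rw [Finset.sum_congr rfl (fun a _ => this a), Finset.sum_add_distrib,
            Finset.sum_ite_eq', Finset.sum_ite_eq', if_pos (Finset.mem_univ _),
            if_pos (Finset.mem_univ _)]
          omega
        · have : ∀ a, t a x = if a = σ.symm x then p else 0 := by
            intro a
            by_cases h1 : a = 0
            · have h3 : (0 : Fin 6) ≠ σ.symm x := by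
                intro h
                apply hx0
                rw [← hσ0, h, Equiv.apply_symm_apply]
              simp [t, h1, hx, h3]
            · by_cases h2 : a = I
              · have h3 : I ≠ σ.symm x := by
                  intro h
                  apply hx
                  rw [h, Equiv.apply_symm_apply]
                simp [t, h2, hx, hx0, h3, hI0]
              · by_cases h3 : x = σ a
                · simp [t, h1, h2, h3]
                · have h4 : a ≠ σ.symm x := by
                    intro h
                    apply h3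
                    rw [h, Equiv.apply_symm_apply]
                  simp [t, h1, h2, h3, h4]
          rw [Finset.sum_congr rfl (fun a _ => this a), Finset.sum_ite_eq',
            if_pos (Finset.mem_univ _)]
    refine emb hP (sz 5 r p) (sz 5 r p) (pm g) (pm g') t hrow hcol ?_
    intro a b x y hab hax hby
    obtain ⟨u, rfl, hu⟩ := hsupp a x hax
    obtain ⟨v, rfl, hv⟩ := hsupp b y hby
    left
    refine key a b u v ?_ hu hv
    rcases hab with h4 | h4
    · exact h4
    · rw [pm_symm]; exact h4

/-- the masks `g`, `g'` are the same up to the permutation `π` of the blocks -/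
def okE (π g g' : ℕ) : Bool :=
  okP π && (List.range 6).all (fun a => (List.range 6).all (fun b =>
    pb g a b == pb g' (pv π a) (pv π b)))

theorem per {n q : ℕ} {P : SimpleGraph (Fin n) → Prop} (hP : GP n q P) (r p : ℕ) (π g g' : ℕ)
    (h : okE π g g' = true) : fV P r p g = fV P r p g' := by
  unfold okE at h
  simp only [Bool.and_eq_true, List.all_eq_true, List.mem_range, beq_iff_eq] at h
  obtain ⟨hπ, h3⟩ := h
  obtain ⟨σ, hσ0, hσ⟩ := okP_perm π hπ
  have key : ∀ a b : Fin 6, pm g a b = pm g' (σ a) (σ b) := by
    intro a b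
    unfold pm
    rw [hσ, hσ]
    exact h3 a.val a.isLt b.val b.isLt
  have gen : ∀ (ρ : Equiv.Perm (Fin 6)) (hρ : ρ 0 = 0) (x y : ℕ)
      (hxy : ∀ a b : Fin 6, pm x a b = pm y (ρ a) (ρ b)), fV P r p x ≤ fV P r p y := by
    intro ρ hρ x y hxy
    have hszσ : ∀ a, sz 5 r p (ρ a) = sz 5 r p a := by
      intro a
      by_cases ha : a = 0
      · rw [ha, hρ]
      · rw [szne r p a ha, szne r p (ρ a)]
        intro h1
        exact ha (ρ.injective (h1.trans hρ.symm))
    refine emb hP (sz 5 r p) (sz 5 r p) (pm x) (pm y)
      (fun a x => if x = ρ a then sz 5 r p a else 0) (fun a => ?_) (fun x => ?_) ?_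
    · rw [Finset.sum_ite_eq', if_pos (Finset.mem_univ _)]
    · have h1 : ∀ a, (if x = ρ a then sz 5 r p a else 0) =
          if a = ρ.symm x then sz 5 r p a else 0 := by
        intro a
        by_cases h2 : x = ρ a
        · rw [if_pos h2, if_pos (by rw [h2, Equiv.symm_apply_apply])]
        · rw [if_neg h2, if_neg (fun h3 => h2 (by rw [h3, Equiv.apply_symm_apply]))]
      rw [Finset.sum_congr rfl (fun a _ => h1 a), Finset.sum_ite_eq', if_pos (Finset.mem_univ _),
        ← hszσ, Equiv.apply_symm_apply]
    · intro a b x' y' hab hax hby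
      have h1 : x' = ρ a := by
        by_contra hne
        exact hax (if_neg hne)
      have h2 : y' = ρ b := by
        by_contra hne
        exact hby (if_neg hne)
      subst h1 h2
      rw [← hxy, ← hxy]
      exact hab
  refine le_antisymm (gen σ hσ0 g g' key) (gen σ.symm ?_ g' g ?_)
  · rw [Equiv.symm_apply_eq, hσ0]
  · intro a b
    rw [key, Equiv.apply_symm_apply, Equiv.apply_symm_apply]

/-- part `i` is isolated -/
def okZ (i g : ℕ) : Bool := decide (i < 6) && (List.range 6).all (fun b => !(pb g i b))

/-- part `i` is universal -/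
def okU (i g : ℕ) : Bool := decide (i < 6) && (List.range 6).all (fun b => pb g i b)

theorem szpos (r p : ℕ) (hr : 0 < r) (hp : 0 < p) (i : Fin 6) : sz 5 r p i ≠ 0 := by
  by_cases h : i = 0
  · rw [h, sz0]; omega
  · rw [szne r p i h]; omega

theorem zer {n q : ℕ} {P : SimpleGraph (Fin n) → Prop} (hP : GP n q P) (hS : Star n P) (r p : ℕ)
    (hr : 0 < r) (hp : 0 < p) (i g : ℕ) (h : okZ i g = true) : fV P r p g = 0 := by
  unfold okZ at h
  simp only [Bool.and_eq_true, List.all_eq_true, decide_eq_true_eq, List.mem_range,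
    Bool.not_eq_true'] at h
  obtain ⟨hi, h3⟩ := h
  refine hv_isol hP hS (sz 5 r p) (pm g) ⟨i, hi⟩ (szpos r p hr hp _) ?_
  intro j
  refine ⟨h3 j.val j.isLt, ?_⟩
  rw [pm_symm]
  exact h3 j.val j.isLt

theorem uni {n q : ℕ} {P : SimpleGraph (Fin n) → Prop} (hP : GP n q P) (hS : Star n P) (r p : ℕ)
    (hr : 0 < r) (hp : 0 < p) (hn : r + 5 * p = n) (i g : ℕ) (h : okU i g = true) :
    fV P r p g = 1 := by
  unfold okU at h
  simp only [Bool.and_eq_true, List.all_eq_true, decide_eq_true_eq, List.mem_range] at h
  obtain ⟨hi, h3⟩ := h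
  refine hv_univ hP hS (sz 5 r p) ?_ (pm g) ⟨i, hi⟩ (szpos r p hr hp _) ?_
  · rw [sum_sz5]
    exact hn
  · intro j
    exact Or.inl (h3 j.val j.isLt)

end Pool.Agent.L0h93.Karp.M5
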