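import Mathlib
import Pool.Agent.L0h93.Karp.Fact5

set_option autoImplicit false

/-! MP_257582_lc: the disconnected facts and the hub facts for masks. -/

namespace Pool.Agent.L0h93.Karp.M5

open Finset
open Pool.Agent.H119R2.Kp Pool.Agent.N593.Karp

/-- part `a` belongs to the set of parts with the mask `A` -/
def inA (A a : ℕ) : Bool := A.testBit a

/-- the set of parts of the mask `A` -/
def sA (A : ℕ) : Fin 6 → Bool := fun a => inA A a.val

/-- the sets of parts of size `p` (kind `0`), `p + r` (kind `1`), `2 p` (kind `2`),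
`2 p + r` (kind `3`) -/
def kd : ℕ → List ℕ
  | 0 => [2, 4, 8, 16, 32]
  | 1 => [3, 5, 9, 17, 33]
  | 2 => [6, 10, 12, 18, 20, 24, 34, 36, 40, 48]
  | 3 => [7, 11, 13, 19, 21, 25, 35, 37, 41, 49]
  | _ => []

/-- the sizes -/
def ky (r p : ℕ) : ℕ → ℕ
  | 0 => p
  | 1 => p + r
  | 2 => 2 * p
  | _ => 2 * p + r

theorem szA_kd (r p : ℕ) (c A : ℕ) (h : (kd c).contains A = true) :
    szA (sz 5 r p) (sA A) true = ky r p c := by
  have h1 : ∀ A : ℕ, szA (sz 5 r p) (sA A) true =
      (if inA A 0 then r else 0) + ((if inA A 1 then p else 0) + ((if inA A 2 then p else 0) +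
      ((if inA A 3 then p else 0) + ((if inA A 4 then p else 0) +
        (if inA A 5 then p else 0))))) := by
    intro A
    unfold szA sA
    rw [Fin.sum_univ_succ, Fin.sum_univ_succ, Fin.sum_univ_succ, Fin.sum_univ_succ,
      Fin.sum_univ_succ, Fin.sum_univ_one]
    rfl
  have h2 : A ∈ kd c := by simpa using h
  rw [h1]
  rcases c with _ | _ | _ | _ | c
  all_goals
    simp only [kd, List.mem_cons, List.not_mem_nil, or_false] at h2
  all_goals
    rcases h2 with rfl | rfl | rfl | rfl | rfl | h2
  all_goals first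
    | (simp [inA, ky, Nat.testBit, Nat.shiftRight_eq_div_pow]; try omega)
    | skip
  all_goals
    rcases h2 with rfl | rfl | rfl | rfl | rfl
  all_goals
    (simp [inA, ky, Nat.testBit, Nat.shiftRight_eq_div_pow]; try omega)

/-- no edges between `A` and the rest -/
def okDc (c A g : ℕ) : Bool :=
  (kd c).contains A && (List.range 6).all (fun a => (List.range 6).all (fun b =>
    !(inA A a) || inA A b || !(pb g a b)))

/-- all edges between `A` and the rest -/
def okCd (c A g : ℕ) : Bool :=
  (kd c).contains A && (List.range 6).all (fun a => (List.range 6).all (fun b =>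
    !(inA A a) || inA A b || pb g a b))

/-- `A` is a clique, the part `j` outside of `A` is a clique joined to all parts outside of `A` -/
def okHb (c A j g : ℕ) : Bool :=
  (kd c).contains A && decide (j < 6) && !(inA A j) &&
    (List.range 6).all (fun a => (List.range 6).all (fun b =>
      !(inA A a) || !(inA A b) || pb g a b)) &&
    (List.range 6).all (fun b => inA A b || pb g j b)

/-- `A` is independent, the part `j` outside of `A` is independent and not joined to the parts
outside of `A` -/
def okCh (c A j g : ℕ) : Bool :=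
  (kd c).contains A && decide (j < 6) && !(inA A j) &&
    (List.range 6).all (fun a => (List.range 6).all (fun b =>
      !(inA A a) || !(inA A b) || !(pb g a b))) &&
    (List.range 6).all (fun b => inA A b || !(pb g j b))

/-- the part `R` is joined to no block -/
def okS0 (g : ℕ) : Bool := (List.range 5).all (fun b => !(pb g 0 (b + 1)))

/-- the part `R` is joined to all blocks -/
def okS1 (g : ℕ) : Bool := (List.range 5).all (fun b => pb g 0 (b + 1))

variable {n q : ℕ} {P : SimpleGraph (Fin n) → Prop}

theorem disc (r p c A g : ℕ) (hD : DiscF P r p (ky r p c)) (h : okDc c A g = true) :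
    fV P r p g = 0 := by
  unfold okDc at h
  simp only [Bool.and_eq_true, List.all_eq_true, List.mem_range, Bool.or_eq_true,
    Bool.not_eq_true'] at h
  obtain ⟨h1, h2⟩ := h
  refine hD (sA A) (pm g) (szA_kd r p c A h1) fun a b ha hb => ?_
  rcases h2 a.val a.isLt b.val b.isLt with (h3 | h3) | h3
  · unfold sA at ha
    rw [h3] at ha
    exact absurd ha (by decide)
  · unfold sA at hb
    rw [h3] at hb
    exact absurd hb (by decide)
  · refine ⟨h3, ?_⟩
    rw [pm_symm]
    exact h3

theorem codisc (r p c A g : ℕ) (hD : CodiscF P r p (ky r p c)) (h : okCd c A g = true) :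
    fV P r p g = 1 := by
  unfold okCd at h
  simp only [Bool.and_eq_true, List.all_eq_true, List.mem_range, Bool.or_eq_true,
    Bool.not_eq_true'] at h
  obtain ⟨h1, h2⟩ := h
  refine hD (sA A) (pm g) (szA_kd r p c A h1) fun a b ha hb => ?_
  rcases h2 a.val a.isLt b.val b.isLt with (h3 | h3) | h3
  · unfold sA at ha
    rw [h3] at ha
    exact absurd ha (by decide)
  · unfold sA at hb
    rw [h3] at hb
    exact absurd hb (by decide)
  · exact Or.inl h3

theorem hub (r p c A j g : ℕ) (hD : HubF P r p (ky r p c)) (h : okHb c A j g = true) :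
    fV P r p g = 1 := by
  unfold okHb at h
  simp only [Bool.and_eq_true, List.all_eq_true, List.mem_range, Bool.or_eq_true,
    Bool.not_eq_true', decide_eq_true_eq] at h
  obtain ⟨⟨⟨⟨h1, hj⟩, hjA⟩, h2⟩, h4⟩ := h
  refine hD (sA A) (pm g) ⟨j, hj⟩ (szA_kd r p c A h1) hjA (fun a b ha hb => ?_) fun b hb => ?_
  · rcases h2 a.val a.isLt b.val b.isLt with (h3 | h3) | h3
    · unfold sA at ha
      rw [h3] at ha
      exact absurd ha (by decide)
    · unfold sA at hb
      rw [h3] at hb
      exact absurd hb (by decide)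
    · exact Or.inl h3
  · rcases h4 b.val b.isLt with h3 | h3
    · unfold sA at hb
      rw [h3] at hb
      exact absurd hb (by decide)
    · exact Or.inl h3

theorem cohub (r p c A j g : ℕ) (hD : CohubF P r p (ky r p c)) (h : okCh c A j g = true) :
    fV P r p g = 0 := by
  unfold okCh at h
  simp only [Bool.and_eq_true, List.all_eq_true, List.mem_range, Bool.or_eq_true,
    Bool.not_eq_true', decide_eq_true_eq] at h
  obtain ⟨⟨⟨⟨h1, hj⟩, hjA⟩, h2⟩, h4⟩ := h
  refine hD (sA A) (pm g) ⟨j, hj⟩ (szA_kd r p c A h1) hjA (fun a b ha hb => ?_) fun b hb => ?_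
  · rcases h2 a.val a.isLt b.val b.isLt with (h3 | h3) | h3
    · unfold sA at ha
      rw [h3] at ha
      exact absurd ha (by decide)
    · unfold sA at hb
      rw [h3] at hb
      exact absurd hb (by decide)
    · refine ⟨h3, ?_⟩
      rw [pm_symm]
      exact h3
  · rcases h4 b.val b.isLt with h3 | h3
    · unfold sA at hb
      rw [h3] at hb
      exact absurd hb (by decide)
    · refine ⟨h3, ?_⟩
      rw [pm_symm]
      exact h3

theorem sig0 (hP : GP n q P) (hS : Star n P) {r p : ℕ} (har : Ar n q r p) (g : ℕ)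
    (h : okS0 g = true) : fV P r p g = 0 := by
  unfold okS0 at h
  simp only [List.all_eq_true, List.mem_range, Bool.not_eq_true'] at h
  refine sg_empty hP hS har (pm g) fun i hi => ?_
  obtain ⟨j, rfl⟩ := Fin.exists_succ_eq.2 hi
  have h1 : pm g 0 j.succ = false := h j.val j.isLt
  refine ⟨h1, ?_⟩
  rw [pm_symm]
  exact h1

theorem sig1 (hP : GP n q P) (hS : Star n P) {r p : ℕ} (har : Ar n q r p) (g : ℕ)
    (h : okS1 g = true) : fV P r p g = 1 := by
  unfold okS1 at h
  simp only [List.all_eq_true, List.mem_range] at h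
  refine sg_full hP hS har (pm g) fun i hi => ?_
  obtain ⟨j, rfl⟩ := Fin.exists_succ_eq.2 hi
  exact Or.inl (h j.val j.isLt)

theorem fV01 (r p g : ℕ) : fV P r p g = 0 ∨ fV P r p g = 1 := hv01 P _ _

end Pool.Agent.L0h93.Karp.M5
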