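import Mathlib
import Pool.Agent.L0h93.Karp.Fb5
import Pool.Agent.L0h93.Karp.E.Hubs

set_option autoImplicit false

/-! MP_257582_lc: the hub implications (eleven blocks) for masks. -/

namespace Pool.Agent.L0h93.Karp.M5

open Finset
open Pool.Agent.H119R2.Kp Pool.Agent.N593.Karp

variable {n q : ℕ} {P : SimpleGraph (Fin n) → Prop}

/-- the transport to (or from) the coarse pattern -/
def tc {k m : ℕ} (s : Fin k → ℕ) (π : Fin k → Fin m) (i : Fin k) (a : Fin m) : ℕ :=
  if π i = a then s i else 0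

theorem tc_row {k m : ℕ} (s : Fin k → ℕ) (π : Fin k → Fin m) (i : Fin k) :
    ∑ a, tc s π i a = s i := by
  unfold tc
  rw [Finset.sum_ite_eq, if_pos (mem_univ _)]

theorem tc_ne {k m : ℕ} (s : Fin k → ℕ) (π : Fin k → Fin m) (i : Fin k) (a : Fin m)
    (h : tc s π i a ≠ 0) : π i = a := by
  unfold tc at h
  by_contra h1
  exact h (if_neg h1)

/-- merging parts -/
theorem coarse_le (hP : GP n q P) {k m : ℕ} (s : Fin k → ℕ) (s' : Fin m → ℕ) (π : Fin k → Fin m)
    (hs : ∀ a, ∑ i, tc s π i a = s' a) (Γ : Fin k → Fin k → Bool) (Λ : Fin m → Fin m → Bool)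
    (h : ∀ i j, Γ i j = true → Λ (π i) (π j) = true ∨ Λ (π j) (π i) = true) :
    hv P s Γ ≤ hv P s' Λ := by
  refine emb hP s s' Γ Λ (tc s π) (tc_row s π) hs fun i j a b hij ha hb => ?_
  rw [← tc_ne s π i a ha, ← tc_ne s π j b hb]
  rcases hij with h1 | h1
  · exact h i j h1
  · exact (h j i h1).symm

/-- splitting parts -/
theorem fine_le (hP : GP n q P) {k m : ℕ} (s : Fin k → ℕ) (s' : Fin m → ℕ) (π : Fin k → Fin m)
    (hs : ∀ a, ∑ i, tc s π i a = s' a) (Γ : Fin k → Fin k → Bool) (Λ : Fin m → Fin m → Bool)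
    (h : ∀ i j, Λ (π i) (π j) = true → Γ i j = true ∨ Γ j i = true) :
    hv P s' Λ ≤ hv P s Γ := by
  refine emb hP s' s Λ Γ (fun a i => tc s π i a) hs (tc_row s π) fun a b i j hab ha hb => ?_
  have h1 := tc_ne s π i a ha
  have h2 := tc_ne s π j b hb
  subst h1
  subst h2
  rcases hab with h3 | h3
  · exact h i j h3
  · exact (h j i h3).symm

/-- the transport with a hub: the parts `0`, `1` of the coarse pattern, a piece of size `r'` of the
part `j`, and the rest -/
def tu {k : ℕ} (s : Fin k → ℕ) (π : Fin k → Fin 3) (j : Fin k) (r' : ℕ) (a : Fin 4) (i : Fin k) :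
    ℕ :=
  (![if π i = 0 then s i else 0, if π i = 1 then s i else 0, if i = j then r' else 0,
    if π i = 2 then (if i = j then s i - r' else s i) else 0] : Fin 4 → ℕ) a

theorem tu_col {k : ℕ} (s : Fin k → ℕ) (π : Fin k → Fin 3) (j : Fin k) (r' : ℕ) (hj : π j = 2)
    (hr : r' ≤ s j) (i : Fin k) : ∑ a, tu s π j r' a i = s i := by
  rw [Fin.sum_univ_four]
  unfold tu
  by_cases hij : i = j
  · subst hij
    simp [hj, hr]
  · have h3 : ∀ x : Fin 3, x = 0 ∨ x = 1 ∨ x = 2 := by decide
    rcases h3 (π i) with h | h | h <;> simp [h, hij]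

theorem tu_row {k : ℕ} (s : Fin k → ℕ) (π : Fin k → Fin 3) (j : Fin k) (r' y0 y1 m : ℕ)
    (hj : π j = 2) (hr : r' ≤ s j) (h0 : ∑ i, tc s π i 0 = y0) (h1 : ∑ i, tc s π i 1 = y1)
    (h2 : ∑ i, tc s π i 2 = r' + m) (a : Fin 4) :
    ∑ i, tu s π j r' a i = (![y0, y1, r', m] : Fin 4 → ℕ) a := by
  have h3 : ∑ i, (if i = j then r' else 0) = r' := by
    rw [Finset.sum_ite_eq' univ, if_pos (mem_univ _)]
  fin_cases a
  · exact h0
  · exact h1
  · exact h3
  · have h4 : ∑ i, tu s π j r' 3 i + ∑ i, (if i = j then r' else 0) = ∑ i, tc s π i 2 := by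
      rw [← Finset.sum_add_distrib]
      refine Finset.sum_congr rfl fun i _ => ?_
      change (if π i = 2 then (if i = j then s i - r' else s i) else 0) +
        (if i = j then r' else 0) = if π i = 2 then s i else 0
      by_cases hij : i = j
      · subst hij
        simp [hj, hr]
      · simp [hij]
    rw [h3, h2] at h4
    change ∑ i, tu s π j r' 3 i = m
    omega

theorem tu_ne {k : ℕ} (s : Fin k → ℕ) (π : Fin k → Fin 3) (j : Fin k) (r' : ℕ) (a : Fin 4)
    (i : Fin k) (h : tu s π j r' a i ≠ 0) :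
    (a = 0 ∧ π i = 0) ∨ (a = 1 ∧ π i = 1) ∨ (a = 2 ∧ i = j) ∨ (a = 3 ∧ π i = 2) := by
  unfold tu at h
  fin_cases a
  · left
    refine ⟨rfl, ?_⟩
    by_contra h1
    exact h (if_neg h1)
  · right; left
    refine ⟨rfl, ?_⟩
    by_contra h1
    exact h (if_neg h1)
  · right; right; left
    refine ⟨rfl, ?_⟩
    by_contra h1
    exact h (if_neg h1)
  · right; right; right
    refine ⟨rfl, ?_⟩
    by_contra h1
    exact h (if_neg h1)

/-- the classes: `0` for `i1`, `1` for `i2`, `2` for the rest -/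
def c2 (i1 i2 a : ℕ) : ℕ := if a = i1 then 0 else if a = i2 then 1 else 2

/-- the blocks `i1`, `i2` are different and `j` is another part -/
def okI (i1 i2 j : ℕ) : Bool :=
  decide (0 < i1) && decide (i1 < 6) && decide (0 < i2) && decide (i2 < 6) && (i1 != i2) &&
    decide (j < 6) && (j != i1) && (j != i2)

/-- `g1` has no edges between the blocks `i1`, `i2` and the rest (`B`: and no loops there;
otherwise: and `i1`, `i2` are not joined); `g2` contains `K_{p,p}` (`B`) or `2 K_p` (otherwise)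
on `i1`, `i2` and the part `j` is a clique joined to all other parts -/
def okH (B : Bool) (i1 i2 j g1 g2 : ℕ) : Bool :=
  okI i1 i2 j &&
    (List.range 6).all (fun a => (List.range 6).all (fun b => !(pb g1 a b) ||
      (if B then (c2 i1 i2 a + c2 i1 i2 b == 1 || (c2 i1 i2 a == 2 && c2 i1 i2 b == 2))
        else c2 i1 i2 a == c2 i1 i2 b))) &&
    (if B then pb g2 i1 i2 else pb g2 i1 i1 && pb g2 i2 i2) &&
    (List.range 6).all (fun b => b == i1 || b == i2 || pb g2 j b)

/-- the class map -/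
def pi2 (i1 i2 : ℕ) (a : Fin 6) : Fin 3 :=
  ⟨c2 i1 i2 a.val, by
    unfold c2
    split_ifs <;> omega⟩

theorem okI_spec {i1 i2 j : ℕ} (h : okI i1 i2 j = true) : (0 < i1 ∧ i1 < 6) ∧ (0 < i2 ∧ i2 < 6) ∧
    i1 ≠ i2 ∧ j < 6 ∧ j ≠ i1 ∧ j ≠ i2 := by
  unfold okI at h
  simp only [Bool.and_eq_true, decide_eq_true_eq, bne_iff_ne, ne_eq] at h
  tauto

theorem pi2_sizes (r p i1 i2 j : ℕ) (h : okI i1 i2 j = true) (r' m : ℕ)
    (hn : 2 * p + r' + m = r + 5 * p) :
    ∑ i, tc (sz 5 r p) (pi2 i1 i2) i 0 = p ∧ ∑ i, tc (sz 5 r p) (pi2 i1 i2) i 1 = p ∧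
      ∑ i, tc (sz 5 r p) (pi2 i1 i2) i 2 = r' + m := by
  obtain ⟨⟨h1, h1'⟩, ⟨h2, h2'⟩, h3, -⟩ := okI_spec h
  have e0 : ∑ i, tc (sz 5 r p) (pi2 i1 i2) i 0 = p := by
    rw [Finset.sum_eq_single ⟨i1, h1'⟩]
    · unfold tc
      rw [if_pos]
      · rw [szne]
        intro hc
        have := congrArg Fin.val hc
        simp at this
        omega
      · ext
        simp [pi2, c2]
    · intro b _ hb
      unfold tc
      rw [if_neg]
      intro hc
      have h4 := congrArg Fin.val hc
      simp only [pi2, c2, Fin.val_zero] at h4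
      split_ifs at h4 with h5
      exact hb (Fin.ext h5)
    · intro hc
      exact absurd (mem_univ _) hc
  have e1 : ∑ i, tc (sz 5 r p) (pi2 i1 i2) i 1 = p := by
    rw [Finset.sum_eq_single ⟨i2, h2'⟩]
    · unfold tc
      rw [if_pos]
      · rw [szne]
        intro hc
        have := congrArg Fin.val hc
        simp at this
        omega
      · ext
        simp [pi2, c2, h3.symm]
    · intro b _ hb
      unfold tc
      rw [if_neg]
      intro hc
      have h4 := congrArg Fin.val hc
      simp only [pi2, c2, Fin.val_one] at h4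
      split_ifs at h4 with h5 h6
      · exact hb (Fin.ext h6)
      · omega
    · intro hc
      exact absurd (mem_univ _) hc
  refine ⟨e0, e1, ?_⟩
  have h4 : ∑ a, ∑ i, tc (sz 5 r p) (pi2 i1 i2) i a = r + 5 * p := by
    rw [Finset.sum_comm]
    simp only [tc_row]
    exact sum_sz5 r p
  rw [Fin.sum_univ_three, e0, e1] at h4
  omega

theorem c2_val (i1 i2 : ℕ) (a : Fin 6) : (pi2 i1 i2 a).val = c2 i1 i2 a.val := rfl

theorem sizes3 (r p i1 i2 j : ℕ) (h : okI i1 i2 j = true) (r' m : ℕ)
    (hn : 2 * p + r' + m = r + 5 * p) (a : Fin 3) :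
    ∑ i, tc (sz 5 r p) (pi2 i1 i2) i a = (![p, p, r' + m] : Fin 3 → ℕ) a := by
  obtain ⟨h0, h1, h2⟩ := pi2_sizes r p i1 i2 j h r' m hn
  fin_cases a
  · exact h0
  · exact h1
  · exact h2

theorem pi2_j {i1 i2 j : ℕ} (h : okI i1 i2 j = true) (hj : j < 6) : pi2 i1 i2 ⟨j, hj⟩ = 2 := by
  obtain ⟨_, _, _, _, h5, h6⟩ := okI_spec h
  ext
  simp [pi2, c2, h5, h6]

/-- **the hub implication for two blocks** -/
theorem hubM (hP : GP n q P) (hS : Star n P) {r p : ℕ} (har : Ar n q r p) (B : Bool)
    (i1 i2 j g1 g2 : ℕ) (h : okH B i1 i2 j g1 g2 = true) (h1 : fV P r p g1 = 1) :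
    fV P r p g2 = 1 := by
  obtain ⟨p', r', hp', hp20, hn, hr, hq⟩ := har.a11 (2 * p) (Or.inr (Or.inr (Or.inl rfl)))
  have : Fact p'.Prime := ⟨hp'⟩
  have hp0 := har.hp.pos
  unfold okH at h
  simp only [Bool.and_eq_true, List.all_eq_true, List.mem_range] at h
  obtain ⟨⟨⟨hI, hg1⟩, hg2⟩, hhub⟩ := h
  obtain ⟨⟨a1, a1'⟩, ⟨a2, a2'⟩, a3, a4, a5, a6⟩ := okI_spec hI
  have hsz := sizes3 r p i1 i2 j hI r' (11 * p') (by have := har.hn; omega)
  have hsum := pi2_sizes r p i1 i2 j hI r' (11 * p') (by have := har.hn; omega)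
  have hj := pi2_j hI a4
  have hrj := le_sz5 hr har.hrp ⟨j, a4⟩
  have hub : ∀ b : Fin 6, pi2 i1 i2 b = 2 → pm g2 ⟨j, a4⟩ b = true := by
    intro b hb
    have h5 := hhub b.val b.isLt
    have h6 := congrArg Fin.val hb
    rw [c2_val] at h6
    unfold c2 at h6
    split_ifs at h6 with h7 h8
    · exact absurd h6 (by decide)
    · exact absurd h6 (by decide)
    · simp only [Bool.or_eq_true, beq_iff_eq] at h5
      rcases h5 with (h5 | h5) | h5
      · exact absurd h5 h7
      · exact absurd h5 h8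
      · exact h5
  have eqi1 : ∀ i : Fin 6, pi2 i1 i2 i = 0 → i.val = i1 := by
    intro i hi
    have h6 := congrArg Fin.val hi
    rw [c2_val] at h6
    unfold c2 at h6
    split_ifs at h6 with h7 <;> first | exact h7 | exact absurd h6 (by decide)
  have eqi2 : ∀ i : Fin 6, pi2 i1 i2 i = 1 → i.val = i2 := by
    intro i hi
    have h6 := congrArg Fin.val hi
    rw [c2_val] at h6
    unfold c2 at h6
    split_ifs at h6 with h7 h8 <;> first | exact h8 | exact absurd h6 (by decide)
  cases B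
  · -- two cliques
    have h2 : hv P (sz 5 r p) (pm g1) ≤ hv P ![p, p, r' + 11 * p'] (pat [(0, 0), (1, 1), (2, 2)]) := by
      refine coarse_le hP _ _ (pi2 i1 i2) hsz _ _ fun a b hab => ?_
      left
      have h3 := hg1 a.val a.isLt b.val b.isLt
      have h4 : pb g1 a.val b.val = true := hab
      rw [h4] at h3
      simp only [Bool.not_true, Bool.false_or, Bool.false_eq_true, if_false, beq_iff_eq] at h3
      have h5 : pi2 i1 i2 a = pi2 i1 i2 b := Fin.ext h3
      rw [h5]
      generalize pi2 i1 i2 b = x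
      fin_cases x <;> decide
    have h3 : hv P ![p, p, r' + 11 * p'] (pat [(0, 0), (1, 1), (2, 2)]) = 1 := by
      rcases hv01 P ![p, p, r' + 11 * p'] (pat [(0, 0), (1, 1), (2, 2)]) with h4 | h4
      · rw [h4] at h2
        have h5 : hv P (sz 5 r p) (pm g1) = 1 := h1
        rw [h5] at h2
        norm_num at h2
      · exact h4
    have h4 := E.hub2 hP hS p' p r' (by omega) hp0 hn hq h3
    have h5 : hv P ![p, p, r', 11 * p'] (pat [(0, 0), (1, 1), (2, 2), (2, 3)]) ≤
        hv P (sz 5 r p) (pm g2) := by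
      refine emb hP _ _ _ _ (tu (sz 5 r p) (pi2 i1 i2) ⟨j, a4⟩ r')
        (tu_row _ _ _ r' p p (11 * p') hj hrj hsum.1 hsum.2.1 hsum.2.2)
        (tu_col _ _ _ r' hj hrj) fun a b i i' hab ha hb => ?_
      have hp0 : ∀ a b : Fin 4, (pat [(0, 0), (1, 1), (2, 2), (2, 3)] a b = true ∨
          pat [(0, 0), (1, 1), (2, 2), (2, 3)] b a = true) →
          (a = 0 ∧ b = 0) ∨ (a = 1 ∧ b = 1) ∨ (a = 2 ∧ (b = 2 ∨ b = 3)) ∨ (a = 3 ∧ b = 2) := by
        decide
      have hu := tu_ne _ _ _ r' a i ha
      have hv' := tu_ne _ _ _ r' b i' hb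
      simp only [Bool.false_eq_true, if_false, Bool.and_eq_true] at hg2
      rcases hp0 a b hab with ⟨rfl, rfl⟩ | ⟨rfl, rfl⟩ | ⟨rfl, rfl | rfl⟩ | ⟨rfl, rfl⟩
      · simp only [Fin.isValue, true_and, Fin.reduceEq, false_and, or_false] at hu hv'
        left
        unfold pm
        rw [eqi1 _ hu, eqi1 _ hv']
        exact hg2.1
      · simp only [Fin.isValue, true_and, Fin.reduceEq, false_and, or_false, false_or] at hu hv'
        left
        unfold pm
        rw [eqi2 _ hu, eqi2 _ hv']
        exact hg2.2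
      · simp only [Fin.isValue, true_and, Fin.reduceEq, false_and, or_false, false_or] at hu hv'
        subst hu
        subst hv'
        exact Or.inl (hub _ hj)
      · simp only [Fin.isValue, true_and, Fin.reduceEq, false_and, or_false, false_or] at hu hv'
        subst hu
        exact Or.inl (hub _ hv')
      · simp only [Fin.isValue, true_and, Fin.reduceEq, false_and, or_false, false_or] at hu hv'
        subst hv'
        exact Or.inr (hub _ hu)
    rw [h4] at h5
    rcases fV01 (P := P) r p g2 with h6 | h6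
    · have h7 : hv P (sz 5 r p) (pm g2) = 0 := h6
      rw [h7] at h5
      norm_num at h5
    · exact h6
  · -- a complete bipartite graph
    have h2 : hv P (sz 5 r p) (pm g1) ≤ hv P ![p, p, r' + 11 * p'] (pat [(0, 1), (2, 2)]) := by
      refine coarse_le hP _ _ (pi2 i1 i2) hsz _ _ fun a b hab => ?_
      have h3 := hg1 a.val a.isLt b.val b.isLt
      have h4 : pb g1 a.val b.val = true := hab
      rw [h4] at h3
      simp only [Bool.not_true, Bool.false_or, if_true, Bool.or_eq_true, Bool.and_eq_true,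
        beq_iff_eq] at h3
      rw [← c2_val i1 i2 a, ← c2_val i1 i2 b] at h3
      revert h3
      generalize pi2 i1 i2 a = x
      generalize pi2 i1 i2 b = y
      revert x y
      decide
    have h3 : hv P ![p, p, r' + 11 * p'] (pat [(0, 1), (2, 2)]) = 1 := by
      rcases hv01 P ![p, p, r' + 11 * p'] (pat [(0, 1), (2, 2)]) with h4 | h4
      · rw [h4] at h2
        have h5 : hv P (sz 5 r p) (pm g1) = 1 := h1
        rw [h5] at h2
        norm_num at h2
      · exact h4
    have h4 := E.hubB hP hS p' p r' (by omega) hp0 hn hq h3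
    have h5 : hv P ![p, p, r', 11 * p'] (pat [(0, 1), (2, 2), (2, 3)]) ≤
        hv P (sz 5 r p) (pm g2) := by
      refine emb hP _ _ _ _ (tu (sz 5 r p) (pi2 i1 i2) ⟨j, a4⟩ r')
        (tu_row _ _ _ r' p p (11 * p') hj hrj hsum.1 hsum.2.1 hsum.2.2)
        (tu_col _ _ _ r' hj hrj) fun a b i i' hab ha hb => ?_
      have hp0 : ∀ a b : Fin 4, (pat [(0, 1), (2, 2), (2, 3)] a b = true ∨
          pat [(0, 1), (2, 2), (2, 3)] b a = true) →
          (a = 0 ∧ b = 1) ∨ (a = 1 ∧ b = 0) ∨ (a = 2 ∧ (b = 2 ∨ b = 3)) ∨ (a = 3 ∧ b = 2) := by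
        decide
      have hu := tu_ne _ _ _ r' a i ha
      have hv' := tu_ne _ _ _ r' b i' hb
      simp only [if_true] at hg2
      rcases hp0 a b hab with ⟨rfl, rfl⟩ | ⟨rfl, rfl⟩ | ⟨rfl, rfl | rfl⟩ | ⟨rfl, rfl⟩
      · simp only [Fin.isValue, true_and, Fin.reduceEq, false_and, or_false, false_or] at hu hv'
        left
        unfold pm
        rw [eqi1 _ hu, eqi2 _ hv']
        exact hg2
      · simp only [Fin.isValue, true_and, Fin.reduceEq, false_and, or_false, false_or] at hu hv'
        right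
        unfold pm
        rw [eqi2 _ hu, eqi1 _ hv']
        exact hg2
      · simp only [Fin.isValue, true_and, Fin.reduceEq, false_and, or_false, false_or] at hu hv'
        subst hu
        subst hv'
        exact Or.inl (hub _ hj)
      · simp only [Fin.isValue, true_and, Fin.reduceEq, false_and, or_false, false_or] at hu hv'
        subst hu
        exact Or.inl (hub _ hv')
      · simp only [Fin.isValue, true_and, Fin.reduceEq, false_and, or_false, false_or] at hu hv'
        subst hv'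
        exact Or.inr (hub _ hu)
    rw [h4] at h5
    rcases fV01 (P := P) r p g2 with h6 | h6
    · have h7 : hv P (sz 5 r p) (pm g2) = 0 := h6
      rw [h7] at h5
      norm_num at h5
    · exact h6

/-- the complement of a mask -/
def cpl (g : ℕ) : ℕ := g ^^^ 2097151

theorem bx_lt : ∀ a b : Fin 6, bx a.val b.val < 21 := by decide

theorem full_bit : ∀ i : Fin 21, (2097151).testBit i.val = true := by decide

theorem pm_cpl (g : ℕ) (a b : Fin 6) : pm (cpl g) a b = !(pm g a b) := by
  unfold pm pb cpl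
  rw [Nat.testBit_xor, full_bit ⟨bx a.val b.val, bx_lt a b⟩, Bool.xor_true]

/-- duality for masks -/
theorem fV_dual (hP : GP n q P) {r p : ℕ} (hn : r + 5 * p = n) (g : ℕ) :
    fV (dual P) r p (cpl g) = 1 - fV P r p g := by
  refine hv_dual hP (sz 5 r p) (by rw [sum_sz5]; exact hn) _ _ fun a b => ?_
  rw [pm_cpl, pm_cpl, pm_symm g b a]
  cases pm g a b <;> rfl

/-- **the dual hub implication for two blocks** -/
theorem cohubM (hP : GP n q P) (hS : Star n P) {r p : ℕ} (har : Ar n q r p) (B : Bool)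
    (i1 i2 j g1 g2 : ℕ) (h : okH B i1 i2 j (cpl g1) (cpl g2) = true) (h1 : fV P r p g1 = 0) :
    fV P r p g2 = 0 := by
  have h2 := hubM hP.dual' hS.dual' har B i1 i2 j (cpl g1) (cpl g2) h (by
    rw [fV_dual hP har.hn, h1, sub_zero])
  rw [fV_dual hP har.hn] at h2
  linarith

/-- `g1` has no edges between `A` and the rest, `g2` contains the clique on `A` and the part `j`
outside of `A` is a clique joined to all parts outside of `A` -/
def okC (c A j g1 g2 : ℕ) : Bool :=
  decide (c < 4) && (kd c).contains A && decide (j < 6) && !(inA A j) &&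
    (List.range 6).all (fun a => (List.range 6).all (fun b =>
      !(inA A a) || inA A b || !(pb g1 a b))) &&
    (List.range 6).all (fun a => (List.range 6).all (fun b =>
      !(inA A a) || !(inA A b) || pb g2 a b)) &&
    (List.range 6).all (fun b => inA A b || pb g2 j b)

/-- **the hub implication for cliques** (kinds `0, …, 3`) -/
theorem hubC (hP : GP n q P) (hS : Star n P) {r p : ℕ} (har : Ar n q r p)
    (c A j g1 g2 : ℕ) (h : okC c A j g1 g2 = true) (h1 : fV P r p g1 = 1) :
    fV P r p g2 = 1 := by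
  unfold okC at h
  simp only [Bool.and_eq_true, List.all_eq_true, List.mem_range, Bool.or_eq_true,
    Bool.not_eq_true', decide_eq_true_eq] at h
  obtain ⟨⟨⟨⟨⟨⟨hc, hA⟩, hj⟩, hjA⟩, hg1⟩, hg2⟩, hhub⟩ := h
  have hky : ky r p c = p ∨ ky r p c = p + r ∨ ky r p c = 2 * p ∨ ky r p c = 2 * p + r := by
    rcases c with _ | _ | _ | _ | c
    · exact Or.inl rfl
    · exact Or.inr (Or.inl rfl)
    · exact Or.inr (Or.inr (Or.inl rfl))
    · exact Or.inr (Or.inr (Or.inr rfl))
    · omega
  obtain ⟨p', r', hp', hp20, hn, hr, hq⟩ := har.a11 (ky r p c) hky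
  have : Fact p'.Prime := ⟨hp'⟩
  have hp0 := har.hp.pos
  have hszA := szA_kd r p c A hA
  have hrest : szA (sz 5 r p) (sA A) false = r' + 11 * p' := by
    have h2 := szA_add (sz 5 r p) (sA A)
    rw [sum_sz5, hszA] at h2
    have := har.hn
    omega
  have h2 := disc_le hP (sz 5 r p) (sA A) (pm g1) (by
    intro a b ha hb
    rcases hg1 a.val a.isLt b.val b.isLt with (h3 | h3) | h3
    · unfold sA at ha
      rw [h3] at ha
      exact absurd ha (by decide)
    · unfold sA at hb
      rw [h3] at hb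
      exact absurd hb (by decide)
    · refine ⟨h3, ?_⟩
      rw [pm_symm]
      exact h3)
  rw [hszA, hrest] at h2
  have h3 : hv P ![ky r p c, r' + 11 * p'] (pat [(0, 0), (1, 1)]) = 1 := by
    rcases hv01 P ![ky r p c, r' + 11 * p'] (pat [(0, 0), (1, 1)]) with h4 | h4
    · rw [h4] at h2
      have h5 : hv P (sz 5 r p) (pm g1) = 1 := h1
      rw [h5] at h2
      norm_num at h2
    · exact h4
  have hy0 : 0 < ky r p c := by omega
  have h4 := E.hub11 hP hS p' (ky r p c) r' (by omega) hy0 hn hq h3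
  have h5 := hub_le hP (sz 5 r p) (sA A) (pm g2) ⟨j, hj⟩ r' (ky r p c) (11 * p') hjA
    (le_sz5 hr har.hrp _) hszA hrest
    (by
      intro a b ha hb
      rcases hg2 a.val a.isLt b.val b.isLt with (h3 | h3) | h3
      · unfold sA at ha
        rw [h3] at ha
        exact absurd ha (by decide)
      · unfold sA at hb
        rw [h3] at hb
        exact absurd hb (by decide)
      · exact Or.inl h3)
    (by
      intro b hb
      rcases hhub b.val b.isLt with h3 | h3
      · unfold sA at hb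
        rw [h3] at hb
        exact absurd hb (by decide)
      · exact Or.inl h3)
  rw [h4] at h5
  rcases fV01 (P := P) r p g2 with h6 | h6
  · have h7 : hv P (sz 5 r p) (pm g2) = 0 := h6
    rw [h7] at h5
    norm_num at h5
  · exact h6

/-- **the dual hub implication for cliques** -/
theorem cohubC (hP : GP n q P) (hS : Star n P) {r p : ℕ} (har : Ar n q r p)
    (c A j g1 g2 : ℕ) (h : okC c A j (cpl g1) (cpl g2) = true) (h1 : fV P r p g1 = 0) :
    fV P r p g2 = 0 := by
  have h2 := hubC hP.dual' hS.dual' har c A j (cpl g1) (cpl g2) h (by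
    rw [fV_dual hP har.hn, h1, sub_zero])
  rw [fV_dual hP har.hn] at h2
  linarith

end Pool.Agent.L0h93.Karp.M5
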