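import Mathlib
import Pool.Agent.L0h93.Karp.ActT
import Pool.Agent.L0h93.Karp.Hm

set_option autoImplicit false

/-! MP_257582_lc: kernel-fast checks of permutations and exchanges of the parts. -/

namespace Pool.Agent.L0h93.Karp.M5

open Finset
open Pool.Agent.H70.KP (Tr)

/-- call by value for the kernel -/
@[reducible] def force {α : Type} (n : ℕ) (k : ℕ → α) : α :=
  Nat.rec (motive := fun _ => α) (k 0) (fun m _ => k (Nat.succ m)) n

theorem force_eq {α : Type} (n : ℕ) (k : ℕ → α) : force n k = k n := by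
  cases n <;> rfl

/-- look up by the recursor (fast in the kernel) -/
noncomputable def gr {α : Type} : Tr α → ℕ → α := fun t => Tr.rec (motive := fun _ => ℕ → α)
  (fun a _ => a) (fun _ _ ihs iht i => Bool.rec (motive := fun _ => α) (iht (Nat.shiftRight i 1))
    (ihs (Nat.shiftRight i 1)) (Nat.beq (Nat.land i 1) 0)) t

theorem gr_eq {α : Type} (t : Tr α) : ∀ i : ℕ, gr t i = t.get i := by
  induction t with
  | l a => intro i; rfl
  | b s t ihs iht =>
    intro i
    have e1 : gr (.b s t) i = Bool.rec (motive := fun _ => α) (gr t (Nat.shiftRight i 1))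
      (gr s (Nat.shiftRight i 1)) (Nat.beq (Nat.land i 1) 0) := rfl
    have e2 : Tr.get (.b s t) i = Bool.rec (motive := fun _ => α) (Tr.get t (Nat.shiftRight i 1))
      (Tr.get s (Nat.shiftRight i 1)) (Nat.beq (Nat.land i 1) 0) := rfl
    rw [e1, e2, ihs, iht]

/-- conjunction -/
@[reducible] def an (b c : Bool) : Bool := Bool.rec (motive := fun _ => Bool) false c b

theorem an_t {b c : Bool} (h : an b c = true) : b = true ∧ c = true := by
  cases b with
  | true => exact ⟨rfl, h⟩
  | false => exact Bool.noConfusion h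

/-- union of the images of the bits -/
def orb : List ℕ → ℕ → ℕ := fun G => List.rec (motive := fun _ => ℕ → ℕ) (fun _ => 0)
  (fun x _ ih g => Bool.rec (motive := fun _ => ℕ) (ih (Nat.shiftRight g 1))
    (Nat.lor x (ih (Nat.shiftRight g 1))) (Nat.beq (Nat.land g 1) 1)) G

theorem orb_testBit (G : List ℕ) (g j : ℕ) : (orb G g).testBit j = true ↔
    ∃ i, ∃ hi : i < G.length, g.testBit i = true ∧ (G[i]).testBit j = true := by
  induction G generalizing g with
  | nil => simp [orb]
  | cons x G ih =>
    have hs : ∀ i, (Nat.shiftRight g 1).testBit i = g.testBit (i + 1) := by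
      intro i
      have : Nat.shiftRight g 1 = g >>> 1 := rfl
      rw [this, Nat.testBit_shiftRight, add_comm]
    have e : orb (x :: G) g = Bool.rec (motive := fun _ => ℕ) (orb G (Nat.shiftRight g 1))
      (Nat.lor x (orb G (Nat.shiftRight g 1))) (Nat.beq (Nat.land g 1) 1) := rfl
    have h0 : Nat.beq (Nat.land g 1) 1 = g.testBit 0 := by
      have h1 : Nat.land g 1 = g % 2 := Nat.and_one_is_mod _
      rw [h1, Bool.eq_iff_iff, Nat.beq_eq, Nat.testBit_zero, decide_eq_true_eq]
    rw [e, h0]
    cases hg : g.testBit 0 with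
    | false =>
      show (orb G (Nat.shiftRight g 1)).testBit j = true ↔ _
      rw [ih]
      constructor
      · rintro ⟨i, hi, h1, h2⟩
        rw [hs] at h1
        exact ⟨i + 1, by simp; omega, h1, by simpa using h2⟩
      · rintro ⟨i, hi, h1, h2⟩
        cases i with
        | zero => rw [hg] at h1; exact Bool.noConfusion h1
        | succ i => exact ⟨i, by simpa using hi, by rw [hs]; exact h1, by simpa using h2⟩
    | true =>
      show (x ||| orb G (Nat.shiftRight g 1)).testBit j = true ↔ _
      rw [Nat.testBit_or, Bool.or_eq_true, ih]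
      constructor
      · rintro (h | ⟨i, hi, h1, h2⟩)
        · exact ⟨0, by simp, hg, by simpa using h⟩
        · rw [hs] at h1
          exact ⟨i + 1, by simp; omega, h1, by simpa using h2⟩
      · rintro ⟨i, hi, h1, h2⟩
        cases i with
        | zero => left; simpa using h2
        | succ i => right; exact ⟨i, by simpa using hi, by rw [hs]; exact h1, by simpa using h2⟩

/-- entry of a table -/
@[reducible] def en24 (L i : ℕ) : ℕ := Nat.land (Nat.shiftRight L (Nat.mul 24 i)) 16777215

/-- action by a table -/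
def act (L g : ℕ) : ℕ := force g fun g =>
  Nat.lor (en24 L (Nat.land g 127))
    (Nat.lor (en24 L (Nat.add 128 (Nat.land (Nat.shiftRight g 7) 127)))
      (en24 L (Nat.add 256 (Nat.land (Nat.shiftRight g 14) 127))))

/-- the table is right for `x < n` -/
def okTN (A B C : List ℕ) (L : ℕ) : ℕ → Bool := fun n =>
  Nat.rec (motive := fun _ => Bool) true
    (fun x ih => an (Nat.beq (en24 L x) (orb A x)) (an (Nat.beq (en24 L (Nat.add 128 x)) (orb B x))
      (an (Nat.beq (en24 L (Nat.add 256 x)) (orb C x)) ih))) n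

theorem okTN_ok (A B C : List ℕ) (L n : ℕ) (h : okTN A B C L n = true) : ∀ x < n,
    en24 L x = orb A x ∧ en24 L (128 + x) = orb B x ∧ en24 L (256 + x) = orb C x := by
  induction n with
  | zero => intro x hx; omega
  | succ n ih =>
    have e : okTN A B C L (n + 1) = an (Nat.beq (en24 L n) (orb A n))
      (an (Nat.beq (en24 L (Nat.add 128 n)) (orb B n))
      (an (Nat.beq (en24 L (Nat.add 256 n)) (orb C n)) (okTN A B C L n))) := rfl
    rw [e] at h
    obtain ⟨h1, h⟩ := an_t h
    obtain ⟨h2, h⟩ := an_t h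
    obtain ⟨h3, h⟩ := an_t h
    intro x hx
    by_cases hxn : x < n
    · exact ih h x hxn
    · have hxn' : x = n := by omega
      subst hxn'
      exact ⟨Nat.eq_of_beq_eq_true h1, Nat.eq_of_beq_eq_true h2, Nat.eq_of_beq_eq_true h3⟩

theorem land127 (g : ℕ) : Nat.land g 127 = g % 128 := by
  have := Nat.and_two_pow_sub_one_eq_mod g 7
  simpa using this

theorem act_testBit (A B C : List ℕ) (L : ℕ) (hA : A.length = 7) (hB : B.length = 7)
    (hC : C.length = 7) (h : okTN A B C L 128 = true) (g j : ℕ) :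
    (act L g).testBit j = true ↔ ∃ i < 21, g.testBit i = true ∧
      ((A ++ B ++ C).getD i 0).testBit j = true := by
  have h0 := okTN_ok A B C L 128 h
  unfold act
  rw [force_eq]
  have e1 := (h0 (Nat.land g 127) (by rw [land127]; omega)).1
  have e2 := (h0 (Nat.land (Nat.shiftRight g 7) 127) (by rw [land127]; omega)).2.1
  have e3 := (h0 (Nat.land (Nat.shiftRight g 14) 127) (by rw [land127]; omega)).2.2
  have e2' : en24 L (Nat.add 128 (Nat.land (Nat.shiftRight g 7) 127)) =
    orb B (Nat.land (Nat.shiftRight g 7) 127) := e2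
  have e3' : en24 L (Nat.add 256 (Nat.land (Nat.shiftRight g 14) 127)) =
    orb C (Nat.land (Nat.shiftRight g 14) 127) := e3
  rw [e1, e2', e3']
  have hb : ∀ (x : ℕ) (i : ℕ), i < 7 → (Nat.land x 127).testBit i = x.testBit i := by
    intro x i hi
    have : Nat.land x 127 = x &&& 127 := rfl
    rw [this, Nat.testBit_and]
    have h1 : (127 : ℕ).testBit i = true := by
      have : ∀ i : Fin 7, (127 : ℕ).testBit i.val = true := by decide
      exact this ⟨i, hi⟩
    rw [h1, Bool.and_true]
  have hs : ∀ (s i : ℕ), (Nat.shiftRight g s).testBit i = g.testBit (s + i) := by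
    intro s i
    have : Nat.shiftRight g s = g >>> s := rfl
    rw [this, Nat.testBit_shiftRight]
  show (orb A _ ||| (orb B _ ||| orb C _)).testBit j = true ↔ _
  rw [Nat.testBit_or, Nat.testBit_or, Bool.or_eq_true, Bool.or_eq_true, orb_testBit, orb_testBit,
    orb_testBit]
  constructor
  · rintro (⟨i, hi, h1, h2⟩ | ⟨i, hi, h1, h2⟩ | ⟨i, hi, h1, h2⟩)
    · rw [hA] at hi
      rw [hb _ i hi] at h1
      refine ⟨i, by omega, h1, ?_⟩
      rw [List.getD_eq_getElem _ _ (by rw [List.length_append, List.length_append, hA, hB, hC]; omega),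
        List.getElem_append_left (by rw [List.length_append, hA, hB]; omega), List.getElem_append_left (by omega)]
      exact h2
    · rw [hB] at hi
      rw [hb _ i hi, hs] at h1
      refine ⟨7 + i, by omega, h1, ?_⟩
      rw [List.getD_eq_getElem _ _ (by rw [List.length_append, List.length_append, hA, hB, hC]; omega),
        List.getElem_append_left (by rw [List.length_append, hA, hB]; omega), List.getElem_append_right (by omega)]
      simp only [hA, Nat.add_sub_cancel_left]
      exact h2
    · rw [hC] at hi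
      rw [hb _ i hi, hs] at h1
      refine ⟨14 + i, by omega, h1, ?_⟩
      rw [List.getD_eq_getElem _ _ (by rw [List.length_append, List.length_append, hA, hB, hC]; omega),
        List.getElem_append_right (by rw [List.length_append, hA, hB]; omega)]
      have h5 : 14 + i - (A ++ B).length = i := by
        rw [List.length_append, hA, hB]; omega
      simp only [h5]
      exact h2
  · rintro ⟨i, hi, h1, h2⟩
    rw [List.getD_eq_getElem _ _ (by rw [List.length_append, List.length_append, hA, hB, hC]; omega)] at h2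
    by_cases h7 : i < 7
    · left
      rw [List.getElem_append_left (by rw [List.length_append, hA, hB]; omega),
        List.getElem_append_left (by omega)] at h2
      exact ⟨i, by omega, by rw [hb _ i h7]; exact h1, h2⟩
    · by_cases h14 : i < 14
      · right; left
        rw [List.getElem_append_left (by rw [List.length_append, hA, hB]; omega),
          List.getElem_append_right (by omega)] at h2
        simp only [hA] at h2
        refine ⟨i - 7, by omega, ?_, h2⟩
        rw [hb _ _ (by omega), hs]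
        have : 7 + (i - 7) = i := by omega
        rw [this]
        exact h1
      · right; right
        rw [List.getElem_append_right (by rw [List.length_append, hA, hB]; omega)] at h2
        have h5 : (A ++ B).length = 14 := by
          rw [List.length_append, hA, hB]
        simp only [h5] at h2
        refine ⟨i - 14, by omega, ?_, h2⟩
        rw [hb _ _ (by omega), hs]
        have : 14 + (i - 14) = i := by omega
        rw [this]
        exact h1

/-- the first part of the bit `i` -/
def pa (i : ℕ) : ℕ := [0, 0, 0, 0, 0, 1, 1, 1, 1, 2, 2, 2, 3, 3, 4, 0, 1, 2, 3, 4, 5].getD i 0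

/-- the second part of the bit `i` -/
def pz (i : ℕ) : ℕ := [1, 2, 3, 4, 5, 2, 3, 4, 5, 3, 4, 5, 4, 5, 5, 0, 1, 2, 3, 4, 5].getD i 0

theorem pa_bx : ∀ a b : Fin 6, (pa (bx a.val b.val) = a.val ∧ pz (bx a.val b.val) = b.val) ∨
    (pa (bx a.val b.val) = b.val ∧ pz (bx a.val b.val) = a.val) := by decide

theorem bx_pa : ∀ i : Fin 21, bx (pa i.val) (pz i.val) = i.val ∧ pa i.val < 6 ∧ pz i.val < 6 := by
  decide

/-- image of the bit `i` under the permutation `π` -/
def gP (π i : ℕ) : ℕ := 1 <<< bx (pv π (pa i)) (pv π (pz i))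

/-- image of the bit `i` under the exchange `k` -/
def gX (k i : ℕ) : ℕ :=
  ((sp k (pa i)).map (fun u => ((sp k (pz i)).map (fun v => 1 <<< bx u v)).foldr Nat.lor 0)).foldr
    Nat.lor 0

/-- data and table agree -/
def okD1 (gf : ℕ → ℕ) (A B C : List ℕ) (L : ℕ) : Bool :=
  an (A == (List.range 7).map gf) (an (B == (List.range 7).map (fun i => gf (7 + i)))
    (an (C == (List.range 7).map (fun i => gf (14 + i))) (okTN A B C L 128)))

theorem okD1_ok (gf : ℕ → ℕ) (A B C : List ℕ) (L : ℕ) (h : okD1 gf A B C L = true) (g j : ℕ) :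
    (act L g).testBit j = true ↔ ∃ i < 21, g.testBit i = true ∧ (gf i).testBit j = true := by
  unfold okD1 at h
  obtain ⟨h1, h⟩ := an_t h
  obtain ⟨h2, h⟩ := an_t h
  obtain ⟨h3, h⟩ := an_t h
  rw [beq_iff_eq] at h1 h2 h3
  rw [act_testBit A B C L (by rw [h1]; simp) (by rw [h2]; simp) (by rw [h3]; simp) h]
  have h5 : A ++ B ++ C = (List.range 21).map gf := by
    rw [h1, h2, h3]
    rfl
  constructor
  · rintro ⟨i, hi, h6, h7⟩
    refine ⟨i, hi, h6, ?_⟩
    rw [h5, List.getD_eq_getElem _ _ (by simpa using hi)] at h7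
    simpa using h7
  · rintro ⟨i, hi, h6, h7⟩
    refine ⟨i, hi, h6, ?_⟩
    rw [h5, List.getD_eq_getElem _ _ (by simpa using hi)]
    simpa using h7

/-- code of the data -/
def PD.cd : PD → ℕ
  | .mk c _ _ _ => c

/-- check of a permutation -/
def okPD : PD → ℕ → Bool
  | .mk c A B C, L => an (okP c) (okD1 (gP c) A B C L)

/-- check of an exchange -/
def okXD : PD → ℕ → Bool
  | .mk c A B C, L => okD1 (gX c) A B C L

/-- parallel check of two trees -/
def chk2 (f : PD → ℕ → Bool) : Tr PD → Tr ℕ → Bool
  | .l d, .l L => f d L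
  | .b s t, .b s' t' => an (chk2 f s s') (chk2 f t t')
  | _, _ => false

theorem chk2_ok (f : PD → ℕ → Bool) (s : Tr PD) : ∀ (t : Tr ℕ), chk2 f s t = true → ∀ i,
    f (s.get i) (t.get i) = true := by
  induction s with
  | l d =>
    intro t h i
    cases t with
    | l L => exact h
    | b s' t' => exact Bool.noConfusion h
  | b s t ihs iht =>
    intro t0 h i
    cases t0 with
    | l L => exact Bool.noConfusion h
    | b s' t' =>
      have h' : an (chk2 f s s') (chk2 f t t') = true := h
      obtain ⟨h1, h2⟩ := an_t h'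
      have e1 : Tr.get (.b s t) i = Bool.rec (motive := fun _ => PD)
        (Tr.get t (Nat.shiftRight i 1)) (Tr.get s (Nat.shiftRight i 1))
        (Nat.beq (Nat.land i 1) 0) := rfl
      have e2 : Tr.get (.b s' t') i = Bool.rec (motive := fun _ => ℕ)
        (Tr.get t' (Nat.shiftRight i 1)) (Tr.get s' (Nat.shiftRight i 1))
        (Nat.beq (Nat.land i 1) 0) := rfl
      rw [e1, e2]
      cases Nat.beq (Nat.land i 1) 0 with
      | true => exact ihs s' h1 _
      | false => exact iht t' h2 _

theorem ptab_ok : chk2 okPD pdat ptab = true := by decide +kernel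

theorem xtab_ok : chk2 okXD xdat xtab = true := by decide +kernel

theorem xcd : ∀ i : Fin 6, PD.cd (xdat.get i.val) = i.val := by decide +kernel

/-- the code of the permutation number `p` -/
def pcd (p : ℕ) : ℕ := PD.cd (pdat.get p)

theorem pcd_ok (p : ℕ) : okP (pcd p) = true ∧ ∀ g j, (act (gr ptab p) g).testBit j = true ↔
    ∃ i < 21, g.testBit i = true ∧ (gP (pcd p) i).testBit j = true := by
  rw [gr_eq]
  have h := chk2_ok okPD pdat ptab ptab_ok p
  unfold pcd
  rcases hd : pdat.get p with ⟨c, A, B, C⟩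
  rw [hd] at h
  have h' : an (okP c) (okD1 (gP c) A B C (ptab.get p)) = true := h
  obtain ⟨h1, h2⟩ := an_t h'
  exact ⟨h1, fun g j => okD1_ok _ _ _ _ _ h2 g j⟩

theorem xcd_ok (i : ℕ) (hi : i < 6) : ∀ g j, (act (gr xtab i) g).testBit j = true ↔
    ∃ l < 21, g.testBit l = true ∧ (gX i l).testBit j = true := by
  rw [gr_eq]
  have h := chk2_ok okXD xdat xtab xtab_ok i
  have h0 := xcd ⟨i, hi⟩
  simp only at h0
  rcases hd : xdat.get i with ⟨c, A, B, C⟩
  rw [hd] at h h0
  have h1 : c = i := h0
  subst h1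
  exact fun g j => okD1_ok _ _ _ _ _ h g j

/-- exchange -/
noncomputable def exI (i g : ℕ) : ℕ :=
  Bool.rec (motive := fun _ => ℕ) (act (gr xtab i) g) g (Nat.beq i 0)

/-- fast domination check: exchange `i`, then permutation number `p` -/
noncomputable def dmF (i p ga gb : ℕ) : Bool :=
  an (Nat.ble i 5) (Nat.beq (Nat.lor (act (gr ptab p) (exI i ga)) gb) gb)

/-- fast check of equality up to the permutation number `p` -/
noncomputable def eqF (p ga gb : ℕ) : Bool := Nat.beq (act (gr ptab p) ga) gb

theorem tb_shift (i j : ℕ) : (1 <<< i).testBit j = true ↔ i = j := by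
  rw [Nat.shiftLeft_eq, one_mul, Nat.testBit_two_pow]
  simp

theorem gX_testBit : ∀ k a b : Fin 6, ∀ u ∈ sp k.val a.val, ∀ v ∈ sp k.val b.val,
    (gX k.val (bx a.val b.val)).testBit (bx u v) = true := by decide +kernel

theorem sp_lt : ∀ k a : Fin 6, ∀ u ∈ sp k.val a.val, u < 6 := by decide

theorem bxs (x y : ℕ) : bx x y = bx y x := by
  unfold bx
  rcases Nat.lt_trichotomy x y with h | h | h
  · rw [if_neg (by omega : ¬ x = y), if_pos h, if_neg (by omega : ¬ y = x),
      if_neg (by omega : ¬ y < x)]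
  · rw [h]
  · symm
    rw [if_neg (by omega : ¬ y = x), if_pos h, if_neg (by omega : ¬ x = y),
      if_neg (by omega : ¬ x < y)]

theorem gP_testBit (π : ℕ) (a b : Fin 6) :
    (gP π (bx a.val b.val)).testBit (bx (pv π a.val) (pv π b.val)) = true := by
  unfold gP
  rw [tb_shift]
  rcases pa_bx a b with ⟨h1, h2⟩ | ⟨h1, h2⟩
  · rw [h1, h2]
  · rw [h1, h2, bxs]

theorem dmF_ok (i p ga gb : ℕ) (h : dmF i p ga gb = true) : okD i (pcd p) ga gb = true := by
  unfold dmF at h
  obtain ⟨h1, h2⟩ := an_t h
  have hi : i < 6 := by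
    have := Nat.le_of_ble_eq_true h1
    omega
  have h3 : Nat.lor (act (gr ptab p) (exI i ga)) gb = gb := Nat.eq_of_beq_eq_true h2
  obtain ⟨h4, h5⟩ := pcd_ok p
  unfold okD
  simp only [Bool.and_eq_true, List.all_eq_true, decide_eq_true_eq, List.mem_range,
    Bool.or_eq_true, Bool.not_eq_true']
  refine ⟨⟨h4, hi⟩, fun a ha b hb => ?_⟩
  by_cases hab : pb ga a b = true
  · right
    intro u hu v hv
    have hu6 := sp_lt ⟨i, hi⟩ ⟨a, ha⟩ u hu
    have hv6 := sp_lt ⟨i, hi⟩ ⟨b, hb⟩ v hv
    have h6 : (exI i ga).testBit (bx u v) = true := by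
      unfold exI
      cases hi0 : Nat.beq i 0 with
      | true =>
        have hi0' : i = 0 := Nat.eq_of_beq_eq_true hi0
        subst hi0'
        show ga.testBit (bx u v) = true
        have hu' : u = a := by simpa [sp] using hu
        have hv' : v = b := by simpa [sp] using hv
        rw [hu', hv']
        exact hab
      | false =>
        show (act (gr xtab i) ga).testBit (bx u v) = true
        rw [xcd_ok i hi]
        exact ⟨bx a b, bx_lt ⟨a, ha⟩ ⟨b, hb⟩, hab, gX_testBit ⟨i, hi⟩ ⟨a, ha⟩ ⟨b, hb⟩ u hu v hv⟩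
    have h7 : (act (gr ptab p) (exI i ga)).testBit (bx (pv (pcd p) u) (pv (pcd p) v)) = true := by
      rw [h5]
      exact ⟨bx u v, bx_lt ⟨u, hu6⟩ ⟨v, hv6⟩, h6, gP_testBit (pcd p) ⟨u, hu6⟩ ⟨v, hv6⟩⟩
    show gb.testBit (bx (pv (pcd p) u) (pv (pcd p) v)) = true
    have h8 : (act (gr ptab p) (exI i ga) ||| gb).testBit (bx (pv (pcd p) u) (pv (pcd p) v)) =
        true := by
      rw [Nat.testBit_or, h7, Bool.true_or]
    have h9 : act (gr ptab p) (exI i ga) ||| gb = gb := h3
    rw [h9] at h8
    exact h8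
  · left
    simpa using hab

theorem bx_inj : ∀ a b c d : Fin 6, bx a.val b.val = bx c.val d.val →
    (a = c ∧ b = d) ∨ (a = d ∧ b = c) := by decide +kernel

theorem eqF_ok (p ga gb : ℕ) (h : eqF p ga gb = true) : okE (pcd p) ga gb = true := by
  have h3 : act (gr ptab p) ga = gb := Nat.eq_of_beq_eq_true h
  obtain ⟨h4, h5⟩ := pcd_ok p
  obtain ⟨σ, hσ0, hσ⟩ := okP_perm (pcd p) h4
  unfold okE
  simp only [Bool.and_eq_true, List.all_eq_true, List.mem_range, beq_iff_eq]
  refine ⟨h4, fun a ha b hb => ?_⟩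
  rw [Bool.eq_iff_iff]
  show ga.testBit (bx a b) = true ↔ gb.testBit (bx (pv (pcd p) a) (pv (pcd p) b)) = true
  rw [← h3, h5]
  constructor
  · intro h6
    exact ⟨bx a b, bx_lt ⟨a, ha⟩ ⟨b, hb⟩, h6, gP_testBit (pcd p) ⟨a, ha⟩ ⟨b, hb⟩⟩
  · rintro ⟨i, hi, h6, h7⟩
    obtain ⟨h8, h9, h10⟩ := bx_pa ⟨i, hi⟩
    simp only at h8 h9 h10
    unfold gP at h7
    rw [tb_shift] at h7
    have e1 := hσ ⟨pa i, h9⟩
    have e2 := hσ ⟨pz i, h10⟩
    have e3 := hσ ⟨a, ha⟩
    have e4 := hσ ⟨b, hb⟩
    simp only at e1 e2 e3 e4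
    rw [← e1, ← e2, ← e3, ← e4] at h7
    rcases bx_inj _ _ _ _ h7 with ⟨h11, h12⟩ | ⟨h11, h12⟩
    · have h13 := congrArg Fin.val (σ.injective h11)
      have h14 := congrArg Fin.val (σ.injective h12)
      simp only at h13 h14
      rw [← h13, ← h14, h8]
      exact h6
    · have h13 := congrArg Fin.val (σ.injective h11)
      have h14 := congrArg Fin.val (σ.injective h12)
      simp only at h13 h14
      have h15 := bx_symm ⟨a, ha⟩ ⟨b, hb⟩
      simp only at h15
      rw [h15, ← h13, ← h14, h8]
      exact h6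

end Pool.Agent.L0h93.Karp.M5
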