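import Mathlib
import Pool.Agent.H119R2.Kp.Rel
import Pool.Agent.H119R2.Kp.Base
import Pool.Agent.N593.Karp.RelT

set_option autoImplicit false

/-! MP_257582_lc: relations in which the special part rotates. -/

namespace Pool.Agent.L0h93.Karp

open Finset
open Pool.Agent.H98R2.Ev (EV toG NE)
open Pool.Agent.H119R2.Kp Pool.Agent.N593.Karp

theorem rot_exists (x : ℕ) (hx : 0 < x) : ∃ ρ : Equiv.Perm (Fin x), ∀ a a' : Fin x,
    ∃ e : ℕ, (ρ ^ e) a = a' := by
  obtain ⟨y, rfl⟩ : ∃ y, x = y + 1 := ⟨x - 1, by omega⟩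
  show ∃ ρ : Equiv.Perm (ZMod (y + 1)), ∀ a a' : ZMod (y + 1), ∃ e : ℕ, (ρ ^ e) a = a'
  refine ⟨H119R2.Kp.BaseAux.tr (y + 1), fun a a' => ⟨(a' - a).val, ?_⟩⟩
  rw [H119R2.Kp.BaseAux.tr_pow_apply, ZMod.natCast_zmod_val]
  ring

/-- rotation of the special part and multiplication in the blocks -/
def rx {k x p : ℕ} (ρ : Equiv.Perm (Fin x)) (μ : (ZMod p)ˣ) : Equiv.Perm (W k x p) :=
  Equiv.sumCongr ρ (Equiv.prodShear (Equiv.refl _) (fun _ => Units.mulLeft μ))

theorem rx_inl {k x p : ℕ} (ρ : Equiv.Perm (Fin x)) (μ : (ZMod p)ˣ) (a : Fin x) :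
    rx ρ μ (Sum.inl a : W k x p) = Sum.inl (ρ a) := rfl

theorem rx_inr {k x p : ℕ} (ρ : Equiv.Perm (Fin x)) (μ : (ZMod p)ˣ) (b : Fin k) (u : ZMod p) :
    rx ρ μ (Sum.inr (b, u) : W k x p) = Sum.inr (b, μ * u) := rfl

theorem prt_rx {k x p : ℕ} (ρ : Equiv.Perm (Fin x)) (μ : (ZMod p)ˣ) (w : W k x p) :
    prt (rx ρ μ w) = prt w := by
  rcases w with a | ⟨b, u⟩ <;> rfl

theorem rx_pow_inl {k x p : ℕ} (ρ : Equiv.Perm (Fin x)) (μ : (ZMod p)ˣ) (e : ℕ) (a : Fin x) :
    (rx ρ μ ^ e : Equiv.Perm (W k x p)) (Sum.inl a) = Sum.inl ((ρ ^ e) a) := by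
  induction e with
  | zero => rfl
  | succ e ih => rw [pow_succ', Equiv.Perm.mul_apply, ih, rx_inl, pow_succ', Equiv.Perm.mul_apply]

theorem rx_pow_inr {k x p : ℕ} (ρ : Equiv.Perm (Fin x)) (μ : (ZMod p)ˣ) (e : ℕ) (b : Fin k)
    (u : ZMod p) : (rx ρ μ ^ e : Equiv.Perm (W k x p)) (Sum.inr (b, u)) =
      Sum.inr (b, (μ : ZMod p) ^ e * u) := by
  induction e with
  | zero => simp
  | succ e ih =>
    rw [pow_succ', Equiv.Perm.mul_apply, ih, rx_inr, pow_succ', mul_assoc]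

theorem conjx {k x p : ℕ} (ρ : Equiv.Perm (Fin x)) (μ : (ZMod p)ˣ) (b : Fin k) :
    ((rx ρ μ)⁻¹ * N593.Karp.tr b 1 * rx ρ μ : Equiv.Perm (W k x p)) =
      N593.Karp.tr b ((μ⁻¹ : (ZMod p)ˣ) : ZMod p) := by
  rw [mul_assoc, inv_mul_eq_iff_eq_mul]
  ext w
  rcases w with a | ⟨b', u⟩
  · rfl
  · simp only [Equiv.Perm.mul_apply, tr_inr, rx_inr]
    by_cases h : b' = b
    · subst h
      simp [mul_add]
    · simp [h]

/-- **relations in which the special part rotates** -/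
theorem relR {n q : ℕ} {P : SimpleGraph (Fin n) → Prop} (hP : GP n q P) (k x p : ℕ)
    [hpf : Fact p.Prime] (hp : 2 < p) (hx : 0 < x) (hn : x + k * p = n) {mm : ℕ}
    (Γ : Fin (k + 1) → Fin (k + 1) → Bool) (O : Fin mm → List (Fin (k + 1) × Fin (k + 1)))
    (hd : ∀ i j, i ≠ j → ∀ A B, ad (pat (O i)) A B = true → ad (pat (O j)) A B = true → False)
    (hd0 : ∀ i A B, ad Γ A B = true → ad (pat (O i)) A B = true → False)
    (hO : ∀ j, ∃ A B, ad (pat (O j)) A B = true)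
    (htr : ∀ j A B A' B', ad (pat (O j)) A B = true → ad (pat (O j)) A' B' = true →
      (A ≠ 0 ∨ B ≠ 0) ∧ ((A = A' ∧ B = B') ∨ (A = B' ∧ B = A')))
    (hq : 2 * q < ∑ j, cnt (sz k x p) (pat (O j))) :
    ∑ I : Finset (Fin mm), (-1 : ℤ) ^ I.card *
      hv P (sz k x p) (addCls Γ O I) = 0 := by
  classical
  have hp0 : NeZero p := ⟨by omega⟩
  obtain ⟨μ, hμ⟩ := IsCyclic.exists_generator (α := (ZMod p)ˣ)
  obtain ⟨ρ, hρ⟩ := rot_exists x hx
  have hcard : Fintype.card (W k x p) = n := by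
    rw [Fintype.card_sum, Fintype.card_prod, ZMod.card, Fintype.card_fin, Fintype.card_fin, hn]
  have hcardj : ∀ j, 2 * Nat.card (PG (pat (O j)) : SimpleGraph (W k x p)).edgeSet =
      cnt (sz k x p) (pat (O j)) := fun j => card_PG k x p _
  -- transitivity
  have tG : ∀ (b : Fin k) (t : ZMod p), (N593.Karp.tr b t : Equiv.Perm (W k x p)) ∈
      Subgroup.closure (insert (rx ρ μ) (Set.range (fun b : Fin k =>
        (N593.Karp.tr b 1 : Equiv.Perm (W k x p))))) := fun b t =>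
    Subgroup.closure_mono (Set.subset_insert _ _) (tr_mem b t)
  have rG : ∀ e : ℕ, (rx ρ μ ^ e : Equiv.Perm (W k x p)) ∈
      Subgroup.closure (insert (rx ρ μ) (Set.range (fun b : Fin k =>
        (N593.Karp.tr b 1 : Equiv.Perm (W k x p))))) := fun e =>
    Subgroup.pow_mem _ (Subgroup.subset_closure (Set.mem_insert _ _)) _
  have t1 : ∀ (a a' : Fin x) (i : Fin k) (u u' : ZMod p), ∃ g ∈
      Subgroup.closure (insert (rx ρ μ) (Set.range (fun b : Fin k =>
        (N593.Karp.tr b 1 : Equiv.Perm (W k x p))))),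
      g (Sum.inl a) = Sum.inl a' ∧ g (Sum.inr (i, u)) = Sum.inr (i, u') := by
    intro a a' i u u'
    obtain ⟨e, he⟩ := hρ a a'
    refine ⟨N593.Karp.tr i (u' - (μ : ZMod p) ^ e * u) * rx ρ μ ^ e,
      Subgroup.mul_mem _ (tG _ _) (rG _), ?_, ?_⟩
    · rw [Equiv.Perm.mul_apply, rx_pow_inl, he, tr_inl]
    · rw [Equiv.Perm.mul_apply, rx_pow_inr, tr_inr]
      simp
  have t2 : ∀ (i j : Fin k) (u v u' v' : ZMod p), i ≠ j → ∃ g ∈
      Subgroup.closure (insert (rx ρ μ) (Set.range (fun b : Fin k =>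
        (N593.Karp.tr b 1 : Equiv.Perm (W k x p))))),
      g (Sum.inr (i, u)) = Sum.inr (i, u') ∧ g (Sum.inr (j, v)) = Sum.inr (j, v') := by
    intro i j u v u' v' hij
    refine ⟨N593.Karp.tr i (u' - u) * N593.Karp.tr j (v' - v),
      Subgroup.mul_mem _ (tG _ _) (tG _ _), ?_, ?_⟩
    · rw [Equiv.Perm.mul_apply, tr_inr, tr_inr]
      simp [hij]
    · rw [Equiv.Perm.mul_apply, tr_inr, tr_inr]
      simp [hij.symm]
  have t3 : ∀ (i : Fin k) (u v u' v' : ZMod p), u ≠ v → u' ≠ v' → ∃ g ∈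
      Subgroup.closure (insert (rx ρ μ) (Set.range (fun b : Fin k =>
        (N593.Karp.tr b 1 : Equiv.Perm (W k x p))))),
      g (Sum.inr (i, u)) = Sum.inr (i, u') ∧ g (Sum.inr (i, v)) = Sum.inr (i, v') := by
    intro i u v u' v' h h'
    have hν : ∃ j : ℕ, (μ : ZMod p) ^ j * (u - v) = u' - v' := by
      have h2 : u - v ≠ 0 := sub_ne_zero.mpr h
      have h3 : u' - v' ≠ 0 := sub_ne_zero.mpr h'
      have h4 := hμ ((Units.mk0 _ h3) * (Units.mk0 _ h2)⁻¹)
      rw [← mem_powers_iff_mem_zpowers] at h4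
      obtain ⟨j, hj⟩ := h4
      refine ⟨j, ?_⟩
      have h5 : ((μ ^ j : (ZMod p)ˣ) : ZMod p) = (u' - v') * (u - v)⁻¹ := by
        simp only at hj
        rw [hj]
        simp
      rw [Units.val_pow_eq_pow_val] at h5
      rw [h5, mul_assoc, inv_mul_cancel₀ h2, mul_one]
    obtain ⟨j, hj⟩ := hν
    refine ⟨N593.Karp.tr i (u' - (μ : ZMod p) ^ j * u) * rx ρ μ ^ j,
      Subgroup.mul_mem _ (tG _ _) (rG _), ?_, ?_⟩
    · rw [Equiv.Perm.mul_apply, rx_pow_inr, tr_inr]
      simp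
    · rw [Equiv.Perm.mul_apply, rx_pow_inr, tr_inr]
      simp
      linear_combination -hj
  have hmain := rel hP (V := W k x p) hcard p (fun b : Fin k => N593.Karp.tr b 1) (rx ρ μ)
    (fun i j => tr_comm i j 1 1) ?_ ?_ (PG Γ) (fun j => PG (pat (O j))) ?_ ?_ ?_ ?_ ?_ ?_ ?_ ?_ ?_
  · rw [← hmain]
    apply Finset.sum_congr rfl
    intro I _
    congr 1
    unfold hv
    rw [PG_sup]
    exact if_congr (PV_PG hP k x p _).symm rfl rfl
  · intro b
    rw [tr_pow]
    simp [tr_zero]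
  · intro b
    show _ * N593.Karp.tr b 1 * _ ∈ _
    rw [conjx]
    exact tr_mem _ _
  · intro b u v h
    refine ⟨fun h' => h.1 ((N593.Karp.tr b 1).injective h'), ?_⟩
    rw [prt_tr, prt_tr]
    exact h.2
  · intro u v h
    refine ⟨fun h' => h.1 ((rx ρ μ).injective h'), ?_⟩
    rw [prt_rx, prt_rx]
    exact h.2
  · intro j b u v h
    refine ⟨fun h' => h.1 ((N593.Karp.tr b 1).injective h'), ?_⟩
    rw [prt_tr, prt_tr]
    exact h.2
  · intro j u v h
    refine ⟨fun h' => h.1 ((rx ρ μ).injective h'), ?_⟩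
    rw [prt_rx, prt_rx]
    exact h.2
  · intro i j hij
    rw [disjoint_iff]
    ext u v
    simp only [SimpleGraph.inf_adj, SimpleGraph.bot_adj, iff_false, not_and]
    intro h1 h2
    exact hd i j hij _ _ h1.2 h2.2
  · intro i
    rw [disjoint_iff]
    ext u v
    simp only [SimpleGraph.inf_adj, SimpleGraph.bot_adj, iff_false, not_and]
    intro h1 h2
    exact hd0 i _ _ h1.2 h2.2
  · intro j
    obtain ⟨A, B, hAB⟩ := hO j
    obtain ⟨h0, _⟩ := htr j A B A B hAB hAB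
    have h01 : (0 : ZMod p) ≠ 1 := zero_ne_one
    -- vertices in the parts
    have hv : ∀ A : Fin (k + 1), ∀ t : ZMod p, ∃ w : W k x p, prt w = A ∧
        (∀ B : Fin k, A = B.succ → w = Sum.inr (B, t)) := by
      intro A t
      refine Fin.cases ?_ (fun B => ?_) A
      · exact ⟨Sum.inl ⟨0, hx⟩, rfl, fun B h => absurd h.symm (Fin.succ_ne_zero B)⟩
      · exact ⟨Sum.inr (B, t), rfl, fun B' h => by rw [Fin.succ_injective _ h]⟩
    obtain ⟨w1, hw1, hw1'⟩ := hv A 0
    obtain ⟨w2, hw2, hw2'⟩ := hv B 1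
    refine ⟨w1, w2, ?_, by rw [hw1, hw2]; exact hAB⟩
    intro hw
    have hAB' : A = B := by rw [← hw1, ← hw2, hw]
    subst hAB'
    have hA : A ≠ 0 := h0.elim id id
    obtain ⟨A', hA'⟩ := Fin.exists_succ_eq.mpr hA
    have e1 := hw1' A' hA'.symm
    have e2 := hw2' A' hA'.symm
    rw [e1, e2] at hw
    have := Sum.inr_injective hw
    rw [Prod.mk.injEq] at this
    exact h01 this.2
  · intro j u v u' v' h h'
    obtain ⟨h0, hc⟩ := htr j _ _ _ _ h.2 h'.2
    have hneq : ∀ {x' : Fin k} {s t : ZMod p}, (Sum.inr (x', s) : W k x p) ≠ Sum.inr (x', t) →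
        s ≠ t := fun h h' => h (by rw [h'])
    rcases u with a | ⟨b, u⟩ <;> rcases v with c | ⟨d, v⟩
    · exact absurd rfl (h0.elim id id)
    · -- (X, d)
      rcases u' with a' | ⟨b', u'⟩ <;> rcases v' with c' | ⟨d', v'⟩
      · rcases hc with ⟨_, h2⟩ | ⟨_, h2⟩
        · exact absurd h2 (Fin.succ_ne_zero d)
        · exact absurd h2 (Fin.succ_ne_zero d)
      · rcases hc with ⟨_, h2⟩ | ⟨h1, _⟩
        · have h3 : d = d' := Fin.succ_injective _ h2
          subst h3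
          obtain ⟨g, hg, g1, g2⟩ := t1 a a' d v v'
          exact ⟨g, hg, Or.inl ⟨g1, g2⟩⟩
        · exact absurd h1.symm (Fin.succ_ne_zero d')
      · rcases hc with ⟨h1, _⟩ | ⟨_, h2⟩
        · exact absurd h1.symm (Fin.succ_ne_zero b')
        · have h3 : d = b' := Fin.succ_injective _ h2
          subst h3
          obtain ⟨g, hg, g1, g2⟩ := t1 a c' d v u'
          exact ⟨g, hg, Or.inr ⟨g1, g2⟩⟩
      · rcases hc with ⟨h1, _⟩ | ⟨h1, _⟩
        · exact absurd h1.symm (Fin.succ_ne_zero b')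
        · exact absurd h1.symm (Fin.succ_ne_zero d')
    · -- (b, X)
      rcases u' with a' | ⟨b', u'⟩ <;> rcases v' with c' | ⟨d', v'⟩
      · rcases hc with ⟨h1, _⟩ | ⟨h1, _⟩
        · exact absurd h1 (Fin.succ_ne_zero b)
        · exact absurd h1 (Fin.succ_ne_zero b)
      · rcases hc with ⟨h1, _⟩ | ⟨h1, _⟩
        · exact absurd h1 (Fin.succ_ne_zero b)
        · have h3 : b = d' := Fin.succ_injective _ h1
          subst h3
          obtain ⟨g, hg, g1, g2⟩ := t1 c a' b u v'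
          exact ⟨g, hg, Or.inr ⟨g2, g1⟩⟩
      · rcases hc with ⟨h1, _⟩ | ⟨h1, _⟩
        · have h3 : b = b' := Fin.succ_injective _ h1
          subst h3
          obtain ⟨g, hg, g1, g2⟩ := t1 c c' b u u'
          exact ⟨g, hg, Or.inl ⟨g2, g1⟩⟩
        · exact absurd h1 (Fin.succ_ne_zero b)
      · rcases hc with ⟨_, h2⟩ | ⟨_, h2⟩
        · exact absurd h2.symm (Fin.succ_ne_zero d')
        · exact absurd h2.symm (Fin.succ_ne_zero b')
    · -- blocks
      rcases u' with a' | ⟨b', u'⟩ <;> rcases v' with c' | ⟨d', v'⟩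
      · rcases hc with ⟨h1, _⟩ | ⟨h1, _⟩
        · exact absurd h1 (Fin.succ_ne_zero b)
        · exact absurd h1 (Fin.succ_ne_zero b)
      · rcases hc with ⟨h1, _⟩ | ⟨_, h2⟩
        · exact absurd h1 (Fin.succ_ne_zero b)
        · exact absurd h2 (Fin.succ_ne_zero d)
      · rcases hc with ⟨_, h2⟩ | ⟨h1, _⟩
        · exact absurd h2 (Fin.succ_ne_zero d)
        · exact absurd h1 (Fin.succ_ne_zero b)
      · by_cases hbd : b = d
        · subst hbd
          rcases hc with ⟨h1, h2⟩ | ⟨h1, h2⟩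
          · have e1 : b = b' := Fin.succ_injective _ h1
            have e2 : b = d' := Fin.succ_injective _ h2
            subst e1
            subst e2
            obtain ⟨g, hg, g1, g2⟩ := t3 b u v u' v' (hneq h.1) (hneq h'.1)
            exact ⟨g, hg, Or.inl ⟨g1, g2⟩⟩
          · have e1 : b = d' := Fin.succ_injective _ h1
            have e2 : b = b' := Fin.succ_injective _ h2
            subst e1
            subst e2
            obtain ⟨g, hg, g1, g2⟩ := t3 b u v u' v' (hneq h.1) (hneq h'.1)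
            exact ⟨g, hg, Or.inl ⟨g1, g2⟩⟩
        · rcases hc with ⟨h1, h2⟩ | ⟨h1, h2⟩
          · have e1 : b = b' := Fin.succ_injective _ h1
            have e2 : d = d' := Fin.succ_injective _ h2
            subst e1
            subst e2
            obtain ⟨g, hg, g1, g2⟩ := t2 b d u v u' v' hbd
            exact ⟨g, hg, Or.inl ⟨g1, g2⟩⟩
          · have e1 : b = d' := Fin.succ_injective _ h1
            have e2 : d = b' := Fin.succ_injective _ h2
            subst e1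
            subst e2
            obtain ⟨g, hg, g1, g2⟩ := t2 b d u v v' u' hbd
            exact ⟨g, hg, Or.inr ⟨g1, g2⟩⟩
  · have h3 : ∑ j, cnt (sz k x p) (pat (O j)) =
      2 * ∑ j, Nat.card (PG (pat (O j)) : SimpleGraph (W k x p)).edgeSet := by
      rw [Finset.mul_sum]
      exact Finset.sum_congr rfl (fun j _ => (hcardj j).symm)
    rw [h3] at hq
    exact Nat.lt_of_mul_lt_mul_left hq

end Pool.Agent.L0h93.Karp
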