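import Mathlib
import Pool.Agent.L0h93.Karp.RelR
import Pool.Agent.L0h93.Karp.Hm

set_option autoImplicit false

/-! MP_257582_lc: relations with merged parts `0, …, z` (`z = 5 - k`, `k = 3, 4`) for masks. -/

namespace Pool.Agent.L0h93.Karp.M5

open Finset
open Pool.Agent.H98R2.Ev (EV toG NE)
open Pool.Agent.H119R2.Kp Pool.Agent.N593.Karp

/-- the class of a part when the parts `0, …, 5 - k` are merged -/
def cz (k : ℕ) (A : Fin 6) : Fin (k + 1) := ⟨A.val - (5 - k), by omega⟩

/-- representative of a class -/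
def rz (k : ℕ) (a : Fin (k + 1)) : ℕ := if a.val = 0 then 0 else a.val + (5 - k)

/-- coarse pattern -/
def pX (k g : ℕ) : Fin (k + 1) → Fin (k + 1) → Bool := fun a b => pb g (rz k a) (rz k b)

/-- the mask is uniform -/
def Unif (k g : ℕ) : Prop := ∀ A B : Fin 6, pm g A B = pX k g (cz k A) (cz k B)

/-- masks which have to be full or empty -/
def mlX (k : ℕ) : List ℕ :=
  if k = 4 then [34, 68, 136, 272, 98305] else [580, 1160, 2320, 229411]

/-- check of uniformity -/
def okUX (k g : ℕ) : Bool := (mlX k).all (fun m => (g &&& m) == 0 || (g &&& m) == m)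

theorem okUX_unif (k g : ℕ) (hk : k = 3 ∨ k = 4) (h : okUX k g = true) : Unif k g := by
  have h0 : ∀ A B : Fin 6, bx A.val B.val = bx (rz k (cz k A)) (rz k (cz k B)) ∨
      ∃ m ∈ mlX k, m.testBit (bx A.val B.val) = true ∧
        m.testBit (bx (rz k (cz k A)) (rz k (cz k B))) = true := by
    rcases hk with rfl | rfl <;> decide +kernel
  intro A B
  unfold pm pX pb
  rcases h0 A B with h1 | ⟨m, hm, h1, h2⟩
  · rw [h1]
  · unfold okUX at h
    rw [List.all_eq_true] at h
    have h3 := h m hm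
    rw [Bool.or_eq_true, beq_iff_eq, beq_iff_eq] at h3
    have h4 : ∀ i, m.testBit i = true → (g &&& m).testBit i = g.testBit i := by
      intro i hi
      rw [Nat.testBit_and, hi, Bool.and_true]
    rw [← h4 _ h1, ← h4 _ h2]
    rcases h3 with h3 | h3
    · rw [h3, Nat.zero_testBit, Nat.zero_testBit]
    · rw [h3, h1, h2]

theorem pX_or (k g w : ℕ) : pX k (g ||| w) = fun a b => pX k g a b || pX k w a b := by
  funext a b
  simp [pX, pb, Nat.testBit_or]

theorem Unif.or {k g w : ℕ} (h : Unif k g) (h' : Unif k w) : Unif k (g ||| w) := by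
  intro A B
  rw [pX_or, pm_or]
  simp only
  rw [h A B, h' A B]

theorem cz_sizes (r p k : ℕ) (hk : k = 3 ∨ k = 4) (a : Fin (k + 1)) :
    ∑ i, tc (sz 5 r p) (cz k) i a = sz k (r + (5 - k) * p) p a := by
  have h6 : ∑ i, tc (sz 5 r p) (cz k) i a = tc (sz 5 r p) (cz k) 0 a +
      tc (sz 5 r p) (cz k) 1 a + tc (sz 5 r p) (cz k) 2 a + tc (sz 5 r p) (cz k) 3 a +
      tc (sz 5 r p) (cz k) 4 a + tc (sz 5 r p) (cz k) 5 a :=
    Fin.sum_univ_six (fun i => tc (sz 5 r p) (cz k) i a)
  have s0 : sz 5 r p 0 = r := rfl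
  have s1 : sz 5 r p 1 = p := rfl
  have s2 : sz 5 r p 2 = p := rfl
  have s3 : sz 5 r p 3 = p := rfl
  have s4 : sz 5 r p 4 = p := rfl
  have s5 : sz 5 r p 5 = p := rfl
  rw [h6]
  unfold tc
  rw [s0, s1, s2, s3, s4, s5]
  rcases hk with rfl | rfl
  · have c0 : cz 3 0 = 0 := by decide
    have c1 : cz 3 1 = 0 := by decide
    have c2 : cz 3 2 = 0 := by decide
    have c3 : cz 3 3 = 1 := by decide
    have c4 : cz 3 4 = 2 := by decide
    have c5 : cz 3 5 = 3 := by decide
    rw [c0, c1, c2, c3, c4, c5]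
    fin_cases a
    · show r + p + p + 0 + 0 + 0 = r + (5 - 3) * p
      omega
    · show 0 + 0 + 0 + p + 0 + 0 = p
      omega
    · show 0 + 0 + 0 + 0 + p + 0 = p
      omega
    · show 0 + 0 + 0 + 0 + 0 + p = p
      omega
  · have c0 : cz 4 0 = 0 := by decide
    have c1 : cz 4 1 = 0 := by decide
    have c2 : cz 4 2 = 1 := by decide
    have c3 : cz 4 3 = 2 := by decide
    have c4 : cz 4 4 = 3 := by decide
    have c5 : cz 4 5 = 4 := by decide
    rw [c0, c1, c2, c3, c4, c5]
    fin_cases a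
    · show r + p + 0 + 0 + 0 + 0 = r + (5 - 4) * p
      omega
    · show 0 + 0 + p + 0 + 0 + 0 = p
      omega
    · show 0 + 0 + 0 + p + 0 + 0 = p
      omega
    · show 0 + 0 + 0 + 0 + p + 0 = p
      omega
    · show 0 + 0 + 0 + 0 + 0 + p = p
      omega

theorem fV_unif {n q : ℕ} {P : SimpleGraph (Fin n) → Prop} (hP : GP n q P) (r p k g : ℕ)
    (hk : k = 3 ∨ k = 4) (h : Unif k g) :
    hv P (sz k (r + (5 - k) * p) p) (pX k g) = fV P r p g := by
  refine le_antisymm ?_ ?_
  · refine fine_le hP (sz 5 r p) (sz k (r + (5 - k) * p) p) (cz k) (cz_sizes r p k hk) (pm g)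
      (pX k g) fun i j hij => Or.inl ?_
    rw [h i j]
    exact hij
  · refine coarse_le hP (sz 5 r p) (sz k (r + (5 - k) * p) p) (cz k) (cz_sizes r p k hk) (pm g)
      (pX k g) fun i j hij => Or.inl ?_
    rw [← h i j]
    exact hij

theorem altX {n q : ℕ} {P : SimpleGraph (Fin n) → Prop} (hP : GP n q P) (r p k : ℕ)
    (hk : k = 3 ∨ k = 4) (ws : List ℕ) (hws : ∀ w ∈ ws, Unif k w) (g : ℕ) (hg : Unif k g) :
    altP (fun Γ => hv P (sz k (r + (5 - k) * p) p) Γ) (ws.map (pX k)) (pX k g) =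
      alt' (fV P r p) ws g := by
  induction ws generalizing g with
  | nil => exact fV_unif hP r p k g hk hg
  | cons w ws ih =>
    have h1 : ∀ w ∈ ws, Unif k w := fun w' hw' => hws w' (List.mem_cons_of_mem _ hw')
    have h2 : Unif k w := hws w List.mem_cons_self
    rw [List.map_cons, altP, alt', ih h1 g hg, ← pX_or, ih h1 (g ||| w) (hg.or h2)]

/-- classes with weights -/
def tblX (k : ℕ) : List (ℕ × ℕ) :=
  if k = 4 then [(34, 2), (68, 2), (136, 2), (272, 2), (512, 2), (1024, 2), (2048, 2), (4096, 2),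
    (8192, 2), (16384, 2), (131072, 1), (262144, 1), (524288, 1), (1048576, 1)]
  else [(580, 4), (1160, 4), (2320, 4), (4096, 2), (8192, 2), (16384, 2), (262144, 1),
    (524288, 1), (1048576, 1)]

/-- selected classes (`z = 1, 2`) -/
def selX (z fm : ℕ) : List (ℕ × ℕ) := (tblX (5 - z)).filter (fun w => (fm &&& w.1) == w.1)

/-- conditions on a relation with merged parts `0, …, z` -/
def okRelX (z fm g : ℕ) : Bool :=
  (z == 1 || z == 2) && (selX z fm).all (fun w => (g &&& w.1) == 0) &&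
    decide (20 ≤ ((selX z fm).map Prod.snd).sum) && okUX (5 - z) g

/-- the pairs of the mask `w` -/
def OwX (k w : ℕ) : List (Fin (k + 1) × Fin (k + 1)) :=
  (List.finRange (k + 1) ×ˢ List.finRange (k + 1)).filter (fun ab => pX k w ab.1 ab.2)

theorem pat_OwX (k w : ℕ) : pat (OwX k w) = pX k w := by
  funext a b
  rw [Bool.eq_iff_iff]
  simp [pat, OwX]

theorem ad_pX (k g : ℕ) (hk : k = 3 ∨ k = 4) (a b : Fin (k + 1)) :
    ad (pX k g) a b = pX k g a b := by
  have h0 : ∀ a b : Fin (k + 1), bx (rz k a) (rz k b) = bx (rz k b) (rz k a) := by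
    rcases hk with rfl | rfl <;> decide +kernel
  unfold ad pX pb
  rw [h0 b a, Bool.or_self]

theorem tblX_cnt (r p k : ℕ) (hk : k = 3 ∨ k = 4) : ∀ w ∈ tblX k,
    w.2 * (p * (p - 1)) ≤ cnt (sz k (r + (5 - k) * p) p) (pX k w.1) := by
  have hpp : p * (p - 1) ≤ p * p := Nat.mul_le_mul_left _ (Nat.sub_le _ _)
  have h0 : ∀ w ∈ tblX k, (∀ A B : Fin (k + 1), pX k w.1 A B = true → A ≠ 0 ∨ B ≠ 0) ∧
      (∑ A : Fin (k + 1), ∑ B : Fin (k + 1), if pX k w.1 A B = true then
        (if A = 0 ∨ B = 0 then 5 - k else 1) else 0) = w.2 := by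
    rcases hk with rfl | rfl <;> decide +kernel
  intro w hw
  obtain ⟨h1, h2⟩ := h0 w hw
  rw [← h2]
  unfold cnt
  rw [Finset.sum_mul]
  refine Finset.sum_le_sum fun A _ => ?_
  rw [Finset.sum_mul]
  refine Finset.sum_le_sum fun B _ => ?_
  rw [ad_pX k w.1 hk]
  by_cases h3 : pX k w.1 A B = true
  · rw [if_pos h3, if_pos h3]
    have hs : ∀ i : Fin (k + 1), i ≠ 0 → sz k (r + (5 - k) * p) p i = p := by
      intro i hi
      obtain ⟨j, rfl⟩ := Fin.exists_succ_eq.2 hi
      rfl
    have hs0 : sz k (r + (5 - k) * p) p 0 = r + (5 - k) * p := rfl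
    by_cases hA : A = 0
    · have hB : B ≠ 0 := (h1 A B h3).resolve_left (not_not.mpr hA)
      rw [if_pos (Or.inl hA), if_neg (by rw [hA]; exact hB.symm), hA, hs0, hs B hB]
      calc (5 - k) * (p * (p - 1)) ≤ (5 - k) * (p * p) := Nat.mul_le_mul_left _ hpp
        _ = ((5 - k) * p) * p := by ring
        _ ≤ _ := Nat.mul_le_mul_right _ (Nat.le_add_left _ _)
    · by_cases hB : B = 0
      · rw [if_pos (Or.inr hB), if_neg (by rw [hB]; exact hA), hB, hs0, hs A hA]
        calc (5 - k) * (p * (p - 1)) ≤ (5 - k) * (p * p) := Nat.mul_le_mul_left _ hpp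
          _ = p * ((5 - k) * p) := by ring
          _ ≤ _ := Nat.mul_le_mul_left _ (Nat.le_add_left _ _)
      · rw [if_neg (by tauto), hs A hA, hs B hB, one_mul]
        split_ifs
        · exact le_refl _
        · exact hpp
  · rw [if_neg h3, if_neg h3, zero_mul]

theorem relX {n q : ℕ} {P : SimpleGraph (Fin n) → Prop} (hP : GP n q P) {r p : ℕ}
    (har : Ar n q r p) (z fm g : ℕ) (h : okRelX z fm g = true) :
    alt' (fV P r p) ((selX z fm).map Prod.fst) g = 0 := by
  have hpf : Fact p.Prime := ⟨har.hp⟩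
  have hp : 2 < p := by have := har.hp3; omega
  have hr := har.hr
  have hn := har.hn
  have hq := har.hq
  unfold okRelX at h
  simp only [Bool.and_eq_true, List.all_eq_true, decide_eq_true_eq, beq_iff_eq,
    Bool.or_eq_true] at h
  obtain ⟨⟨⟨hz, h1⟩, h2⟩, h3⟩ := h
  obtain ⟨k, hkz⟩ : ∃ k, 5 - z = k := ⟨_, rfl⟩
  have hk : k = 3 ∨ k = 4 := by omega
  unfold selX at h1 h2 ⊢
  rw [hkz] at h1 h2 h3 ⊢
  set S := (tblX k).filter (fun w => (fm &&& w.1) == w.1) with hS
  have hsub : S.Sublist (tblX k) := List.filter_sublist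
  have hmem : ∀ w ∈ S, w ∈ tblX k := fun w hw => hsub.subset hw
  have hdis0 : (tblX k).Pairwise (fun w w' => ∀ A B : Fin (k + 1), pX k w.1 A B = true →
    pX k w'.1 A B = true → False) := by
    rcases hk with rfl | rfl <;> decide +kernel
  have hdis := hdis0.sublist hsub
  have hun : ∀ w ∈ tblX k, Unif k w.1 := by
    rcases hk with rfl | rfl <;> (unfold Unif; decide +kernel)
  have hne : ∀ w ∈ tblX k, ∃ A B : Fin (k + 1), pX k w.1 A B = true := by
    rcases hk with rfl | rfl <;> decide +kernel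
  have htr0 : ∀ w ∈ tblX k, ∀ A B A' B' : Fin (k + 1), pX k w.1 A B = true →
      pX k w.1 A' B' = true → (A ≠ 0 ∨ B ≠ 0) ∧ ((A = A' ∧ B = B') ∨ (A = B' ∧ B = A')) := by
    rcases hk with rfl | rfl <;> decide +kernel
  set O : Fin S.length → List (Fin (k + 1) × Fin (k + 1)) := fun j => OwX k (S.get j).1 with hO
  have hpat : ∀ j, pat (O j) = pX k (S.get j).1 := fun j => pat_OwX _ _
  have hin : ∀ j : Fin S.length, S.get j ∈ tblX k := fun j => hmem _ (List.get_mem _ _)
  have hx : 0 < r + (5 - k) * p := by omega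
  have hxn : r + (5 - k) * p + k * p = n := by
    rcases hk with rfl | rfl <;> omega
  have hcnt : ∑ j : Fin S.length, cnt (sz k (r + (5 - k) * p) p) (pat (O j)) ≥
      20 * (p * (p - 1)) := by
    have e1 : ∑ j : Fin S.length, (S.get j).2 = (S.map Prod.snd).sum := by
      rw [← List.sum_ofFn]
      congr 1
      apply List.ext_get
      · simp
      · intro i h1 h2
        simp
    calc 20 * (p * (p - 1)) ≤ (∑ j : Fin S.length, (S.get j).2) * (p * (p - 1)) := by
          rw [e1]; exact Nat.mul_le_mul_right _ h2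
      _ = ∑ j : Fin S.length, (S.get j).2 * (p * (p - 1)) := Finset.sum_mul _ _ _
      _ ≤ _ := Finset.sum_le_sum fun j _ => by
          rw [hpat]
          exact tblX_cnt r p k hk _ (hin j)
  have hmain := relR hP k (r + (5 - k) * p) p hp hx hxn (pX k g) O
    (by
      intro i j hij A B h4 h5
      rw [hpat, ad_pX k _ hk] at h4 h5
      rcases lt_or_gt_of_ne hij with h6 | h6
      · exact List.pairwise_iff_get.mp hdis i j h6 A B h4 h5
      · exact List.pairwise_iff_get.mp hdis j i h6 A B h5 h4)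
    (by
      intro i A B h4 h5
      rw [ad_pX k _ hk] at h4
      rw [hpat, ad_pX k _ hk] at h5
      have h6 := h1 _ (List.get_mem S i)
      have h7 : (g &&& (S.get i).1).testBit (bx (rz k A) (rz k B)) = true := by
        rw [Nat.testBit_and]
        simp only [pX, pb] at h4 h5
        rw [h4, h5]
        rfl
      rw [h6] at h7
      simp at h7)
    (by
      intro j
      obtain ⟨A, B, h4⟩ := hne _ (hin j)
      exact ⟨A, B, by rw [hpat, ad_pX k _ hk]; exact h4⟩)
    (by
      intro j A B A' B' h4 h5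
      rw [hpat, ad_pX k _ hk] at h4 h5
      exact htr0 _ (hin j) A B A' B' h4 h5)
    (by omega)
  have hsum := sum_altP (fun Γ => hv P (sz k (r + (5 - k) * p) p) Γ) O
    (List.finRange S.length) (List.nodup_finRange _) (pX k g)
  have hu : (List.finRange S.length).toFinset = univ := by ext i; simp
  rw [hu, powerset_univ] at hsum
  have hz' := hsum.symm.trans (Eq.trans (Finset.sum_congr rfl (fun I _ => by
    refine congrArg (fun x => (-1 : ℤ) ^ I.card * hv P (sz k (r + (5 - k) * p) p) x) ?_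
    funext a b
    rw [Bool.eq_iff_iff]
    simp only [addCls, Bool.or_eq_true, decide_eq_true_eq])) hmain)
  have hmap : (List.finRange S.length).map (fun j => pat (O j)) =
      (S.map Prod.fst).map (pX k) := by
    apply List.ext_get
    · simp
    · intro i h1 h2
      simp [hpat]
  rw [hmap, altX hP r p k hk _ ?_ g (okUX_unif k g hk h3)] at hz'
  · exact hz'
  · intro w hw
    rw [List.mem_map] at hw
    obtain ⟨w', hw', rfl⟩ := hw
    exact hun _ (hmem _ hw')

end Pool.Agent.L0h93.Karp.M5
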