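import Mathlib
import Pool.Agent.H119R2.Kp.Defs
import Pool.Agent.H119R2.Kp.Rel
import Pool.Agent.H119R2.Kp.ChainB
import Pool.Agent.L0h93.Karp.Fact5

set_option autoImplicit false

/-! MP_257582_lc: snapshots: circulant graphs in the last blocks.  Basic facts. -/

namespace Pool.Agent.L0h93.Karp.M5

open Finset
open Pool.Agent.H98R2.Ev (EV toG NE)
open Pool.Agent.H119R2.Kp Pool.Agent.N593.Karp
open Pool.Agent.H119R2.Kp.RelAux (PV_mono)

/-- circulant graphs with differences `±1, …, ±t` in the blocks `≥ s` -/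
def CZ (r p s t : ℕ) : SimpleGraph (W 5 r p) where
  Adj u v := u ≠ v ∧ ∃ (b : Fin 5) (x y : ZMod p), u = Sum.inr (b, x) ∧ v = Sum.inr (b, y) ∧
    s ≤ b.val ∧ ∃ d : ℕ, 1 ≤ d ∧ d ≤ t ∧ (y = x + d ∨ x = y + d)
  symm := ⟨by
    rintro u v ⟨h, b, x, y, hu, hv, hs, d, h1, h2, h3⟩
    exact ⟨h.symm, b, y, x, hv, hu, hs, d, h1, h2, h3.symm⟩⟩
  loopless := ⟨fun _ h => h.1 rfl⟩

open Classical in
/-- value of `P` on the pattern `g` with the circulant graphs -/
noncomputable def FZ {n : ℕ} (P : SimpleGraph (Fin n) → Prop) (r p s t g : ℕ) : ℤ :=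
  if PV P (W 5 r p) (PG (pm g) ⊔ CZ r p s t) then 1 else 0

/-- the loops of the blocks `≥ s` -/
def zl : ℕ → ℕ
  | 0 => 2031616
  | 1 => 1966080
  | _ => 1835008

theorem FZ01 {n : ℕ} (P : SimpleGraph (Fin n) → Prop) (r p s t g : ℕ) :
    FZ P r p s t g = 0 ∨ FZ P r p s t g = 1 := by
  unfold FZ
  split_ifs
  · exact Or.inr rfl
  · exact Or.inl rfl

theorem FZ_le {n : ℕ} (P : SimpleGraph (Fin n) → Prop) (r p s t g s' t' g' : ℕ)
    (h : PV P (W 5 r p) (PG (pm g) ⊔ CZ r p s t) → PV P (W 5 r p) (PG (pm g') ⊔ CZ r p s' t')) :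
    FZ P r p s t g ≤ FZ P r p s' t' g' := by
  unfold FZ
  by_cases h1 : PV P (W 5 r p) (PG (pm g) ⊔ CZ r p s t)
  · rw [if_pos h1, if_pos (h h1)]
  · rw [if_neg h1]
    split_ifs <;> norm_num

theorem CZ_zero (r p s : ℕ) : CZ r p s 0 = ⊥ := by
  ext u v
  simp only [SimpleGraph.bot_adj, iff_false]
  rintro ⟨_, b, x, y, _, _, _, d, h1, h2, _⟩
  omega

theorem CZ_mono (r p s t t' : ℕ) (h : t ≤ t') : CZ r p s t ≤ CZ r p s t' := by
  rintro u v ⟨h0, b, x, y, hu, hv, hs, d, h1, h2, h3⟩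
  exact ⟨h0, b, x, y, hu, hv, hs, d, h1, by omega, h3⟩

theorem FZ_zero {n q : ℕ} {P : SimpleGraph (Fin n) → Prop} (hP : GP n q P) (r p s g : ℕ)
    [NeZero p] : FZ P r p s 0 g = fV P r p g := by
  classical
  unfold FZ fV hv
  exact if_congr (by rw [CZ_zero, sup_bot_eq]; exact PV_PG hP 5 r p _) rfl rfl

theorem FZ_lo {n q : ℕ} {P : SimpleGraph (Fin n) → Prop} (hP : GP n q P) (r p s t g : ℕ)
    [NeZero p] : fV P r p g ≤ FZ P r p s t g := by
  rw [← FZ_zero hP r p s g]
  exact FZ_le P r p s 0 g s t g (PV_mono hP (sup_le_sup_left (CZ_mono r p s 0 t (Nat.zero_le _)) _))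

theorem zl_bit : ∀ s : Fin 3, ∀ b : Fin 5, s.val ≤ b.val → pm (zl s.val) b.succ b.succ = true := by
  decide +kernel

theorem zl_bit' : ∀ s : Fin 3, ∀ A B : Fin 6, pm (zl s.val) A B = true →
    A = B ∧ s.val < A.val := by
  decide +kernel

theorem CZ_le_zl (r p s t : ℕ) (hs : s < 3) : CZ r p s t ≤ PG (pm (zl s)) := by
  rintro u v ⟨h0, b, x, y, rfl, rfl, hb, _⟩
  refine ⟨h0, ?_⟩
  rw [ad_pm]
  exact zl_bit ⟨s, hs⟩ b hb

theorem PG_or (r p g w : ℕ) : (PG (pm (g ||| w)) : SimpleGraph (W 5 r p)) =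
    PG (pm g) ⊔ PG (pm w) := by
  ext u v
  rw [SimpleGraph.sup_adj, PG_adj, PG_adj, PG_adj, ad_pm, ad_pm, ad_pm, pm_or]
  simp only [Bool.or_eq_true]
  tauto

theorem FZ_hi {n q : ℕ} {P : SimpleGraph (Fin n) → Prop} (hP : GP n q P) (r p s t g : ℕ)
    (hs : s < 3) [NeZero p] : FZ P r p s t g ≤ fV P r p (g ||| zl s) := by
  rw [← FZ_zero hP r p s (g ||| zl s)]
  refine FZ_le P r p s t g s 0 (g ||| zl s) (PV_mono hP ?_)
  rw [PG_or, CZ_zero, sup_bot_eq]
  exact sup_le_sup_left (CZ_le_zl r p s t hs) _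

theorem zl_le_CZ (r p s : ℕ) [hpf : Fact p.Prime] (hp : 2 < p) (hs : s < 3) :
    (PG (pm (zl s)) : SimpleGraph (W 5 r p)) ≤ CZ r p s ((p - 1) / 2) := by
  have hodd : p % 2 = 1 := by
    rcases (Fact.out : p.Prime).eq_two_or_odd with h3 | h3
    · omega
    · exact h3
  rintro (u | ⟨b, x⟩) (v | ⟨c, y⟩) ⟨h0, h1⟩
  · rw [ad_pm] at h1
    have := (zl_bit' ⟨s, hs⟩ _ _ h1).2
    simp [prt] at this
  · rw [ad_pm] at h1
    have := (zl_bit' ⟨s, hs⟩ _ _ h1).2
    simp [prt] at this
  · rw [ad_pm] at h1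
    have := (zl_bit' ⟨s, hs⟩ _ _ h1).1
    exact absurd this (Fin.succ_ne_zero b)
  · rw [ad_pm] at h1
    obtain ⟨h2, h3⟩ := zl_bit' ⟨s, hs⟩ _ _ h1
    have h4 : b = c := Fin.succ_injective _ h2
    subst h4
    have hb : s ≤ b.val := by
      have h5 : s < b.val + 1 := h3
      omega
    refine ⟨h0, b, x, y, rfl, rfl, hb, ?_⟩
    have h2 : y - x ≠ 0 := by
      intro h5
      apply h0
      rw [sub_eq_zero.mp h5]
    have hval : (y - x).val ≠ 0 := by
      rw [ne_eq, ZMod.val_eq_zero]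
      exact h2
    have hlt := ZMod.val_lt (y - x)
    by_cases h3 : (y - x).val ≤ (p - 1) / 2
    · refine ⟨(y - x).val, by omega, h3, Or.inl ?_⟩
      rw [ZMod.natCast_zmod_val]
      ring
    · refine ⟨p - (y - x).val, by omega, by omega, Or.inr ?_⟩
      rw [Nat.cast_sub hlt.le, ZMod.natCast_zmod_val, ZMod.natCast_self]
      ring

theorem FZ_top {n q : ℕ} {P : SimpleGraph (Fin n) → Prop} (hP : GP n q P) (r p s g : ℕ)
    [hpf : Fact p.Prime] (hp : 2 < p) (hs : s < 3) :
    fV P r p (g ||| zl s) ≤ FZ P r p s ((p - 1) / 2) g := by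
  have : NeZero p := ⟨by omega⟩
  rw [← FZ_zero hP r p s (g ||| zl s)]
  refine FZ_le P r p s 0 _ s _ g (PV_mono hP ?_)
  rw [PG_or, CZ_zero, sup_bot_eq]
  exact sup_le_sup_left (zl_le_CZ r p s hp hs) _

/-- the shift of the blocks `≥ s` -/
def sh (s : ℕ) (c : Fin 3) (b : Fin 5) : Fin 5 :=
  ⟨(if s ≤ b.val then s + (b.val - s + c.val) % (5 - s) else b.val) % 5, Nat.mod_lt _ (by norm_num)⟩

theorem sh_ge : ∀ (s : Fin 3) (c : Fin 3) (b : Fin 5), s.val ≤ b.val → s.val ≤ (sh s.val c b).val := by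
  decide +kernel

theorem sh_lt : ∀ (s : Fin 3) (c : Fin 3) (b : Fin 5), b.val < s.val → sh s.val c b = b := by
  decide +kernel

theorem sh_inj : ∀ (s : Fin 3) (c : Fin 3) (b b' : Fin 5), sh s.val c b = sh s.val c b' →
    b = b' := by
  decide +kernel

theorem sh_ne : ∀ (s : Fin 3) (c c' : Fin 3) (b : Fin 5), s.val ≤ b.val → c ≠ c' →
    sh s.val c b ≠ sh s.val c' b := by
  decide +kernel

/-- `X` has no edges inside of the blocks `≥ s`, in `X'` these blocks are joined, a part joined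
to one of them in `X` is joined to all of them in `X'`, the other edges are kept -/
def okS (s X X' : ℕ) : Bool := (List.range 6).all (fun a => (List.range 6).all (fun b =>
  !(pb X a b) || (decide (a ≤ s) && decide (b ≤ s) && pb X' a b) ||
    (decide (a ≤ s) && decide (s < b) &&
      (List.range 6).all (fun c => decide (c ≤ s) || pb X' a c)) ||
    (decide (s < a) && decide (b ≤ s) &&
      (List.range 6).all (fun c => decide (c ≤ s) || pb X' c b)))) &&
  (List.range 6).all (fun a => (List.range 6).all (fun b =>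
    decide (a ≤ s) || decide (b ≤ s) || (a == b) || pb X' a b))

theorem okS_spec (s X X' : ℕ) (h : okS s X X' = true) :
    (∀ A B : Fin 6, pm X A B = true → (A.val ≤ s ∧ B.val ≤ s ∧ pm X' A B = true) ∨
      (A.val ≤ s ∧ s < B.val ∧ ∀ C : Fin 6, s < C.val → pm X' A C = true) ∨
      (s < A.val ∧ B.val ≤ s ∧ ∀ C : Fin 6, s < C.val → pm X' C B = true)) ∧
    (∀ A B : Fin 6, s < A.val → s < B.val → A ≠ B → pm X' A B = true) := by
  unfold okS at h
  simp only [Bool.and_eq_true, Bool.or_eq_true, List.all_eq_true, List.mem_range,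
    decide_eq_true_eq, Bool.not_eq_true', beq_iff_eq] at h
  obtain ⟨h1, h2⟩ := h
  constructor
  · intro A B hAB
    rcases h1 A.val A.isLt B.val B.isLt with ((h3 | h3) | h3) | h3
    · have : pm X A B = false := h3
      rw [this] at hAB
      exact Bool.noConfusion hAB
    · exact Or.inl ⟨h3.1.1, h3.1.2, h3.2⟩
    · refine Or.inr (Or.inl ⟨h3.1.1, h3.1.2, fun C hC => ?_⟩)
      rcases h3.2 C.val C.isLt with h4 | h4
      · omega
      · exact h4
    · refine Or.inr (Or.inr ⟨h3.1.1, h3.1.2, fun C hC => ?_⟩)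
      rcases h3.2 C.val C.isLt with h4 | h4
      · omega
      · exact h4
  · intro A B hA hB hAB
    rcases h2 A.val A.isLt B.val B.isLt with ((h3 | h3) | h3) | h3
    · omega
    · omega
    · exact absurd (Fin.ext h3) hAB
    · exact h3

/-- one step of the chain -/
theorem stepZ {n q : ℕ} {P : SimpleGraph (Fin n) → Prop} (hP : GP n q P) (r p s t : ℕ)
    [hpf : Fact p.Prime] (hs : s < 3) (ht : 1 ≤ t) (htp : 2 * t < p) (X X' : ℕ)
    (h : okS s X X' = true) : FZ P r p s t X ≤ FZ P r p s (t - 1) X' := by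
  obtain ⟨hX, hX'⟩ := okS_spec s X X' h
  refine FZ_le P r p s t X s (t - 1) X' ?_
  haveI : NeZero p := ⟨by omega⟩
  let f : Fin 5 × ZMod p → Fin 5 × ZMod p := fun u =>
    if s ≤ u.1.val then (sh s (chb_col p t u.2.val) u.1, (chb_pos p t u.2.val : ZMod p)) else u
  have hf1 : ∀ (b : Fin 5) (x : ZMod p), s ≤ b.val →
      f (b, x) = (sh s (chb_col p t x.val) b, (chb_pos p t x.val : ZMod p)) := by
    intro b x hb
    show (if s ≤ b.val then _ else _) = _
    rw [if_pos hb]
  have hf2 : ∀ (b : Fin 5) (x : ZMod p), b.val < s → f (b, x) = (b, x) := by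
    intro b x hb
    show (if s ≤ b.val then _ else _) = _
    rw [if_neg (by omega)]
  have hinj : Function.Injective f := by
    rintro ⟨a, i⟩ ⟨b, j⟩ h
    by_cases ha : s ≤ a.val
    · by_cases hb : s ≤ b.val
      · rw [hf1 a i ha, hf1 b j hb] at h
        have h1 := congrArg Prod.fst h
        have h2 := congrArg Prod.snd h
        simp only at h1 h2
        rw [ZMod.natCast_eq_natCast_iff'] at h2
        rw [Nat.mod_eq_of_lt (chb_pos_lt (ZMod.val_lt i)),
          Nat.mod_eq_of_lt (chb_pos_lt (ZMod.val_lt j))] at h2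
        have h3 := chb_pos_inj (ZMod.val_lt i) (ZMod.val_lt j) h2
        have h4 : i = j := ZMod.val_injective p h3
        subst h4
        rw [sh_inj ⟨s, hs⟩ _ a b h1]
      · rw [hf1 a i ha, hf2 b j (by omega)] at h
        have h1 := congrArg Prod.fst h
        simp only at h1
        have h2 := sh_ge ⟨s, hs⟩ (chb_col p t i.val) a ha
        simp only at h2
        rw [h1] at h2
        exact absurd h2 hb
    · by_cases hb : s ≤ b.val
      · rw [hf2 a i (by omega), hf1 b j hb] at h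
        have h1 := congrArg Prod.fst h
        simp only at h1
        have h2 := sh_ge ⟨s, hs⟩ (chb_col p t j.val) b hb
        simp only at h2
        rw [← h1] at h2
        exact absurd h2 ha
      · rw [hf2 a i (by omega), hf2 b j (by omega)] at h
        exact h
  have hbij : Function.Bijective f := Finite.injective_iff_bijective.mp hinj
  have hne' : ∀ u v : Fin 5 × ZMod p, u ≠ v → f u ≠ f v := fun u v h1 h2 => h1 (hinj h2)
  let e : W 5 r p ≃ W 5 r p := Equiv.sumCongr (Equiv.refl _) (Equiv.ofBijective f hbij)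
  have heb : ∀ u : Fin 5 × ZMod p, e (Sum.inr u) = Sum.inr (f u) := fun u => rfl
  have hea : ∀ a : Fin r, e (Sum.inl a) = Sum.inl a := fun a => rfl
  -- the circulant edges
  have key : ∀ (b : Fin 5) (i j : ZMod p) (d : ℕ), s ≤ b.val → 1 ≤ d → d ≤ t → j = i + d →
      (PG (pm X') ⊔ CZ r p s (t - 1) : SimpleGraph (W 5 r p)).Adj (Sum.inr (f (b, i)))
        (Sum.inr (f (b, j))) := by
    intro b i j d hb h1 h2 hij
    have hIlt := ZMod.val_lt i
    have hne : i ≠ j := by
      rintro rfl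
      have h3 : ((d : ℕ) : ZMod p) = 0 := by
        have := hij
        rwa [left_eq_add] at this
      rw [ZMod.natCast_eq_zero_iff] at h3
      have := Nat.le_of_dvd (by omega) h3
      omega
    have hfne : (Sum.inr (f (b, i)) : W 5 r p) ≠ Sum.inr (f (b, j)) := by
      intro h3
      exact hne' (b, i) (b, j) (fun h4 => hne (congrArg Prod.snd h4)) (Sum.inr_injective h3)
    have hJ : j.val = (i.val + d) % p := by
      rw [hij, ZMod.val_add, ZMod.val_natCast, Nat.add_mod_mod]
    have hdiff : chb_col p t i.val ≠ chb_col p t j.val →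
        (PG (pm X') ⊔ CZ r p s (t - 1) : SimpleGraph (W 5 r p)).Adj (Sum.inr (f (b, i)))
        (Sum.inr (f (b, j))) := by
      intro hc
      rw [SimpleGraph.sup_adj]
      left
      refine ⟨hfne, ?_⟩
      rw [ad_pm, hf1 b i hb, hf1 b j hb]
      have h3 := sh_ne ⟨s, hs⟩ _ _ b hb hc
      have h4 := sh_ge ⟨s, hs⟩ (chb_col p t i.val) b hb
      have h5 := sh_ge ⟨s, hs⟩ (chb_col p t j.val) b hb
      simp only at h3 h4 h5
      refine hX' _ _ ?_ ?_ ?_
      · show s < (sh s (chb_col p t i.val) b).val + 1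
        omega
      · show s < (sh s (chb_col p t j.val) b).val + 1
        omega
      · exact fun h6 => h3 (Fin.succ_injective _ h6)
    by_cases hw : i.val + d < p
    · rw [Nat.mod_eq_of_lt hw] at hJ
      by_cases hc : chb_col p t i.val = chb_col p t (i.val + d)
      · obtain ⟨d', h3, h4, h5⟩ := chb_key htp h1 h2 hw hc
        rw [SimpleGraph.sup_adj]
        right
        refine ⟨hfne, sh s (chb_col p t i.val) b, (chb_pos p t i.val : ZMod p),
          (chb_pos p t j.val : ZMod p), ?_, ?_, ?_, d', h3, h4, Or.inl ?_⟩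
        · rw [hf1 b i hb]
        · rw [hf1 b j hb, hJ, hc]
        · exact sh_ge ⟨s, hs⟩ _ b hb
        · rw [hJ, h5]
          push_cast
          ring
      · exact hdiff (by rw [hJ]; exact hc)
    · have hJ' : j.val = i.val + d - p := by
        rw [hJ, Nat.mod_eq_sub_mod (by omega), Nat.mod_eq_of_lt (by omega)]
      refine hdiff fun h4 => ?_
      unfold chb_col at h4
      rw [if_pos (by omega), if_neg (by omega)] at h4
      split_ifs at h4 <;> exact absurd h4 (by decide)
  refine PV.mono hP e ?_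
  intro u v huv
  rw [SimpleGraph.sup_adj] at huv
  rcases huv with huv | huv
  · rw [SimpleGraph.sup_adj]
    left
    refine ⟨fun h1 => huv.1 (e.injective h1), ?_⟩
    have h2 := huv.2
    rw [ad_pm] at h2
    rw [ad_pm]
    -- the parts of the images
    have hp1 : ∀ w : W 5 r p, (prt w).val ≤ s → prt (e w) = prt w := by
      rintro (a | ⟨b, x⟩) hw
      · rfl
      · have hb : b.val < s := hw
        rw [heb, hf2 b x hb]
    have hp2 : ∀ w : W 5 r p, s < (prt w).val → s < (prt (e w)).val := by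
      rintro (a | ⟨b, x⟩) hw
      · exact absurd hw (by simp [prt])
      · have hb : s ≤ b.val := by
          have : s < b.val + 1 := hw
          omega
        rw [heb, hf1 b x hb]
        have h4 := sh_ge ⟨s, hs⟩ (chb_col p t x.val) b hb
        show s < (sh s (chb_col p t x.val) b).val + 1
        simp only at h4
        omega
    rcases hX _ _ h2 with ⟨h3, h4, h5⟩ | ⟨h3, h4, h5⟩ | ⟨h3, h4, h5⟩
    · rw [hp1 u h3, hp1 v h4]
      exact h5
    · rw [hp1 u h3]
      exact h5 _ (hp2 v h4)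
    · rw [hp1 v h4]
      exact h5 _ (hp2 u h3)
  · obtain ⟨_, b, x, y, rfl, rfl, hb, d, h1, h2, h3⟩ := huv
    rw [heb, heb]
    rcases h3 with h3 | h3
    · exact key b x y d hb h1 h2 h3
    · exact (key b y x d hb h1 h2 h3).symm

/-- the critical level -/
theorem levelZ {n q : ℕ} {P : SimpleGraph (Fin n) → Prop} (hP : GP n q P) (r p s : ℕ)
    [hpf : Fact p.Prime] (hp : 2 < p) (hs : s < 3) (X : ℕ) (h0 : fV P r p X = 0)
    (h1 : fV P r p (X ||| zl s) = 1) :
    ∃ t : ℕ, FZ P r p s t X = 0 ∧ ∀ X' : ℕ, okS s X X' = true → FZ P r p s t X' = 1 := by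
  classical
  haveI : NeZero p := ⟨by omega⟩
  have hodd : p % 2 = 1 := by
    rcases (Fact.out : p.Prime).eq_two_or_odd with h3 | h3
    · omega
    · exact h3
  have h2 : FZ P r p s ((p - 1) / 2) X = 1 := by
    have h3 := FZ_top hP r p s X hp hs
    rw [h1] at h3
    rcases FZ01 P r p s ((p - 1) / 2) X with h4 | h4
    · omega
    · exact h4
  have hex : ∃ t : ℕ, FZ P r p s t X = 1 := ⟨_, h2⟩
  have h3 := Nat.find_spec hex
  have h4 : Nat.find hex ≠ 0 := by
    intro h5
    rw [h5, FZ_zero hP, h0] at h3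
    exact absurd h3 (by norm_num)
  have h5 : Nat.find hex ≤ (p - 1) / 2 := Nat.find_min' hex h2
  refine ⟨Nat.find hex - 1, ?_, fun X' hX' => ?_⟩
  · have h6 := Nat.find_min hex (m := Nat.find hex - 1) (by omega)
    rcases FZ01 P r p s (Nat.find hex - 1) X with h7 | h7
    · exact h7
    · exact absurd h7 h6
  · have h6 := stepZ hP r p s (Nat.find hex) hs (by omega) (by omega) X X' hX'
    rw [h3] at h6
    rcases FZ01 P r p s (Nat.find hex - 1) X' with h7 | h7
    · omega
    · exact h7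

end Pool.Agent.L0h93.Karp.M5
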