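import Mathlib
import Pool.Agent.L0h93.Karp.SnapA

set_option autoImplicit false

/-! MP_257582_lc: snapshots: dominance and relations. -/

namespace Pool.Agent.L0h93.Karp.M5

open Finset
open Pool.Agent.H98R2.Ev (EV toG NE)
open Pool.Agent.H119R2.Kp Pool.Agent.N593.Karp
open Pool.Agent.H119R2.Kp.RelAux (PV_mono)

/-- a graph inside of the blocks `≥ s`, the same in all blocks, invariant under translations -/
structure BC (r p s : ℕ) (C : SimpleGraph (W 5 r p)) : Prop where
  sup : ∀ u v, C.Adj u v → ∃ (b : Fin 5) (x y : ZMod p), u = Sum.inr (b, x) ∧ v = Sum.inr (b, y) ∧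
    s ≤ b.val
  inv : ∀ (b c : Fin 5) (x y d : ZMod p), s ≤ c.val → C.Adj (Sum.inr (b, x)) (Sum.inr (b, y)) →
    C.Adj (Sum.inr (c, x + d)) (Sum.inr (c, y + d))

open Classical in
/-- value of `P` on the pattern `g` with the graph `C` -/
noncomputable def FC {n : ℕ} (P : SimpleGraph (Fin n) → Prop) (r p : ℕ)
    (C : SimpleGraph (W 5 r p)) (g : ℕ) : ℤ :=
  if PV P (W 5 r p) (PG (pm g) ⊔ C) then 1 else 0

theorem FC01 {n : ℕ} (P : SimpleGraph (Fin n) → Prop) (r p : ℕ) (C : SimpleGraph (W 5 r p))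
    (g : ℕ) : FC P r p C g = 0 ∨ FC P r p C g = 1 := by
  unfold FC
  split_ifs
  · exact Or.inr rfl
  · exact Or.inl rfl

theorem FC_le {n : ℕ} (P : SimpleGraph (Fin n) → Prop) (r p : ℕ) (C C' : SimpleGraph (W 5 r p))
    (g g' : ℕ)
    (h : PV P (W 5 r p) (PG (pm g) ⊔ C) → PV P (W 5 r p) (PG (pm g') ⊔ C')) :
    FC P r p C g ≤ FC P r p C' g' := by
  unfold FC
  by_cases h1 : PV P (W 5 r p) (PG (pm g) ⊔ C)
  · rw [if_pos h1, if_pos (h h1)]
  · rw [if_neg h1]
    split_ifs <;> norm_num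

theorem BC_CZ (r p s t : ℕ) : BC r p s (CZ r p s t) where
  sup := by
    rintro u v ⟨_, b, x, y, hu, hv, hs, _⟩
    exact ⟨b, x, y, hu, hv, hs⟩
  inv := by
    rintro b c x y d hc ⟨h0, b', x', y', hu, hv, hs, e, h1, h2, h3⟩
    have hu' := Sum.inr_injective hu
    have hv' := Sum.inr_injective hv
    rw [Prod.mk.injEq] at hu' hv'
    obtain ⟨rfl, rfl⟩ := hu'
    obtain ⟨_, rfl⟩ := hv'
    refine ⟨?_, c, x + d, y + d, rfl, rfl, hc, e, h1, h2, ?_⟩
    · intro h4
      apply h0
      have h5 := Sum.inr_injective h4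
      rw [Prod.mk.injEq] at h5
      rw [add_right_cancel h5.2]
    · rcases h3 with h3 | h3
      · left; rw [h3]; ring
      · right; rw [h3]; ring

/-- the complement of the circulant graphs in the blocks `≥ s` -/
def CD (r p s t : ℕ) : SimpleGraph (W 5 r p) where
  Adj u v := u ≠ v ∧ ∃ (b : Fin 5) (x y : ZMod p), u = Sum.inr (b, x) ∧ v = Sum.inr (b, y) ∧
    s ≤ b.val ∧ ¬ ∃ d : ℕ, 1 ≤ d ∧ d ≤ t ∧ (y = x + d ∨ x = y + d)
  symm := ⟨by
    rintro u v ⟨h, b, x, y, hu, hv, hs, h1⟩
    refine ⟨h.symm, b, y, x, hv, hu, hs, ?_⟩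
    rintro ⟨d, h2, h3, h4⟩
    exact h1 ⟨d, h2, h3, h4.symm⟩⟩
  loopless := ⟨fun _ h => h.1 rfl⟩

theorem BC_CD (r p s t : ℕ) : BC r p s (CD r p s t) where
  sup := by
    rintro u v ⟨_, b, x, y, hu, hv, hs, _⟩
    exact ⟨b, x, y, hu, hv, hs⟩
  inv := by
    rintro b c x y d hc ⟨h0, b', x', y', hu, hv, hs, h1⟩
    have hu' := Sum.inr_injective hu
    have hv' := Sum.inr_injective hv
    rw [Prod.mk.injEq] at hu' hv'
    obtain ⟨rfl, rfl⟩ := hu'
    obtain ⟨_, rfl⟩ := hv'
    refine ⟨?_, c, x + d, y + d, rfl, rfl, hc, ?_⟩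
    · intro h4
      apply h0
      have h5 := Sum.inr_injective h4
      rw [Prod.mk.injEq] at h5
      rw [add_right_cancel h5.2]
    · rintro ⟨e, h2, h3, h4⟩
      refine h1 ⟨e, h2, h3, ?_⟩
      rcases h4 with h4 | h4
      · left
        have h5 : y + d = (x + e) + d := by rw [h4]; ring
        exact add_right_cancel h5
      · right
        have h5 : x + d = (y + e) + d := by rw [h4]; ring
        exact add_right_cancel h5

/-- the permutation `π` preserves the blocks `≥ s` -/
def okZP (s π : ℕ) : Bool := (List.range 6).all (fun a => decide (s < a) == decide (s < pv π a))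

/-- domination check for the snapshots -/
def okDZ (s i π g g' : ℕ) : Bool := decide (i ≤ s) && okZP s π && okD i π g g'

/-- the exchange of the fixed part with a piece of the block `j` -/
def exf (r p : ℕ) (j : Fin 5) : W 5 r p → W 5 r p
  | Sum.inl a => Sum.inr (j, (a.val : ZMod p))
  | Sum.inr (b, u) => if h : b = j ∧ u.val < r then Sum.inl ⟨u.val, h.2⟩ else Sum.inr (b, u)

theorem exf_inv (r p : ℕ) [NeZero p] (hrp : r ≤ p) (j : Fin 5) :
    Function.Involutive (exf r p j) := by
  rintro (a | ⟨b, u⟩)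
  · have h1 : ((a.val : ℕ) : ZMod p).val = a.val := by
      rw [ZMod.val_natCast, Nat.mod_eq_of_lt (lt_of_lt_of_le a.isLt hrp)]
    show (if h : j = j ∧ ((a.val : ℕ) : ZMod p).val < r then
      (Sum.inl ⟨((a.val : ℕ) : ZMod p).val, h.2⟩ : W 5 r p) else
      Sum.inr (j, ((a.val : ℕ) : ZMod p))) = _
    rw [dif_pos ⟨rfl, by rw [h1]; exact a.isLt⟩]
    congr 1
    exact Fin.ext h1
  · by_cases h : b = j ∧ u.val < r
    · have h1 : exf r p j (Sum.inr (b, u)) = Sum.inl ⟨u.val, h.2⟩ := by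
        show (if h : b = j ∧ u.val < r then _ else _) = _
        rw [dif_pos h]
      rw [h1]
      show (Sum.inr (j, ((u.val : ℕ) : ZMod p)) : W 5 r p) = _
      rw [ZMod.natCast_zmod_val, h.1]
    · have h1 : exf r p j (Sum.inr (b, u)) = Sum.inr (b, u) := by
        show (if h : b = j ∧ u.val < r then _ else _) = _
        rw [dif_neg h]
      rw [h1, h1]

/-- a permutation of the parts comes from a permutation of the blocks -/
theorem perm_blocks (σ : Equiv.Perm (Fin 6)) (h0 : σ 0 = 0) : ∃ ρ : Equiv.Perm (Fin 5),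
    ∀ b : Fin 5, (ρ b).succ = σ b.succ := by
  have hne : ∀ b : Fin 5, σ b.succ ≠ 0 := by
    intro b h
    exact Fin.succ_ne_zero b (σ.injective (h.trans h0.symm))
  let f : Fin 5 → Fin 5 := fun b => (σ b.succ).pred (hne b)
  have hf : ∀ b, (f b).succ = σ b.succ := fun b => Fin.succ_pred _ _
  have hinj : Function.Injective f := by
    intro b c h
    have h1 := congrArg Fin.succ h
    rw [hf, hf] at h1
    exact Fin.succ_injective _ (σ.injective h1)
  exact ⟨Equiv.ofBijective f (Finite.injective_iff_bijective.mp hinj), hf⟩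

theorem domZ {n q : ℕ} {P : SimpleGraph (Fin n) → Prop} (hP : GP n q P) (r p : ℕ) (hrp : r ≤ p)
    [NeZero p] (s : ℕ) (C : SimpleGraph (W 5 r p)) (hC : BC r p s C) (i π g g' : ℕ)
    (h : okDZ s i π g g' = true) : FC P r p C g ≤ FC P r p C g' := by
  unfold okDZ at h
  rw [Bool.and_eq_true, Bool.and_eq_true, decide_eq_true_eq] at h
  obtain ⟨⟨his, hZ⟩, h⟩ := h
  have hZ' : ∀ a : Fin 6, s < a.val ↔ s < pv π a.val := by
    unfold okZP at hZ
    rw [List.all_eq_true] at hZ
    intro a
    have h1 := hZ a.val (List.mem_range.mpr a.isLt)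
    rw [beq_iff_eq] at h1
    rw [← decide_eq_decide]
    exact h1
  unfold okD at h
  simp only [Bool.and_eq_true, List.all_eq_true, decide_eq_true_eq, List.mem_range,
    Bool.or_eq_true, Bool.not_eq_true'] at h
  obtain ⟨⟨hπ, hi⟩, h3⟩ := h
  obtain ⟨σ, hσ0, hσ⟩ := okP_perm π hπ
  obtain ⟨ρ, hρ⟩ := perm_blocks σ hσ0
  have hρs : ∀ b : Fin 5, s ≤ b.val → s ≤ (ρ b).val := by
    intro b hb
    have h1 := (hZ' b.succ).mp (by show s < b.val + 1; omega)
    rw [← hσ, ← hρ] at h1
    have h2 : s < (ρ b).val + 1 := h1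
    omega
  have key : ∀ a b u v : Fin 6, pm g a b = true → u.val ∈ sp i a.val → v.val ∈ sp i b.val →
      pm g' (σ u) (σ v) = true := by
    intro a b u v hab hu hv
    rcases h3 a.val a.isLt b.val b.isLt with h4 | h4
    · exfalso
      have : pm g a b = false := h4
      rw [this] at hab
      exact Bool.noConfusion hab
    · have := h4 u.val hu v.val hv
      unfold pm
      rw [hσ, hσ]
      exact this
  -- the exchange
  obtain ⟨x, hx1, hx2⟩ : ∃ x : Equiv.Perm (W 5 r p), (∀ w, (prt (x w)).val ∈ sp i (prt w).val) ∧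
      ∀ (b : Fin 5) (u : ZMod p), s ≤ b.val → x (Sum.inr (b, u)) = Sum.inr (b, u) := by
    by_cases hi0 : i = 0
    · refine ⟨1, fun w => ?_, fun b u _ => rfl⟩
      rw [Equiv.Perm.one_apply]
      simp [sp, hi0]
    · have hj : i - 1 < 5 := by omega
      set j : Fin 5 := ⟨i - 1, hj⟩ with hjd
      have hjs : j.succ.val = i := by
        show i - 1 + 1 = i
        omega
      refine ⟨(exf_inv r p hrp j).toPerm, ?_, ?_⟩
      · rintro (a | ⟨b, u⟩)
        · show (prt (Sum.inr (j, (a.val : ZMod p)) : W 5 r p)).val ∈ sp i 0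
          show j.succ.val ∈ sp i 0
          rw [hjs]
          simp [sp, hi0]
        · show (prt (exf r p j (Sum.inr (b, u)))).val ∈ sp i (b.succ).val
          by_cases h : b = j ∧ u.val < r
          · have h1 : exf r p j (Sum.inr (b, u)) = Sum.inl ⟨u.val, h.2⟩ := by
              show (if h : b = j ∧ u.val < r then _ else _) = _
              rw [dif_pos h]
            rw [h1]
            have h2 : (b.succ).val = i := by rw [h.1, hjs]
            show 0 ∈ sp i (b.succ).val
            rw [h2]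
            simp [sp, hi0]
          · have h1 : exf r p j (Sum.inr (b, u)) = Sum.inr (b, u) := by
              show (if h : b = j ∧ u.val < r then _ else _) = _
              rw [dif_neg h]
            rw [h1]
            show (b.succ).val ∈ sp i (b.succ).val
            have h2 : (b.succ).val ≠ 0 := by
              show b.val + 1 ≠ 0
              omega
            unfold sp
            rw [if_neg hi0, if_neg h2]
            split_ifs with h3
            · rw [h3]; simp
            · simp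
      · intro b u hb
        show exf r p j (Sum.inr (b, u)) = _
        show (if h : b = j ∧ u.val < r then _ else _) = _
        rw [dif_neg]
        rintro ⟨h1, _⟩
        rw [h1] at hb
        have : s ≤ i - 1 := hb
        omega
  refine FC_le P r p C C g g' (PV.mono hP (x.trans (rc ρ (fun _ => 1))) ?_)
  have hprt : ∀ w : W 5 r p, prt ((x.trans (rc ρ (fun _ => 1))) w) = σ (prt (x w)) := by
    intro w
    rw [Equiv.trans_apply, prt_rc]
    rcases hw : x w with a | ⟨b, u⟩
    · show (0 : Fin 6) = σ 0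
      rw [hσ0]
    · show (ρ b).succ = σ b.succ
      exact hρ b
  intro u v huv
  rw [SimpleGraph.sup_adj] at huv ⊢
  rcases huv with huv | huv
  · left
    refine ⟨fun h1 => huv.1 ((x.trans (rc ρ (fun _ => 1))).injective h1), ?_⟩
    have h2 := huv.2
    rw [ad_pm] at h2
    rw [ad_pm, hprt, hprt]
    exact key _ _ _ _ h2 (hx1 u) (hx1 v)
  · right
    obtain ⟨b, y, z, rfl, rfl, hb⟩ := hC.sup _ _ huv
    rw [Equiv.trans_apply, hx2 b y hb, rc_inr, Units.val_one, one_mul, Equiv.trans_apply,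
      hx2 b z hb, rc_inr, Units.val_one, one_mul]
    have h5 := hC.inv b (ρ b) y z 0 (hρs b hb) huv
    rwa [add_zero, add_zero] at h5

/-- the same pattern up to a permutation which preserves the blocks `≥ s` -/
def okEZ (s π g g' : ℕ) : Bool := okZP s π && okE π g g'

theorem okE_D (π g g' : ℕ) (h : okE π g g' = true) : okD 0 π g g' = true := by
  unfold okE at h
  unfold okD
  rw [Bool.and_eq_true] at h
  rw [Bool.and_eq_true, Bool.and_eq_true]
  refine ⟨⟨h.1, by decide⟩, ?_⟩
  have h2 := h.2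
  rw [List.all_eq_true] at h2 ⊢
  intro a ha
  have h3 := h2 a ha
  rw [List.all_eq_true] at h3 ⊢
  intro b hb
  have h4 := h3 b hb
  rw [beq_iff_eq] at h4
  simp only [sp, if_true, List.all_cons, List.all_nil, Bool.and_true]
  rw [← h4]
  cases pb g a b <;> rfl

theorem perZ_le {n q : ℕ} {P : SimpleGraph (Fin n) → Prop} (hP : GP n q P) (r p : ℕ)
    (hrp : r ≤ p) [NeZero p] (s : ℕ) (C : SimpleGraph (W 5 r p)) (hC : BC r p s C) (π g g' : ℕ)
    (h : okEZ s π g g' = true) : FC P r p C g ≤ FC P r p C g' := by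
  unfold okEZ at h
  rw [Bool.and_eq_true] at h
  refine domZ hP r p hrp s C hC 0 π g g' ?_
  unfold okDZ
  rw [Bool.and_eq_true, Bool.and_eq_true]
  exact ⟨⟨by simp, h.1⟩, okE_D π g g' h.2⟩

/-- the reverse inequality -/
theorem perZ_ge {n q : ℕ} {P : SimpleGraph (Fin n) → Prop} (hP : GP n q P) (r p : ℕ)
    [NeZero p] (s : ℕ) (C : SimpleGraph (W 5 r p)) (hC : BC r p s C) (π g g' : ℕ)
    (h : okEZ s π g g' = true) : FC P r p C g' ≤ FC P r p C g := by
  unfold okEZ at h
  rw [Bool.and_eq_true] at h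
  obtain ⟨hZ, h⟩ := h
  have hZ' : ∀ a : Fin 6, s < a.val ↔ s < pv π a.val := by
    unfold okZP at hZ
    rw [List.all_eq_true] at hZ
    intro a
    have h1 := hZ a.val (List.mem_range.mpr a.isLt)
    rw [beq_iff_eq] at h1
    rw [← decide_eq_decide]
    exact h1
  unfold okE at h
  simp only [Bool.and_eq_true, List.all_eq_true, List.mem_range, beq_iff_eq] at h
  obtain ⟨hπ, h3⟩ := h
  obtain ⟨σ, hσ0, hσ⟩ := okP_perm π hπ
  obtain ⟨ρ, hρ⟩ := perm_blocks σ hσ0
  have key : ∀ a b : Fin 6, pm g a b = pm g' (σ a) (σ b) := by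
    intro a b
    unfold pm
    rw [hσ, hσ]
    exact h3 a.val a.isLt b.val b.isLt
  have hρs : ∀ b : Fin 5, s ≤ b.val ↔ s ≤ (ρ b).val := by
    intro b
    have h1 := hZ' b.succ
    rw [← hσ, ← hρ] at h1
    have h2 : s < b.val + 1 ↔ s < (ρ b).val + 1 := h1
    omega
  refine FC_le P r p C C g' g (PV.mono hP (rc ρ (fun _ => 1)).symm ?_)
  have hprt : ∀ w : W 5 r p, σ (prt ((rc ρ (fun _ => (1 : (ZMod p)ˣ))).symm w)) = prt w := by
    intro w
    obtain ⟨w', rfl⟩ := (rc ρ (fun _ => (1 : (ZMod p)ˣ))).surjective w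
    rw [Equiv.symm_apply_apply, prt_rc]
    rcases w' with a | ⟨b, u⟩
    · show σ 0 = 0
      exact hσ0
    · show σ b.succ = (ρ b).succ
      exact (hρ b).symm
  intro u v huv
  rw [SimpleGraph.sup_adj] at huv ⊢
  rcases huv with huv | huv
  · left
    refine ⟨fun h1 => huv.1 ((rc ρ (fun _ => 1)).symm.injective h1), ?_⟩
    have h2 := huv.2
    rw [ad_pm] at h2
    rw [ad_pm, key, hprt, hprt]
    exact h2
  · right
    obtain ⟨b, y, z, rfl, rfl, hb⟩ := hC.sup _ _ huv
    have h4 : ∀ y : ZMod p, (rc ρ (fun _ => (1 : (ZMod p)ˣ))).symm (Sum.inr (b, y) : W 5 r p) =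
        Sum.inr (ρ.symm b, y) := by
      intro y
      rw [Equiv.symm_apply_eq, rc_inr, Units.val_one, one_mul, Equiv.apply_symm_apply]
    have h6 : s ≤ (ρ.symm b).val := by
      rw [hρs, Equiv.apply_symm_apply]
      exact hb
    have h5 := hC.inv b (ρ.symm b) y z 0 h6 huv
    rw [add_zero, add_zero] at h5
    rw [h4 y, h4 z]
    exact h5

end Pool.Agent.L0h93.Karp.M5
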