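import Mathlib
import Pool.Agent.L0h93.Karp.SnapB

set_option autoImplicit false

/-! MP_257582_lc: snapshots: the relations. -/

namespace Pool.Agent.L0h93.Karp.M5

open Finset
open Pool.Agent.H98R2.Ev (EV toG NE)
open Pool.Agent.H119R2.Kp Pool.Agent.N593.Karp
open Pool.Agent.H119R2.Kp.RelAux (PV_mono)

/-- two vertices in the same block -/
theorem trans3Z {k r p : ℕ} [Fact p.Prime] (τ : Equiv.Perm (Fin k)) (m : Fin k → (ZMod p)ˣ)
    (μ : (ZMod p)ˣ) (hμ : ∀ ν : (ZMod p)ˣ, ν ∈ Subgroup.zpowers μ)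
    {b b' : Fin k} (hper : ∃ e : ℕ, ∀ (r : ℕ) (u : ZMod p),
      (rc τ m ^ e : Equiv.Perm (W k r p)) (Sum.inr (b', u)) = Sum.inr (b', μ * u))
    {u v u' v' : ZMod p} (h : u ≠ v) (h' : u' ≠ v') (e : ℕ)
    (h1 : (τ ^ e) b = b') :
    ∃ g ∈ GG k r p τ m, g (Sum.inr (b, u)) = Sum.inr (b', u') ∧
      g (Sum.inr (b, v)) = Sum.inr (b', v') := by
  obtain ⟨x, hx⟩ := rc_pow (r := r) τ m e b
  obtain ⟨f, hf⟩ := hper
  have hf' : ∀ (j : ℕ) (w : ZMod p), (rc τ m ^ (f * j) : Equiv.Perm (W k r p)) (Sum.inr (b', w)) =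
      Sum.inr (b', (μ : ZMod p) ^ j * w) := by
    intro j
    induction j with
    | zero => intro w; simp
    | succ j ih =>
      intro w
      rw [Nat.mul_succ, pow_add, Equiv.Perm.mul_apply, hf, ih, pow_succ, mul_assoc]
  have hxu : (x : ZMod p) * u ≠ x * v := fun h2 => h (x.mul_right_inj.mp h2)
  have hν : ∃ j : ℕ, (μ : ZMod p) ^ j * ((x : ZMod p) * u - x * v) = u' - v' := by
    have h2 : (x : ZMod p) * u - x * v ≠ 0 := sub_ne_zero.mpr hxu
    have h3 : u' - v' ≠ 0 := sub_ne_zero.mpr h'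
    have h4 := hμ ((Units.mk0 _ h3) * (Units.mk0 _ h2)⁻¹)
    rw [← mem_powers_iff_mem_zpowers] at h4
    obtain ⟨j, hj⟩ := h4
    refine ⟨j, ?_⟩
    have h5 : ((μ ^ j : (ZMod p)ˣ) : ZMod p) = (u' - v') * (x * u - x * v)⁻¹ := by
      simp only at hj
      rw [hj]
      simp
    rw [Units.val_pow_eq_pow_val] at h5
    rw [h5, mul_assoc, inv_mul_cancel₀ h2, mul_one]
  obtain ⟨j, hj⟩ := hν
  refine ⟨N593.Karp.tr b' (u' - (μ : ZMod p) ^ j * ((x : ZMod p) * u)) * rc τ m ^ (f * j) *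
    rc τ m ^ e,
    Subgroup.mul_mem _ (Subgroup.mul_mem _ (tr_memG _ _ _ _) (rc_memG _ _ _)) (rc_memG _ _ _),
    ?_, ?_⟩
  · rw [Equiv.Perm.mul_apply, Equiv.Perm.mul_apply, hx, h1, hf']
    simp
  · rw [Equiv.Perm.mul_apply, Equiv.Perm.mul_apply, hx, h1, hf']
    simp
    linear_combination -hj

theorem relTZ {n q : ℕ} {P : SimpleGraph (Fin n) → Prop} (hP : GP n q P) (r p : ℕ)
    [hpf : Fact p.Prime] (hp : 2 < p) (hn : r + 5 * p = n) (s : ℕ) (C : SimpleGraph (W 5 r p))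
    (hC : BC r p s C) (τ : Equiv.Perm (Fin 5))
    (m : Fin 5 → (ZMod p)ˣ) (μ : (ZMod p)ˣ) (hμ : ∀ ν : (ZMod p)ˣ, ν ∈ Subgroup.zpowers μ)
    (hτs : ∀ b : Fin 5, s ≤ b.val → s ≤ (τ b).val) (hms : ∀ b : Fin 5, s ≤ b.val → m b = 1)
    (hper : ∀ b : Fin 5, b.val < s → ∃ e : ℕ, ∀ (r : ℕ) (u : ZMod p),
      (rc τ m ^ e : Equiv.Perm (W 5 r p)) (Sum.inr (b, u)) = Sum.inr (b, μ * u)) {mm : ℕ}
    (Γ : Fin 6 → Fin 6 → Bool) (O : Fin mm → List (Fin 6 × Fin 6))
    (hΓs : ∀ A B, ad Γ A B = true → ad Γ (ta τ A) (ta τ B) = true)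
    (hOs : ∀ j A B, ad (pat (O j)) A B = true → ad (pat (O j)) (ta τ A) (ta τ B) = true)
    (hd : ∀ i j, i ≠ j → ∀ A B, ad (pat (O i)) A B = true → ad (pat (O j)) A B = true → False)
    (hd0 : ∀ i A B, ad Γ A B = true → ad (pat (O i)) A B = true → False)
    (hO : ∀ j, ∃ A B, ad (pat (O j)) A B = true)
    (hO0 : ∀ j A B, ad (pat (O j)) A B = true → A ≠ 0 ∧ B ≠ 0)
    (hOz : ∀ j A, ad (pat (O j)) A A = true → A.val ≤ s)
    (htr : ∀ j A B A' B', ad (pat (O j)) A B = true → ad (pat (O j)) A' B' = true → CC τ A B A' B')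
    (hq : 2 * q < ∑ j, cnt (sz 5 r p) (pat (O j))) :
    ∑ I : Finset (Fin mm), (-1 : ℤ) ^ I.card *
      (open Classical in if PV P (W 5 r p) (PG (addCls Γ O I) ⊔ C) then (1 : ℤ) else 0) =
        0 := by
  classical
  have hp0 : NeZero p := ⟨by omega⟩
  have hcard : Fintype.card (W 5 r p) = n := by
    rw [Fintype.card_sum, Fintype.card_prod, ZMod.card, Fintype.card_fin, Fintype.card_fin, hn]
  have hcardj : ∀ j, 2 * Nat.card (PG (pat (O j)) : SimpleGraph (W 5 r p)).edgeSet =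
      cnt (sz 5 r p) (pat (O j)) := fun j => card_PG 5 r p _
  have hmain := rel hP (V := W 5 r p) hcard p (fun b : Fin 5 => N593.Karp.tr b 1) (rc τ m)
    (fun i j => tr_comm i j 1 1) ?_ ?_ (PG Γ ⊔ C) (fun j => PG (pat (O j)))
    ?_ ?_ ?_ ?_ ?_ ?_ ?_ ?_ ?_
  · refine Eq.trans ?_ hmain
    apply Finset.sum_congr rfl
    intro I _
    congr 1
    have h1 : (PG Γ ⊔ C ⊔ ⨆ j ∈ I, PG (pat (O j)) : SimpleGraph (W 5 r p)) =
        PG (addCls Γ O I) ⊔ C := by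
      rw [← PG_sup, sup_right_comm]
    rw [h1]
  · intro b
    rw [tr_pow]
    simp [tr_zero]
  · intro b
    show _ * N593.Karp.tr b 1 * _ ∈ _
    rw [conj]
    exact tr_mem _ _
  · intro b u v h
    rw [SimpleGraph.sup_adj] at h ⊢
    rcases h with h | h
    · left
      refine ⟨fun h' => h.1 ((N593.Karp.tr b 1).injective h'), ?_⟩
      rw [prt_tr, prt_tr]
      exact h.2
    · right
      obtain ⟨c, y, z, rfl, rfl, hc⟩ := hC.sup _ _ h
      rw [tr_inr, tr_inr]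
      exact hC.inv c c y z _ hc h
  · intro u v h
    rw [SimpleGraph.sup_adj] at h ⊢
    rcases h with h | h
    · left
      refine ⟨fun h' => h.1 ((rc τ m).injective h'), ?_⟩
      rw [prt_rc, prt_rc]
      exact hΓs _ _ h.2
    · right
      obtain ⟨c, y, z, rfl, rfl, hc⟩ := hC.sup _ _ h
      rw [rc_inr, rc_inr, hms c hc, Units.val_one, one_mul, one_mul]
      have h5 := hC.inv c (τ c) y z 0 (hτs c hc) h
      rwa [add_zero, add_zero] at h5
  · intro j b u v h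
    refine ⟨fun h' => h.1 ((N593.Karp.tr b 1).injective h'), ?_⟩
    rw [prt_tr, prt_tr]
    exact h.2
  · intro j u v h
    refine ⟨fun h' => h.1 ((rc τ m).injective h'), ?_⟩
    rw [prt_rc, prt_rc]
    exact hOs j _ _ h.2
  · intro i j hij
    rw [disjoint_iff]
    ext u v
    simp only [SimpleGraph.inf_adj, SimpleGraph.bot_adj, iff_false, not_and]
    intro h1 h2
    exact hd i j hij _ _ h1.2 h2.2
  · intro i
    rw [disjoint_iff]
    ext u v
    simp only [SimpleGraph.inf_adj, SimpleGraph.bot_adj, iff_false, not_and]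
    intro h1 h2
    rw [SimpleGraph.sup_adj] at h1
    rcases h1 with h1 | h1
    · exact hd0 i _ _ h1.2 h2.2
    · obtain ⟨c, y, z, rfl, rfl, hc⟩ := hC.sup _ _ h1
      have h3 := hOz i c.succ h2.2
      have h4 : c.val + 1 ≤ s := h3
      omega
  · intro j
    obtain ⟨A, B, hAB⟩ := hO j
    obtain ⟨hA0, hB0⟩ := hO0 j A B hAB
    obtain ⟨A, rfl⟩ := Fin.exists_succ_eq.mpr hA0
    obtain ⟨B, rfl⟩ := Fin.exists_succ_eq.mpr hB0
    have h01 : (0 : ZMod p) ≠ 1 := zero_ne_one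
    exact ⟨Sum.inr (A, 0), Sum.inr (B, 1), by simp, hAB⟩
  · intro j u v u' v' h h'
    have c := htr j _ _ _ _ h.2 h'.2
    have h0 := hO0 j _ _ h.2
    have h0' := hO0 j _ _ h'.2
    rcases u with u | ⟨b, u⟩
    · exact absurd rfl h0.1
    rcases v with v | ⟨c1, v⟩
    · exact absurd rfl h0.2
    rcases u' with u' | ⟨b', u'⟩
    · exact absurd rfl h0'.1
    rcases v' with v' | ⟨c', v'⟩
    · exact absurd rfl h0'.2
    have hz' : b' = c' → b'.val < s := by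
      intro h3
      have h4 := h'.2
      rw [← h3] at h4
      have h5 : b'.val + 1 ≤ s := hOz j b'.succ h4
      omega
    obtain ⟨e, -, hc⟩ := c
    simp only [prt, ta_succ, Fin.succ_inj] at hc
    have hneq : ∀ {x : Fin 5} {s t : ZMod p}, (Sum.inr (x, s) : W 5 r p) ≠ Sum.inr (x, t) →
        s ≠ t := fun h h' => h (by rw [h'])
    by_cases hbc : b = c1
    · subst hbc
      rcases hc with ⟨hi, h1, h2⟩ | ⟨hi, h1, h2⟩
      · have hbc' : b' = c' := hi.mp rfl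
        have hb' := hz' hbc'
        subst hbc'
        obtain ⟨g, hg, g1, g2⟩ := trans3Z (r := r) τ m μ hμ (hper b' hb') (hneq h.1) (hneq h'.1) e h1
        exact ⟨g, hg, Or.inl ⟨g1, g2⟩⟩
      · have hbc' : b' = c' := hi.mp rfl
        have hb' := hz' hbc'
        subst hbc'
        obtain ⟨g, hg, g1, g2⟩ := trans3Z (r := r) τ m μ hμ (hper b' hb') (hneq h.1) (hneq h'.1) e h1
        exact ⟨g, hg, Or.inl ⟨g1, g2⟩⟩
    · rcases hc with ⟨hi, h1, h2⟩ | ⟨hi, h1, h2⟩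
      · obtain ⟨g, hg, g1, g2⟩ := trans2 (r := r) τ m (u := u) (v := v) (u' := u') (v' := v')
          hbc e h1 h2
        exact ⟨g, hg, Or.inl ⟨g1, g2⟩⟩
      · obtain ⟨g, hg, g1, g2⟩ := trans2 (r := r) τ m (u := u) (v := v) (u' := v') (v' := u')
          hbc e h1 h2
        exact ⟨g, hg, Or.inr ⟨g1, g2⟩⟩
  · have h3 : ∑ j, cnt (sz 5 r p) (pat (O j)) =
      2 * ∑ j, Nat.card (PG (pat (O j)) : SimpleGraph (W 5 r p)).edgeSet := by
      rw [Finset.mul_sum]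
      exact Finset.sum_congr rfl (fun j _ => (hcardj j).symm)
    rw [h3] at hq
    exact Nat.lt_of_mul_lt_mul_left hq

end Pool.Agent.L0h93.Karp.M5
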