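import Mathlib
import Pool.Agent.L0h93.Karp.SnapC
import Pool.Agent.L0h93.Karp.Hm

set_option autoImplicit false

/-! MP_257582_lc: snapshots: the statement for masks. -/

namespace Pool.Agent.L0h93.Karp.M5

open Finset
open Pool.Agent.H98R2.Ev (EV toG NE)
open Pool.Agent.H119R2.Kp Pool.Agent.N593.Karp
open Pool.Agent.H119R2.Kp.RelAux (PV_mono)

/-- classes with weights, for nine types -/
def tblZ (t : ℕ) : List (ℕ × ℕ) :=
  if t = 7 then [(32, 2), (576, 4), (1152, 4), (2304, 4), (4096, 2), (8192, 2), (16384, 2),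
    (196608, 2), (262144, 1), (524288, 1), (1048576, 1)]
  else if t = 8 then [(32, 2), (576, 4), (2176, 4), (1280, 4), (12288, 4), (16384, 2),
    (196608, 2), (262144, 1), (1572864, 2)]
  else tbl t

/-- the permutation of the blocks -/
def tauZ (t : ℕ) : Equiv.Perm (Fin 5) :=
  if t = 7 then Equiv.swap 0 1 else if t = 8 then Equiv.swap 0 1 * Equiv.swap 3 4 else tau t

/-- the images of the parts -/
def tlZ (t : ℕ) : List ℕ :=
  if t = 7 then [0, 2, 1, 3, 4, 5] else if t = 8 then [0, 2, 1, 3, 5, 4] else tl t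

/-- action on the parts -/
def tnZ (t a : ℕ) : ℕ := (tlZ t).getD a 0

/-- the blocks with multiplier `1` -/
def mlZ (t : ℕ) : List (Fin 5) := if t = 7 then [1] else if t = 8 then [1, 3] else ml t

/-- the type `t` preserves the blocks `≥ s` -/
def cmp (s t : ℕ) : Bool := (List.range 6).all (fun a => decide (s < a) == decide (s < tnZ t a))

/-- selected classes -/
def selZ (s t fm : ℕ) : List (ℕ × ℕ) :=
  (tblZ t).filter (fun w => ((fm &&& w.1) == w.1) && ((w.1 &&& zl s) == 0))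

/-- conditions on a relation -/
def okRelZ (s t fm g : ℕ) : Bool :=
  decide (t < 9) && cmp s t && (selZ s t fm).all (fun w => (g &&& w.1) == 0) &&
    decide (20 ≤ ((selZ s t fm).map Prod.snd).sum) &&
    (List.range 6).all (fun a => (List.range 6).all (fun b =>
      !(pb g a b) || pb g (tnZ t a) (tnZ t b)))

theorem ta_tauZ : ∀ t : Fin 9, ∀ a : Fin 6, (ta (tauZ t.val) a).val = tnZ t.val a.val := by
  decide +kernel

theorem tblZ_inv : ∀ t : Fin 9, ∀ w ∈ tblZ t.val, ∀ A B : Fin 6, pm w.1 A B = true →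
    pm w.1 (ta (tauZ t.val) A) (ta (tauZ t.val) B) = true := by decide +kernel

theorem tblZ_dis : ∀ t : Fin 9, (tblZ t.val).Pairwise (fun w w' => ∀ A B : Fin 6,
    pm w.1 A B = true → pm w'.1 A B = true → False) := by
  decide +kernel

theorem tblZ_ne : ∀ t : Fin 9, ∀ w ∈ tblZ t.val, ∃ A B : Fin 6, pm w.1 A B = true := by
  decide +kernel

theorem tblZ_0 : ∀ t : Fin 9, ∀ w ∈ tblZ t.val, ∀ A B : Fin 6, pm w.1 A B = true →
    A ≠ 0 ∧ B ≠ 0 := by
  decide +kernel

theorem tblZ_tr0 : ∀ t : Fin 9, ∀ w ∈ tblZ t.val, ∀ A B A' B' : Fin 6, pm w.1 A B = true →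
    pm w.1 A' B' = true →
    ∃ e < 6, ((A = B ↔ A' = B') ∧ (ta (tauZ t.val ^ e) A = A' ∧ ta (tauZ t.val ^ e) B = B') ∨
    (A = B ↔ A' = B') ∧ (ta (tauZ t.val ^ e) A = B' ∧ ta (tauZ t.val ^ e) B = A')) := by
  decide +kernel

theorem tblZ_tr (t : ℕ) (ht : t < 9) : ∀ w ∈ tblZ t, ∀ A B A' B' : Fin 6, pm w.1 A B = true →
    pm w.1 A' B' = true → CC (tauZ t) A B A' B' := by
  intro w hw A B A' B' h h'
  obtain ⟨e, he, h2⟩ := tblZ_tr0 ⟨t, ht⟩ w hw A B A' B' h h'
  exact ⟨e, by omega, h2⟩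

theorem tblZ_card : ∀ t : Fin 9, ∀ w ∈ tblZ t.val,
    (univ.filter (fun x : Fin 6 × Fin 6 => pm w.1 x.1 x.2 = true)).card = w.2 := by
  decide +kernel

theorem tblZ_cnt (r p : ℕ) (t : ℕ) (ht : t < 9) : ∀ w ∈ tblZ t,
    w.2 * (p * (p - 1)) ≤ cnt (sz 5 r p) (pm w.1) := by
  have hpp : p * (p - 1) ≤ p * p := Nat.mul_le_mul_left _ (Nat.sub_le _ _)
  have key : ∀ (w : ℕ), cnt (sz 5 r p) (pm w) =
      ∑ A : Fin 6, ∑ B : Fin 6, if pm w A B = true then
        (if A = B then sz 5 r p A * (sz 5 r p A - 1) else sz 5 r p A * sz 5 r p B) else 0 := by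
    intro w
    unfold cnt
    simp only [ad_pm]
  have low : ∀ (w : ℕ) (S : Finset (Fin 6 × Fin 6)),
      (∀ x ∈ S, x.1 ≠ 0 ∧ x.2 ≠ 0 ∧ pm w x.1 x.2 = true) →
      S.card * (p * (p - 1)) ≤ cnt (sz 5 r p) (pm w) := by
    intro w S hS
    rw [key, ← Finset.sum_product']
    rw [Finset.card_eq_sum_ones, Finset.sum_mul]
    refine le_trans ?_ (Finset.sum_le_sum_of_subset (f := fun x : Fin 6 × Fin 6 =>
      if pm w x.1 x.2 = true then (if x.1 = x.2 then sz 5 r p x.1 * (sz 5 r p x.1 - 1) else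
        sz 5 r p x.1 * sz 5 r p x.2) else 0) (Finset.subset_univ S))
    apply Finset.sum_le_sum
    intro x hx
    obtain ⟨h1, h2, h3⟩ := hS x hx
    have hs : ∀ i : Fin 6, i ≠ 0 → sz 5 r p i = p := by
      intro i hi
      obtain ⟨j, rfl⟩ := Fin.exists_succ_eq.2 hi
      rfl
    rw [if_pos h3, hs _ h1, hs _ h2, one_mul]
    split_ifs
    · exact le_refl _
    · exact hpp
  intro w hw
  rw [← tblZ_card ⟨t, ht⟩ w hw]
  refine low _ _ fun x hx => ?_
  rw [mem_filter] at hx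
  have := tblZ_0 ⟨t, ht⟩ w hw x.1 x.2 hx.2
  exact ⟨this.1, this.2, hx.2⟩

/-- multipliers -/
def muZ {p : ℕ} (s t : ℕ) (μ : (ZMod p)ˣ) (b : Fin 5) : (ZMod p)ˣ :=
  if s ≤ b.val ∨ b ∈ mlZ t then 1 else μ

theorem cycZ : ∀ s : Fin 3, ∀ t : Fin 9, cmp s.val t.val = true → ∀ b : Fin 5, b.val < s.val →
    ∃ e < 6, (tauZ t.val ^ e) b = b ∧
    ((range e).filter (fun i => ¬ (s.val ≤ ((tauZ t.val ^ i) b).val ∨
      (tauZ t.val ^ i) b ∈ mlZ t.val))).card = 1 := by
  decide +kernel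

theorem cmp_tau : ∀ s : Fin 3, ∀ t : Fin 9, cmp s.val t.val = true → ∀ b : Fin 5,
    s.val ≤ b.val → s.val ≤ (tauZ t.val b).val := by
  decide +kernel

theorem per_muZ {p : ℕ} (s t : ℕ) (hs : s < 3) (ht : t < 9) (hc : cmp s t = true)
    (μ : (ZMod p)ˣ) (b : Fin 5) (hb : b.val < s) : ∃ e : ℕ, ∀ (r : ℕ) (u : ZMod p),
      (rc (tauZ t) (muZ s t μ) ^ e : Equiv.Perm (W 5 r p)) (Sum.inr (b, u)) =
        Sum.inr (b, μ * u) := by
  obtain ⟨e, _, h1, h2⟩ := cycZ ⟨s, hs⟩ ⟨t, ht⟩ hc b hb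
  simp only at h1 h2
  refine ⟨e, fun r u => ?_⟩
  rw [rc_pow', h1]
  have h3 : (∏ i ∈ range e, muZ s t μ ((tauZ t ^ i) b)) = μ := by
    have h4 : ∀ i ∈ range e, muZ s t μ ((tauZ t ^ i) b) =
        if ¬ (s ≤ ((tauZ t ^ i) b).val ∨ (tauZ t ^ i) b ∈ mlZ t) then μ else 1 := by
      intro i _
      unfold muZ
      by_cases h : s ≤ ((tauZ t ^ i) b).val ∨ (tauZ t ^ i) b ∈ mlZ t
      · rw [if_pos h, if_neg (not_not.mpr h)]
      · rw [if_neg h, if_pos h]
    rw [prod_congr rfl h4, ← prod_filter, prod_const, h2, pow_one]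
  rw [h3]

theorem zl_loop : ∀ s : Fin 3, ∀ A : Fin 6, s.val < A.val → (zl s.val).testBit (bx A.val A.val) =
    true := by
  decide +kernel

theorem relC {n q : ℕ} {P : SimpleGraph (Fin n) → Prop} (hP : GP n q P) (r p : ℕ)
    [hpf : Fact p.Prime] (hp : 2 < p) (hn : r + 5 * p = n) (hq : q < 10 * (p * (p - 1)))
    (s : ℕ) (hs : s < 3) (C : SimpleGraph (W 5 r p)) (hC : BC r p s C)
    (t fm g : ℕ) (h : okRelZ s t fm g = true) :
    alt' (FC P r p C) ((selZ s t fm).map Prod.fst) g = 0 := by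
  classical
  have hp0 : NeZero p := ⟨by omega⟩
  obtain ⟨μ, hμ⟩ := IsCyclic.exists_generator (α := (ZMod p)ˣ)
  unfold okRelZ at h
  simp only [Bool.and_eq_true, List.all_eq_true, decide_eq_true_eq, List.mem_range, beq_iff_eq,
    Bool.or_eq_true, Bool.not_eq_true'] at h
  obtain ⟨⟨⟨⟨ht, hc⟩, h1⟩, h2⟩, h3⟩ := h
  set S := selZ s t fm with hS
  have hsub : S.Sublist (tblZ t) := List.filter_sublist
  have hmem : ∀ w ∈ S, w ∈ tblZ t := fun w hw => hsub.subset hw
  have hzl : ∀ w ∈ S, w.1 &&& zl s = 0 := by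
    intro w hw
    rw [hS, selZ, List.mem_filter, Bool.and_eq_true] at hw
    exact beq_iff_eq.mp hw.2.2
  have hdis : S.Pairwise (fun w w' => ∀ A B : Fin 6, pm w.1 A B = true →
    pm w'.1 A B = true → False) := (tblZ_dis ⟨t, ht⟩).sublist hsub
  set O : Fin S.length → List (Fin 6 × Fin 6) := fun j => Owl (S.get j).1 with hO
  have hpat : ∀ j, pat (O j) = pm (S.get j).1 := fun j => pat_Owl _
  have hin : ∀ j : Fin S.length, S.get j ∈ tblZ t := fun j => hmem _ (List.get_mem _ _)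
  have hcnt : ∑ j : Fin S.length, cnt (sz 5 r p) (pat (O j)) ≥ 20 * (p * (p - 1)) := by
    have e1 : ∑ j : Fin S.length, (S.get j).2 = (S.map Prod.snd).sum := by
      rw [← List.sum_ofFn]
      congr 1
      apply List.ext_get
      · simp
      · intro i h1 h2
        simp
    calc 20 * (p * (p - 1)) ≤ (∑ j : Fin S.length, (S.get j).2) * (p * (p - 1)) := by
          rw [e1]; exact Nat.mul_le_mul_right _ h2
      _ = ∑ j : Fin S.length, (S.get j).2 * (p * (p - 1)) := Finset.sum_mul _ _ _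
      _ ≤ _ := Finset.sum_le_sum fun j _ => by
          rw [hpat]
          exact tblZ_cnt r p t ht _ (hin j)
  have hmain := relTZ hP r p hp hn s C hC (tauZ t) (muZ s t μ) μ hμ
    (fun b hb => cmp_tau ⟨s, hs⟩ ⟨t, ht⟩ hc b hb)
    (fun b hb => by unfold muZ; rw [if_pos (Or.inl hb)])
    (fun b hb => per_muZ s t hs ht hc μ b hb) (pm g) O
    (by
      intro A B hAB
      rw [ad_pm] at hAB ⊢
      rcases h3 A.val A.isLt B.val B.isLt with h4 | h4
      · exfalso
        have : pm g A B = false := h4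
        rw [this] at hAB
        exact Bool.noConfusion hAB
      · unfold pm
        rw [ta_tauZ ⟨t, ht⟩, ta_tauZ ⟨t, ht⟩]
        exact h4)
    (by
      intro j A B hAB
      rw [hpat, ad_pm] at hAB ⊢
      exact tblZ_inv ⟨t, ht⟩ _ (hin j) A B hAB)
    (by
      intro i j hij A B h4 h5
      rw [hpat, ad_pm] at h4 h5
      rcases lt_or_gt_of_ne hij with h6 | h6
      · exact List.pairwise_iff_get.mp hdis i j h6 A B h4 h5
      · exact List.pairwise_iff_get.mp hdis j i h6 A B h5 h4)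
    (by
      intro i A B h4 h5
      rw [ad_pm] at h4
      rw [hpat, ad_pm] at h5
      have h6 := h1 _ (List.get_mem S i)
      have h7 : (g &&& (S.get i).1).testBit (bx A.val B.val) = true := by
        rw [Nat.testBit_and]
        simp only [pm, pb] at h4 h5
        rw [h4, h5]
        rfl
      rw [h6] at h7
      simp at h7)
    (by
      intro j
      obtain ⟨A, B, h4⟩ := tblZ_ne ⟨t, ht⟩ _ (hin j)
      exact ⟨A, B, by rw [hpat, ad_pm]; exact h4⟩)
    (by
      intro j A B h4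
      rw [hpat, ad_pm] at h4
      exact tblZ_0 ⟨t, ht⟩ _ (hin j) A B h4)
    (by
      intro j A h4
      rw [hpat, ad_pm] at h4
      by_contra hA
      have h6 := hzl _ (List.get_mem S j)
      have h7 : ((S.get j).1 &&& zl s).testBit (bx A.val A.val) = true := by
        rw [Nat.testBit_and, zl_loop ⟨s, hs⟩ A (show s < A.val by omega), Bool.and_true]
        exact h4
      rw [h6] at h7
      simp at h7)
    (by
      intro j A B A' B' h4 h5
      rw [hpat, ad_pm] at h4 h5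
      exact tblZ_tr t ht _ (hin j) A B A' B' h4 h5)
    (by omega)
  have hsum := sum_altP (fun Γ => if PV P (W 5 r p) (PG Γ ⊔ C) then (1 : ℤ) else 0) O
    (List.finRange S.length) (List.nodup_finRange _) (pm g)
  have hu : (List.finRange S.length).toFinset = univ := by ext i; simp
  rw [hu, powerset_univ] at hsum
  have hz := hsum.symm.trans (Eq.trans (Finset.sum_congr rfl (fun I _ => by
    refine congrArg (fun x => (-1 : ℤ) ^ I.card *
      (if PV P (W 5 r p) (PG x ⊔ C) then (1 : ℤ) else 0)) ?_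
    funext a b
    rw [Bool.eq_iff_iff]
    simp only [addCls, Bool.or_eq_true, decide_eq_true_eq])) hmain)
  have hmap : (List.finRange S.length).map (fun j => pat (O j)) = (S.map Prod.fst).map pm := by
    apply List.ext_get
    · simp
    · intro i h1 h2
      simp [hpat]
  rw [hmap, altP_pm] at hz
  exact hz

/-- **the facts on a snapshot `F` of `f`** (blocks `≥ s`, parts `> s`) -/
structure Snp (f F : ℕ → ℤ) (s : ℕ) : Prop where
  h01 : ∀ g, F g = 0 ∨ F g = 1
  lo : ∀ g, f g ≤ F g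
  hi : ∀ g, F g ≤ f (g ||| zl s)
  dom : ∀ i π g g', okDZ s i π g g' = true → F g ≤ F g'
  per : ∀ π g g', okEZ s π g g' = true → F g = F g'
  rel : ∀ t fm g, okRelZ s t fm g = true → alt' F ((selZ s t fm).map Prod.fst) g = 0

theorem BC_le_zl (r p s : ℕ) (hs : s < 3) (C : SimpleGraph (W 5 r p)) (hC : BC r p s C) :
    C ≤ PG (pm (zl s)) := by
  intro u v huv
  have hne := huv.ne
  obtain ⟨b, x, y, rfl, rfl, hb⟩ := hC.sup u v huv
  refine ⟨hne, ?_⟩
  rw [ad_pm]
  exact zl_bit ⟨s, hs⟩ b hb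

theorem FC_bot {n q : ℕ} {P : SimpleGraph (Fin n) → Prop} (hP : GP n q P) (r p g : ℕ)
    [NeZero p] : FC P r p ⊥ g = fV P r p g := by
  classical
  unfold FC fV hv
  exact if_congr (by rw [sup_bot_eq]; exact PV_PG hP 5 r p _) rfl rfl

theorem snpC {n q : ℕ} {P : SimpleGraph (Fin n) → Prop} (hP : GP n q P) {r p : ℕ}
    [hpf : Fact p.Prime] (hp : 2 < p) (hrp : r ≤ p) (hn : r + 5 * p = n)
    (hq : q < 10 * (p * (p - 1))) (s : ℕ) (hs : s < 3) (C : SimpleGraph (W 5 r p))
    (hC : BC r p s C) : Snp (fV P r p) (FC P r p C) s := by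
  have hp0 : NeZero p := ⟨by omega⟩
  refine ⟨fun g => FC01 P r p C g, fun g => ?_, fun g => ?_,
    fun i π g g' h => domZ hP r p hrp s C hC i π g g' h,
    fun π g g' h => le_antisymm (perZ_le hP r p hrp s C hC π g g' h)
      (perZ_ge hP r p s C hC π g g' h),
    fun t fm g h => relC hP r p hp hn hq s hs C hC t fm g h⟩
  · rw [← FC_bot hP r p g]
    exact FC_le P r p ⊥ C g g (PV_mono hP (by rw [sup_bot_eq]; exact le_sup_left))
  · rw [← FC_bot hP r p (g ||| zl s)]
    refine FC_le P r p C ⊥ g _ (PV_mono hP ?_)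
    rw [PG_or, sup_bot_eq]
    exact sup_le_sup_left (BC_le_zl r p s hs C hC) _

/-- **snapshot rule** -/
theorem snap {n q : ℕ} {P : SimpleGraph (Fin n) → Prop} (hP : GP n q P) {r p : ℕ}
    (har : Ar n q r p) (s : ℕ) (hs : s < 3) (X : ℕ) (h0 : fV P r p X = 0)
    (h1 : fV P r p (X ||| zl s) = 1) :
    ∃ F : ℕ → ℤ, Snp (fV P r p) F s ∧ F X = 0 ∧ ∀ X' : ℕ, okS s X X' = true → F X' = 1 := by
  have hpf : Fact p.Prime := ⟨har.hp⟩
  have hp : 2 < p := by have := har.hp3; omega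
  obtain ⟨t, h2, h3⟩ := levelZ hP r p s hp hs X h0 h1
  exact ⟨FC P r p (CZ r p s t), snpC hP hp har.hrp har.hn har.hq s hs _ (BC_CZ r p s t), h2, h3⟩

/-- no loops in the blocks `≥ s` -/
def okNL (s X : ℕ) : Bool := (List.range 6).all (fun a => decide (a ≤ s) || !(pb X a a))

/-- condition for the dual snapshots -/
def okT (s X X' : ℕ) : Bool :=
  okNL s X && okNL s X' && okS s (cpl (X ||| zl s)) (cpl (X' ||| zl s))

theorem okNL_spec (s X : ℕ) (h : okNL s X = true) (A : Fin 6) (hA : s < A.val) :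
    pm X A A = false := by
  unfold okNL at h
  rw [List.all_eq_true] at h
  have h1 := h A.val (List.mem_range.mpr A.isLt)
  rw [Bool.or_eq_true, decide_eq_true_eq] at h1
  rcases h1 with h1 | h1
  · omega
  · show pb X A.val A.val = false
    cases h2 : pb X A.val A.val
    · rfl
    · rw [h2] at h1
      exact absurd h1 (by decide)

theorem fV_congr {n : ℕ} (P : SimpleGraph (Fin n) → Prop) (r p g g' : ℕ)
    (h : ∀ A B : Fin 6, pm g A B = pm g' A B) : fV P r p g = fV P r p g' := by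
  unfold fV
  have : pm g = pm g' := by
    funext A B
    exact h A B
  rw [this]

theorem compl_CD (r p s t g : ℕ) (hs : s < 3) (hg : okNL s g = true) :
    (PG (pm g) ⊔ CD r p s t : SimpleGraph (W 5 r p))ᶜ =
      PG (pm (cpl (g ||| zl s))) ⊔ CZ r p s t := by
  ext u v
  rw [SimpleGraph.compl_adj, SimpleGraph.sup_adj, SimpleGraph.sup_adj, PG_adj, PG_adj, ad_pm,
    ad_pm, pm_cpl, pm_or]
  simp only
  by_cases huv : u = v
  · subst huv
    simp
  by_cases hb : ∃ (b : Fin 5) (x y : ZMod p), u = Sum.inr (b, x) ∧ v = Sum.inr (b, y) ∧ s ≤ b.val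
  · obtain ⟨b, x, y, rfl, rfl, hb⟩ := hb
    have h1 : pm g (prt (Sum.inr (b, x) : W 5 r p)) (prt (Sum.inr (b, y) : W 5 r p)) = false :=
      okNL_spec s g hg b.succ (by show s < b.val + 1; omega)
    have h2 : pm (zl s) (prt (Sum.inr (b, x) : W 5 r p)) (prt (Sum.inr (b, y) : W 5 r p)) = true :=
      zl_bit ⟨s, hs⟩ b hb
    rw [h1, h2]
    simp only [Bool.false_or, Bool.not_true, Bool.false_eq_true, and_false, false_or]
    constructor
    · rintro ⟨h3, h4⟩
      refine ⟨h3, b, x, y, rfl, rfl, hb, ?_⟩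
      by_contra h5
      exact h4 ⟨h3, b, x, y, rfl, rfl, hb, h5⟩
    · rintro ⟨h3, b', x', y', hu, hv, _, h5⟩
      refine ⟨h3, ?_⟩
      rintro ⟨_, b'', x'', y'', hu', hv', _, h6⟩
      have e1 := Sum.inr_injective hu
      have e2 := Sum.inr_injective hv
      have e3 := Sum.inr_injective hu'
      have e4 := Sum.inr_injective hv'
      rw [Prod.mk.injEq] at e1 e2 e3 e4
      apply h6
      rw [← e3.2, ← e4.2, e1.2, e2.2]
      exact h5
  · have h3 : ¬ (CD r p s t).Adj u v := by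
      rintro ⟨_, b, x, y, hu, hv, h4, _⟩
      exact hb ⟨b, x, y, hu, hv, h4⟩
    have h4 : ¬ (CZ r p s t).Adj u v := by
      rintro ⟨_, b, x, y, hu, hv, h4, _⟩
      exact hb ⟨b, x, y, hu, hv, h4⟩
    have h5 : pm (zl s) (prt u) (prt v) = false := by
      rw [Bool.eq_false_iff]
      intro h6
      obtain ⟨h7, h8⟩ := zl_bit' ⟨s, hs⟩ _ _ h6
      rcases u with u | ⟨b, x⟩
      · simp [prt] at h8
      · rcases v with v | ⟨c, y⟩
        · exact absurd h7 (Fin.succ_ne_zero b)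
        · have h9 : b = c := Fin.succ_injective _ h7
          subst h9
          have h10 : s < b.val + 1 := h8
          exact hb ⟨b, x, y, rfl, rfl, by omega⟩
    rw [h5, Bool.or_false]
    simp only [h3, h4, or_false, huv, ne_eq, not_false_eq_true, true_and, Bool.not_eq_true']
    cases pm g (prt u) (prt v) <;> simp

/-- **dual snapshot rule** -/
theorem snapd {n q : ℕ} {P : SimpleGraph (Fin n) → Prop} (hP : GP n q P) {r p : ℕ}
    (har : Ar n q r p) (s : ℕ) (hs : s < 3) (X : ℕ) (hX : okNL s X = true)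
    (h0 : fV P r p X = 0) (h1 : fV P r p (X ||| zl s) = 1) :
    ∃ F : ℕ → ℤ, Snp (fV P r p) F s ∧ F X = 1 ∧ ∀ X' : ℕ, okT s X X' = true → F X' = 0 := by
  classical
  have hpf : Fact p.Prime := ⟨har.hp⟩
  have hp : 2 < p := by have := har.hp3; omega
  have hp0 : NeZero p := ⟨by omega⟩
  set Y := cpl (X ||| zl s) with hY
  have h2 : fV (dual P) r p Y = 0 := by
    rw [hY, fV_dual hP har.hn, h1]
    norm_num
  have h3 : fV (dual P) r p (Y ||| zl s) = 1 := by
    have h4 : fV (dual P) r p (Y ||| zl s) = fV (dual P) r p (cpl X) := by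
      refine fV_congr _ r p _ _ fun A B => ?_
      rw [pm_or, hY]
      simp only
      rw [pm_cpl, pm_or, pm_cpl]
      simp only
      by_cases h5 : pm (zl s) A B = true
      · obtain ⟨h6, h7⟩ := zl_bit' ⟨s, hs⟩ A B h5
        subst h6
        rw [h5, okNL_spec s X hX A h7]
        rfl
      · rw [Bool.not_eq_true] at h5
        rw [h5]
        cases pm X A B <;> rfl
    rw [h4, fV_dual hP har.hn, h0]
    norm_num
  obtain ⟨t, h5, h6⟩ := levelZ hP.dual' r p s hp hs Y h2 h3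
  have hcard : Fintype.card (W 5 r p) = n := by
    rw [Fintype.card_sum, Fintype.card_prod, ZMod.card, Fintype.card_fin, Fintype.card_fin, har.hn]
  have hne : Nonempty (W 5 r p ≃ Fin n) := ⟨Fintype.equivFinOfCardEq hcard⟩
  have key : ∀ g : ℕ, okNL s g = true →
      FC P r p (CD r p s t) g = 1 - FZ (dual P) r p s t (cpl (g ||| zl s)) := by
    intro g hg
    have h7 := PV_dual hP (W 5 r p) (PG (pm (cpl (g ||| zl s))) ⊔ CZ r p s t) hne
    rw [← compl_CD r p s t g hs hg, compl_compl] at h7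
    rw [compl_CD r p s t g hs hg] at h7
    unfold FC FZ
    by_cases h8 : PV P (W 5 r p) (PG (pm g) ⊔ CD r p s t)
    · rw [if_pos h8, if_neg (fun h9 => h7.mp h9 h8)]
      norm_num
    · rw [if_neg h8, if_pos (h7.mpr h8)]
      norm_num
  refine ⟨FC P r p (CD r p s t), snpC hP hp har.hrp har.hn har.hq s hs _ (BC_CD r p s t), ?_, ?_⟩
  · rw [key X hX, ← hY, h5]
    norm_num
  · intro X' hX'
    unfold okT at hX'
    rw [Bool.and_eq_true, Bool.and_eq_true] at hX'
    rw [key X' hX'.1.2, h6 _ hX'.2]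
    norm_num

end Pool.Agent.L0h93.Karp.M5
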