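import Mathlib
import Pool.Agent.L0h93.Karp.RelC

set_option autoImplicit false

/-! MP_257582_lc: kernel-fast check of the order edges; packed variables. -/

namespace Pool.Agent.L0h93.Karp.M5

open Finset
open Pool.Agent.H119R2.Kp
open Pool.Agent.H70.KP (Tr Rl sW eA eB)

/-- hint of the edge `e`: exchange (3 bits), permutation (7 bits) -/
@[reducible] def eH (H e : ℕ) : ℕ := Nat.land (Nat.shiftRight H (Nat.mul 16 e)) 1023

/-- the edges below `n` are right, and there are no others -/
noncomputable def ckE (ent : ℕ → ℕ) (E H : ℕ) : ℕ → Bool := fun n =>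
  an (Nat.beq (Nat.shiftRight E (Nat.mul 32 n)) 0)
    (Nat.rec (motive := fun _ => Bool) true
      (fun e ih => an (force (eH H e) fun h => dmF (Nat.land h 7) (Nat.shiftRight h 3)
        (ent (eA E e)) (ent (eB E e))) ih) n)

theorem ckE_ok {f : ℕ → ℤ} (hdom : ∀ i p ga gb, dmF i p ga gb = true → f ga ≤ f gb)
    (ent : ℕ → ℕ) (E H n : ℕ) (h : ckE ent E H n = true) :
    ∀ e, f (ent (eA E e)) ≤ f (ent (eB E e)) := by
  unfold ckE at h
  obtain ⟨h1, h2⟩ := an_t h
  have h3 : ∀ m : ℕ, (Nat.rec (motive := fun _ => Bool) true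
      (fun e ih => an (force (eH H e) fun h => dmF (Nat.land h 7) (Nat.shiftRight h 3)
        (ent (eA E e)) (ent (eB E e))) ih) m : Bool) = true →
      ∀ e < m, f (ent (eA E e)) ≤ f (ent (eB E e)) := by
    intro m
    induction m with
    | zero => intro _ e he; omega
    | succ m ih =>
      intro hm e he
      have hm' : an (force (eH H m) fun h => dmF (Nat.land h 7) (Nat.shiftRight h 3)
        (ent (eA E m)) (ent (eB E m))) (Nat.rec (motive := fun _ => Bool) true
      (fun e ih => an (force (eH H e) fun h => dmF (Nat.land h 7) (Nat.shiftRight h 3)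
        (ent (eA E e)) (ent (eB E e))) ih) m) = true := hm
      obtain ⟨h4, h5⟩ := an_t hm'
      rw [force_eq] at h4
      by_cases hem : e < m
      · exact ih h5 e hem
      · have : e = m := by omega
        subst this
        exact hdom _ _ _ _ h4
  intro e
  by_cases he : e < n
  · exact h3 n h2 e he
  · have h4 : E >>> (32 * n) = 0 := Nat.eq_of_beq_eq_true h1
    have h5 : E >>> (32 * e) = 0 := by
      rw [Nat.shiftRight_eq_div_pow] at h4 ⊢
      rw [Nat.div_eq_zero_iff] at h4 ⊢
      rcases h4 with h4 | h4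
      · exfalso
        have : 0 < 2 ^ (32 * n) := by positivity
        omega
      · right
        exact lt_of_lt_of_le h4 (Nat.pow_le_pow_right (by norm_num) (by omega))
    have h6 : E >>> (32 * e + 16) = 0 := by
      rw [Nat.shiftRight_add, h5, Nat.zero_shiftRight]
    have h7 : eA E e = 0 := by
      show (E >>> (32 * e)) &&& 65535 = 0
      rw [h5, Nat.zero_and]
    have h8 : eB E e = 0 := by
      show (E >>> (32 * e + 16)) &&& 65535 = 0
      rw [h6, Nat.zero_and]
    rw [h7, h8]

theorem fV_dom {n q : ℕ} {P : SimpleGraph (Fin n) → Prop} (hP : GP n q P) {r p : ℕ}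
    (har : Ar n q r p) (i j ga gb : ℕ) (h : dmF i j ga gb = true) :
    fV P r p ga ≤ fV P r p gb :=
  dom hP r p har.hrp i (pcd j) ga gb (dmF_ok i j ga gb h)

/-- **edges for `f = fV`** -/
theorem edges_ok {n q : ℕ} {P : SimpleGraph (Fin n) → Prop} (hP : GP n q P) {r p : ℕ}
    (har : Ar n q r p) (ent : ℕ → ℕ) (E H m : ℕ) (h : ckE ent E H m = true) :
    ∀ e, fV P r p (ent (eA E e)) ≤ fV P r p (ent (eB E e)) :=
  ckE_ok (fun i j ga gb h => fV_dom hP har i j ga gb h) ent E H m h

/-- variables packed in one literal -/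
def entL (L v : ℕ) : ℕ := Nat.land (Nat.shiftRight L (Nat.mul 24 v)) 16777215

end Pool.Agent.L0h93.Karp.M5
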