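import Mathlib
import Pool.Agent.H119R2.Kp.Defs
import Pool.Agent.H119R2.Kp.D
import Pool.Agent.H119R2.Kp.D4
import Pool.Agent.H119R2.Kp.Base
import Pool.Agent.H119R2.Kp.NT
import Pool.Agent.L0h93.Karp.Ar

set_option autoImplicit false

/-! MP_257582_lc: the bound `2/5` from the core statement. -/

namespace Pool.Agent.L0h93.Karp

open Finset
open Pool.Agent.H98R2.Ev (EV toG NE)
open Pool.Agent.H119R2.Kp

/-- the core: no property with a decision tree of depth `q` -/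
def S_CORE5 : Prop := ∀ (n q : ℕ) (P : SimpleGraph (Fin n) → Prop), GP n q P → Star n P →
  ∀ r p : ℕ, Ar n q r p → False

private theorem L5 (δ : ℝ) (hδ0 : 0 < δ) (hδ1 : δ ≤ 1 / 1000) :
    2 / 5 - 10 * δ ≤ (2 / 5 - 10 * δ / 2) * (1 - δ) ^ 2 := by
  have h1 : (2 / 5 - 10 * δ / 2) * (1 - δ) ^ 2 =
      2 / 5 - 10 * δ + (5 - 4 / 5) * δ + (10 + 2 / 5) * δ ^ 2 - 5 * δ ^ 3 := by ring
  rw [h1]
  have h2 : 0 < δ ^ 2 := by positivity
  have h3 : δ ^ 3 ≤ δ ^ 2 := by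
    have : δ ^ 3 = δ * δ ^ 2 := by ring
    rw [this]
    have := mul_le_mul_of_nonneg_right hδ1 h2.le
    linarith
  linarith

/-- **the bound `2/5` from the core** -/
theorem final5 (hcore : S_CORE5) : ∀ ε : ℝ, 0 < ε → ∃ N : ℕ, ∀ n : ℕ, N ≤ n →
    ∀ P : SimpleGraph (Fin n) → Prop,
      (∀ (σ : Fin n ≃ Fin n) (G : SimpleGraph (Fin n)), P G → P (G.map σ.toEmbedding)) →
      (∀ G H : SimpleGraph (Fin n), G ≤ H → P G → P H) →
      (∃ G, P G) → (∃ G, ¬ P G) →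
      ∀ s : Finset (Sym2 (Fin n)) → SimpleGraph (Fin n) → Sym2 (Fin n),
      (∀ (Q : Finset (Sym2 (Fin n))) (G H : SimpleGraph (Fin n)),
        (∀ e ∈ Q, (e ∈ G.edgeSet ↔ e ∈ H.edgeSet)) → s Q G = s Q H) →
      ∀ q : ℕ, (q : ℝ) < (2 / 5 - ε) * (n : ℝ) ^ 2 →
        ∃ G H : SimpleGraph (Fin n),
          (∀ e ∈ (fun Q : Finset (Sym2 (Fin n)) => insert (s Q G) Q)^[q]
            (∅ : Finset (Sym2 (Fin n))), (e ∈ G.edgeSet ↔ e ∈ H.edgeSet)) ∧ P G ∧ ¬ P H := by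
  intro ε hε
  set e := min ε (1 / 100) with he
  have he0 : 0 < e := lt_min hε (by norm_num)
  have he1 : e ≤ 1 / 100 := min_le_right _ _
  have heε : e ≤ ε := min_le_left _ _
  set δ := e / 10 with hδ
  have hδ0 : 0 < δ := by positivity
  have hδ1 : δ ≤ 1 / 1000 := by rw [hδ]; linarith
  have heδ : e = 10 * δ := by rw [hδ]; ring
  obtain ⟨N₀, hN₀⟩ := prime_between δ hδ0
  obtain ⟨N₁, hN₁⟩ := ar_exists e he0 he1
  refine ⟨2 * N₀ + 2 * N₁ + 100, fun n hn P hiso hmono h1 h0 s hs q hq => ?_⟩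
  by_contra hcon
  have hdec : Dec q (fun S : Finset (EV (Fin n)) => P (toG S)) := by
    refine dec_of_strategy q P s hs fun G H hGH hPG => ?_
    by_contra hPH
    exact hcon ⟨G, H, hGH, hPG, hPH⟩
  have hGP : GP n q P := ⟨hmono, hiso, hdec⟩
  have hn' : (2 * (N₀ : ℝ) + 2 * N₁ + 100) ≤ n := by exact_mod_cast hn
  have hN0 : (0 : ℝ) ≤ N₀ := Nat.cast_nonneg _
  have hN1 : (0 : ℝ) ≤ N₁ := Nat.cast_nonneg _
  obtain ⟨t, ht⟩ : ∃ t : ℝ, (n : ℝ) = t := ⟨_, rfl⟩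
  rw [ht] at hn' hq
  have ht100 : 100 ≤ t := by linarith
  have ht2 : 0 < t ^ 2 := by positivity
  have hq' : (q : ℝ) < (2 / 5 - 10 * δ) * t ^ 2 := by
    refine lt_of_lt_of_le hq ?_
    rw [← heδ]
    apply mul_le_mul_of_nonneg_right _ ht2.le
    linarith
  have hδt : δ * t ≤ t / 1000 := by
    have := mul_le_mul_of_nonneg_right hδ1 (show 0 ≤ t by linarith)
    linarith
  obtain ⟨m, hm, hm1, hm2⟩ := hN₀ ((1 - δ) * t) (by linarith)
  have hmt : (m : ℝ) ≤ t := by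
    have h2 : (1 + δ) * ((1 - δ) * t) = t - δ ^ 2 * t := by ring
    rw [h2] at hm2
    have : 0 ≤ δ ^ 2 * t := by positivity
    linarith
  have hmn : m ≤ n := by
    rw [← Nat.cast_le (α := ℝ), ht]
    exact hmt
  have : Fact m.Prime := ⟨hm⟩
  rcases kss P hGP h1 h0 m hm.one_lt.le hmn with ⟨n', hn1, hn2, P', hP', hS'⟩ | ⟨P', hP', h1', h0'⟩
  · have h6 : ∃ r p : ℕ, Ar n' q r p := by
      refine hN₁ n' ?_ q ?_
      · have h1 : (N₁ : ℝ) ≤ n' := by
          have h2 : (m : ℝ) < n' := by exact_mod_cast hn1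
          linarith
        exact_mod_cast h1
      · have h2 : (m : ℝ) < n' := by exact_mod_cast hn1
        have h3 : (1 - δ) * t < n' := by linarith
        have h4 : ((1 - δ) * t) ^ 2 ≤ (n' : ℝ) ^ 2 := by
          apply pow_le_pow_left₀ _ h3.le
          linarith
        refine lt_of_lt_of_le hq' ?_
        have h5 : (2 / 5 - 10 * δ) * t ^ 2 ≤ (2 / 5 - e / 2) * ((1 - δ) * t) ^ 2 := by
          rw [heδ, mul_pow, ← mul_assoc]
          apply mul_le_mul_of_nonneg_right _ ht2.le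
          exact L5 δ hδ0 hδ1
        refine h5.trans ?_
        apply mul_le_mul_of_nonneg_left h4
        linarith
    obtain ⟨r, p, har⟩ := h6
    exact hcore n' q P' hP' hS' r p har
  · have h2 := prime_base P' hP' h1' h0'
    have h3 : m * (m - 1) ≤ 2 * q + 1 := by omega
    have h4 : ((m : ℝ) * (m - 1)) ≤ 2 * q + 1 := by
      have : ((m * (m - 1) : ℕ) : ℝ) ≤ ((2 * q + 1 : ℕ) : ℝ) := by exact_mod_cast h3
      push_cast [Nat.cast_sub hm.one_lt.le] at this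
      exact this
    have h6 : 0.99 * t ≤ m := by linarith
    have h7 : (0.99 * t) ^ 2 ≤ (m : ℝ) ^ 2 := by
      apply pow_le_pow_left₀ (by positivity) h6
    have h8 : (0.99 * t) ^ 2 = 0.9801 * t ^ 2 := by ring
    have h9 : (m : ℝ) * (m - 1) = (m : ℝ) ^ 2 - m := by ring
    have h10 : (2 / 5 - 10 * δ) * t ^ 2 = 2 / 5 * t ^ 2 - 10 * (δ * t ^ 2) := by ring
    have h11 : 0 < δ * t ^ 2 := by positivity
    have h12 : 100 * t ≤ t ^ 2 := by
      rw [sq]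
      exact mul_le_mul_of_nonneg_right ht100 (by linarith)
    linarith

end Pool.Agent.L0h93.Karp
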