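import Pool.Agent.L0h93.Karp.A5a

set_option autoImplicit false

/-! # One step of the chain for five blocks -/

namespace Pool.Agent.L0h93.Karp

open Finset
open Pool.Agent.H119R2.Kp
open Pool.Agent.H98R2.Ev (EV toG NE)

open CA5 in
theorem chainA5 {n q : ℕ} {P : SimpleGraph (Fin n) → Prop} (hP : GP n q P) (p x r t : ℕ)
    [Fact p.Prime] (hx : 0 < x) (hn : 5 * p + x + r = n) (H : SimpleGraph (ZMod x))
    (hH : ∀ a b, H.Adj a b → H.Adj (a + 1) (b + 1))
    (hU : ∀ G : SimpleGraph (W5 p x r),
      (∀ a b, H.Adj a b → G.Adj (Sum.inr (Sum.inl a)) (Sum.inr (Sum.inl b))) →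
      (∀ (u : Fin 5 × ZMod p) (v : ZMod x ⊕ Fin r), G.Adj (Sum.inl u) (Sum.inr v)) → PV P _ G)
    (hq : q < 5 * p * x + 10 * p * p) (hK : PV P _ (G5 p x r H (T5 p t true))) :
    PV P _ (G5 p x r H (T5 p t false)) := by
  classical
  have : NeZero x := ⟨hx.ne'⟩
  have : NeZero p := ⟨(Fact.out : p.Prime).ne_zero⟩
  have hV : Fintype.card (W5 p x r) = n := by
    simp only [W5, Fintype.card_sum, Fintype.card_prod, ZMod.card, Fintype.card_fin]
    omega
  have hsum := rel hP hV p (ga (p := p) (x := x) (r := r)) gc
    (by intro i j; exact T_comm _ _)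
    (by
      intro i
      rw [ga, ← T_nsmul]
      have : p • ((Pi.single i 1, 0) : (Fin 5 → ZMod p) × ZMod x) = 0 := by
        ext j
        · simp
        · simp
      rw [this, T_zero])
    (by
      intro i
      have : (gc (p := p) (x := x) (r := r))⁻¹ * ga i * gc = ga i := by
        rw [mul_assoc, ga, gc, T_comm, ← mul_assoc, inv_mul_cancel, one_mul]
      rw [this]
      exact Subgroup.subset_closure ⟨i, rfl⟩)
    (G5 p x r H (T5 p t false)) (R (p := p) (x := x) (r := r))
    (by intro i u v h; exact WG_T H hH t false _ u v h)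
    (by intro u v h; exact WG_T H hH t false _ u v h)
    (by intro j i u v h; rw [R_adj] at h ⊢; rw [ga, ty_T]; exact h)
    (by intro j u v h; rw [R_adj] at h ⊢; rw [gc, ty_T]; exact h)
    (by
      intro i j hij
      rw [disjoint_iff_inf_le]
      intro u v h
      simp only [SimpleGraph.inf_adj, R_adj] at h
      rw [h.1] at h
      exact absurd (Option.some.inj h.2) hij)
    (by
      intro i
      rw [disjoint_iff_inf_le]
      intro u v h
      simp only [SimpleGraph.inf_adj, R_adj] at h
      obtain ⟨h1, h2⟩ := h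
      rcases u with ⟨k, a⟩ | a | a <;> rcases v with ⟨j, b⟩ | b | b <;>
        simp only [ty, reduceCtorEq] at h2
      · split_ifs at h2 with h3
        obtain ⟨_, h4 | h4⟩ := h1
        · exact absurd h4.2 (by simp)
        · exact absurd h4.1 h3
      · exact absurd h1 (by simp [G5])
      · exact absurd h1 (by simp [G5]))
    (by
      intro j
      rcases cls15 j with ⟨b, rfl⟩ | ⟨b, b', hbb, rfl⟩
      · exact ⟨Sum.inl (b, 0), Sum.inr (Sum.inl 0), by simp [R_adj, ty]⟩
      · exact ⟨Sum.inl (b, 0), Sum.inl (b', 0), by simp [R_adj, ty, hbb]⟩)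
    (by
      intro j u v u' v' h h'
      obtain ⟨d, hd⟩ := htr' j u v u' v' h h'
      exact ⟨T d, T_mem d, hd⟩)
    (lt_of_lt_of_le hq card_R)
  set f : Finset (Fin 15) → ℤ := fun I => if PV P (W5 p x r) (BI H t I) then 1 else 0 with hf
  have hrot1 : ∀ I : Finset (Fin 15), PV P (W5 p x r) (BI H t I) →
      PV P (W5 p x r) (BI H t (rho5.finsetCongr I)) := by
    intro I h
    refine PV.mono hP rt ?_ h
    intro u v huv
    rw [BI_adj] at huv ⊢
    rcases huv with huv | ⟨j, hj, huv⟩
    · exact Or.inl (WG_pm H t false (Equiv.addRight 1) u v huv)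
    · right
      refine ⟨rho5 j, (mem_fc5 rho5 I j).2 hj, ?_⟩
      rw [ty_rt, huv]
      rfl
  have hrho5 : ∀ I : Finset (Fin 15), rho5.finsetCongr (rho5.finsetCongr (rho5.finsetCongr
      (rho5.finsetCongr (rho5.finsetCongr I)))) = I := by
    intro I
    have h5 : (rho5.finsetCongr : Equiv.Perm (Finset (Fin 15))) ^ 5 = 1 := by
      rw [Pool.Agent.Y46.Kc.fc_pow]
      have h6 : rho5 ^ 5 = 1 := by
        ext i
        revert i
        decide
      rw [h6]
      ext x y
      rw [Equiv.finsetCongr_apply, Finset.mem_map_equiv]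
      exact Iff.rfl
    have h7 := congrArg (fun e : Equiv.Perm (Finset (Fin 15)) => e I) h5
    simp only [pow_succ, pow_zero, one_mul, Equiv.Perm.mul_apply, Equiv.Perm.coe_one, id_eq] at h7
    exact h7
  have hrot : ∀ I, f (rho5.finsetCongr I) = f I := by
    intro I
    simp only [hf]
    have : PV P (W5 p x r) (BI H t (rho5.finsetCongr I)) ↔ PV P (W5 p x r) (BI H t I) := by
      constructor
      · intro h
        have := hrot1 _ (hrot1 _ (hrot1 _ (hrot1 _ h)))
        rwa [hrho5] at this
      · exact hrot1 I
    simp only [this]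
  have h01 : ∀ I, f I = 0 ∨ f I = 1 := by
    intro I
    simp only [hf]
    split_ifs
    · right; rfl
    · left; rfl
  have hone : ∀ b c, f (GO (true, b, c)) = 1 := by
    intro b c
    simp only [hf]
    rw [if_pos]
    apply hU
    · intro a b hab
      rw [BI_adj]
      left
      exact hab
    · rintro ⟨i, a⟩ (y | y)
      · rw [BI_adj]
        right
        refine ⟨bb i, ?_, by simp [ty]⟩
        rw [mem_GO]
        revert i b c
        decide
      · rw [BI_adj]
        left
        trivial
  have hmul : ∀ s : Bool × Bool × Bool, PV P (W5 p x r) (BI H t (GO s)) →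
      PV P (W5 p x r) (BI H t (GO (s.1, s.2.2, s.2.1))) := by
    intro s h
    refine PV.mono hP mu2 ?_ h
    intro u v huv
    rw [BI_adj] at huv ⊢
    rcases huv with huv | ⟨j, hj, huv⟩
    · exact Or.inl (WG_pm H t false d2 u v huv)
    · right
      rcases u with ⟨i, a⟩ | a | a <;> rcases v with ⟨k, b⟩ | b | b <;>
        simp only [ty, reduceCtorEq] at huv
      · split_ifs at huv with h1
        rw [Option.some.injEq] at huv
        subst huv
        refine ⟨kk (d2 i) (d2 k), kk_mul s i k h1 hj, ?_⟩
        have h2 : d2 i ≠ d2 k := fun h => h1 (d2.injective h)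
        simp [ty, mu2, h2]
      · rw [Option.some.injEq] at huv
        subst huv
        exact ⟨bb (d2 i), bb_mul s i hj, by simp [ty, mu2]⟩
      · rw [Option.some.injEq] at huv
        subst huv
        exact ⟨bb (d2 k), bb_mul s k hj, by simp [ty, mu2]⟩
  have h12 : f (GO (false, true, false)) = f (GO (false, false, true)) := by
    simp only [hf]
    have : PV P (W5 p x r) (BI H t (GO (false, true, false))) ↔
        PV P (W5 p x r) (BI H t (GO (false, false, true))) :=
      ⟨fun h => hmul (false, true, false) h, fun h => hmul (false, false, true) h⟩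
    simp only [this]
  have h4 : f (GO (false, true, true)) = 1 := by
    simp only [hf]
    rw [if_pos]
    refine PV.mono hP (Equiv.refl _) ?_ hK
    intro u v huv
    rw [BI_adj]
    simp only [Equiv.refl_apply]
    rcases u with ⟨i, a⟩ | a | a <;> rcases v with ⟨j, b⟩ | b | b
    · by_cases hij : i = j
      · left
        obtain ⟨h5, h6⟩ := huv
        refine ⟨h5, Or.inr ?_⟩
        rcases h6 with h6 | h6
        · exact absurd hij h6.1
        · exact h6
      · right
        refine ⟨kk i j, ?_, by simp [ty, hij]⟩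
        rw [mem_GO]
        clear huv
        revert i j
        decide
    · exact Or.inl huv
    · exact Or.inl huv
    · exact Or.inl huv
    · exact Or.inl huv
    · exact Or.inl huv
    · exact Or.inl huv
    · exact Or.inl huv
    · exact Or.inl huv
  have h5 : f (GO (false, false, false)) = 1 := sum_mod5 f hrot hsum h01 hone h12 h4
  have hGO : GO (false, false, false) = ∅ := by
    ext i
    rw [mem_GO]
    simp
  rw [hGO] at h5
  have h6 : PV P (W5 p x r) (BI H t ∅) := by
    by_contra hc
    simp only [hf, if_neg hc] at h5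
    exact absurd h5 (by norm_num)
  have h7 : BI (p := p) (r := r) H t ∅ = G5 p x r H (T5 p t false) := by
    unfold BI
    simp
  rwa [h7] at h6

end Pool.Agent.L0h93.Karp
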