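import Pool.Agent.Y46.Kc.Top

set_option autoImplicit false

/-!
# A sum over the sets of classes modulo 5
-/

namespace Pool.Agent.L0h93.Karp

open Finset
open Pool.Agent.Y46.Kc (sum_fixed fc_pow)

/-- rotation of the 15 classes -/
def rho5 : Equiv.Perm (Fin 15) :=
  ⟨![1, 2, 3, 4, 0, 6, 7, 8, 9, 5, 11, 12, 13, 14, 10],
    ![4, 0, 1, 2, 3, 9, 5, 6, 7, 8, 14, 10, 11, 12, 13], by decide, by decide⟩

/-- the unions of the three orbits -/
def GO (t : Bool × Bool × Bool) : Finset (Fin 15) :=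
  univ.filter fun i => (if i.val < 5 then t.1 else if i.val < 10 then t.2.1 else t.2.2) = true

theorem mem_GO (t : Bool × Bool × Bool) (i : Fin 15) :
    i ∈ GO t ↔ (if i.val < 5 then t.1 else if i.val < 10 then t.2.1 else t.2.2) = true := by
  unfold GO
  simp

theorem mem_fc5 (π : Equiv.Perm (Fin 15)) (I : Finset (Fin 15)) (j : Fin 15) :
    π j ∈ π.finsetCongr I ↔ j ∈ I := by
  rw [Equiv.finsetCongr_apply, Finset.mem_map_equiv, Equiv.symm_apply_apply]

theorem fixed5 (I : Finset (Fin 15)) (h : rho5.finsetCongr I = I) :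
    GO (decide ((0 : Fin 15) ∈ I), decide ((5 : Fin 15) ∈ I), decide ((10 : Fin 15) ∈ I)) = I := by
  have h1 : ∀ i : Fin 15, rho5 i ∈ I ↔ i ∈ I := by
    intro i
    have := mem_fc5 rho5 I i
    rwa [h] at this
  have a0 : (1 : Fin 15) ∈ I ↔ (0 : Fin 15) ∈ I := h1 0
  have a1 : (2 : Fin 15) ∈ I ↔ (1 : Fin 15) ∈ I := h1 1
  have a2 : (3 : Fin 15) ∈ I ↔ (2 : Fin 15) ∈ I := h1 2
  have a3 : (4 : Fin 15) ∈ I ↔ (3 : Fin 15) ∈ I := h1 3
  have b0 : (6 : Fin 15) ∈ I ↔ (5 : Fin 15) ∈ I := h1 5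
  have b1 : (7 : Fin 15) ∈ I ↔ (6 : Fin 15) ∈ I := h1 6
  have b2 : (8 : Fin 15) ∈ I ↔ (7 : Fin 15) ∈ I := h1 7
  have b3 : (9 : Fin 15) ∈ I ↔ (8 : Fin 15) ∈ I := h1 8
  have c0 : (11 : Fin 15) ∈ I ↔ (10 : Fin 15) ∈ I := h1 10
  have c1 : (12 : Fin 15) ∈ I ↔ (11 : Fin 15) ∈ I := h1 11
  have c2 : (13 : Fin 15) ∈ I ↔ (12 : Fin 15) ∈ I := h1 12
  have c3 : (14 : Fin 15) ∈ I ↔ (13 : Fin 15) ∈ I := h1 13
  ext i
  rw [mem_GO]
  fin_cases i
  · simp
  · simp [a0]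
  · simp [a0, a1]
  · simp [a0, a1, a2]
  · simp [a0, a1, a2, a3]
  · simp
  · simp [b0]
  · simp [b0, b1]
  · simp [b0, b1, b2]
  · simp [b0, b1, b2, b3]
  · simp
  · simp [c0]
  · simp [c0, c1]
  · simp [c0, c1, c2]
  · simp [c0, c1, c2, c3]

theorem fixed_GO (t : Bool × Bool × Bool) : rho5.finsetCongr (GO t) = GO t := by
  ext j
  obtain ⟨i, rfl⟩ := rho5.surjective j
  rw [mem_fc5, mem_GO, mem_GO]
  revert i t
  decide

theorem GO_inj : Function.Injective GO := by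
  intro t t' h
  have h0 : (0 : Fin 15) ∈ GO t ↔ (0 : Fin 15) ∈ GO t' := by rw [h]
  have h5 : (5 : Fin 15) ∈ GO t ↔ (5 : Fin 15) ∈ GO t' := by rw [h]
  have h10 : (10 : Fin 15) ∈ GO t ↔ (10 : Fin 15) ∈ GO t' := by rw [h]
  rw [mem_GO, mem_GO] at h0 h5 h10
  obtain ⟨a, b, c⟩ := t
  obtain ⟨a', b', c'⟩ := t'
  have e0 : a = a' := Bool.eq_iff_iff.2 h0
  have e5 : b = b' := Bool.eq_iff_iff.2 h5
  have e10 : c = c' := Bool.eq_iff_iff.2 h10
  rw [e0, e5, e10]

theorem card_fc5 (π : Equiv.Perm (Fin 15)) (I : Finset (Fin 15)) :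
    (π.finsetCongr I).card = I.card := by
  rw [Equiv.finsetCongr_apply, Finset.card_map]

/-- the relation modulo 5 -/
theorem sum_mod5 (f : Finset (Fin 15) → ℤ) (hrot : ∀ I, f (rho5.finsetCongr I) = f I)
    (hsum : ∑ I : Finset (Fin 15), (-1 : ℤ) ^ I.card * f I = 0) (h01 : ∀ I, f I = 0 ∨ f I = 1)
    (h1 : ∀ b c, f (GO (true, b, c)) = 1)
    (h12 : f (GO (false, true, false)) = f (GO (false, false, true)))
    (h3 : f (GO (false, true, true)) = 1) : f (GO (false, false, false)) = 1 := by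
  have hp : Fact (Nat.Prime 5) := ⟨by norm_num⟩
  have hf := sum_fixed (rho5.finsetCongr : Equiv.Perm (Finset (Fin 15))) 5 1 (by
    intro I
    rw [fc_pow]
    have h5 : rho5 ^ (5 ^ 1) = 1 := by
      ext i
      revert i
      decide
    rw [h5]
    ext x
    rw [Equiv.finsetCongr_apply, Finset.mem_map_equiv]
    exact Iff.rfl) (fun I => (-1 : ℤ) ^ I.card * f I) (by
    intro I
    simp only [card_fc5, hrot])
  rw [hsum] at hf
  have hfil : (univ.filter fun I : Finset (Fin 15) =>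
      (rho5.finsetCongr : Equiv.Perm (Finset (Fin 15))) I = I) = univ.image GO := by
    ext I
    rw [mem_filter, mem_image]
    constructor
    · rintro ⟨_, h⟩
      exact ⟨_, mem_univ _, fixed5 I h⟩
    · rintro ⟨t, _, rfl⟩
      exact ⟨mem_univ _, fixed_GO t⟩
  rw [hfil, sum_image (fun a _ b _ h => GO_inj h)] at hf
  have hc : ∀ t : Bool × Bool × Bool, (-1 : ℤ) ^ (GO t).card =
      (if t.1 then -1 else 1) * (if t.2.1 then -1 else 1) * (if t.2.2 then -1 else 1) := by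
    decide
  simp only [hc] at hf
  rw [Fintype.sum_prod_type] at hf
  simp only [Fintype.sum_prod_type, Fintype.sum_bool] at hf
  norm_num [h1, h12, h3] at hf
  rcases h01 (GO (false, false, false)) with h0 | h0
  · exfalso
    rw [h0] at hf
    rcases h01 (GO (false, false, true)) with h4 | h4 <;> rw [h4] at hf <;> norm_num at hf
  · exact h0

end Pool.Agent.L0h93.Karp
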