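import Pool.Agent.L0h93.Karp.Facts5

set_option autoImplicit false

/-! # The case distinction: disconnected facts or hub facts -/

namespace Pool.Agent.L0h93.Karp

open Finset
open Pool.Agent.H119R2.Kp

/-- the size of the parts outside of (`false`) or in (`true`) the set `A` -/
def szA {k : ℕ} (s : Fin k → ℕ) (A : Fin k → Bool) (v : Bool) : ℕ :=
  ∑ a, if A a = v then s a else 0

variable {n q : ℕ} {P : SimpleGraph (Fin n) → Prop}

/-- no edges between `A` and the other parts -/
theorem disc_le (hP : GP n q P) {k : ℕ} (s : Fin k → ℕ) (A : Fin k → Bool)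
    (Γ : Fin k → Fin k → Bool) (h : ∀ a b, A a = true → A b = false → Γ a b = false ∧ Γ b a = false) :
    hv P s Γ ≤ hv P ![szA s A true, szA s A false] (pat [(0, 0), (1, 1)]) := by
  refine emb hP s _ Γ _ (fun i => ![if A i = true then s i else 0, if A i = false then s i else 0])
    (fun i => ?_) (fun a => ?_) ?_
  · rw [Fin.sum_univ_two]
    cases hA : A i <;> simp
  · fin_cases a
    · rfl
    · rfl
  · intro i j a b hij ha hb
    have key : (A i = true ↔ a = 0) ∧ (A j = true ↔ b = 0) := by
      constructor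
      · fin_cases a
        · simp only [Fin.zero_eta, Fin.isValue, Matrix.cons_val_zero, ne_eq, ite_eq_right_iff,
            Classical.not_imp] at ha
          simp [ha.1]
        · simp only [Fin.mk_one, Fin.isValue, Matrix.cons_val_one, Matrix.cons_val_fin_one, ne_eq,
            ite_eq_right_iff, Classical.not_imp] at ha
          simp [ha.1]
      · fin_cases b
        · simp only [Fin.zero_eta, Fin.isValue, Matrix.cons_val_zero, ne_eq, ite_eq_right_iff,
            Classical.not_imp] at hb
          simp [hb.1]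
        · simp only [Fin.mk_one, Fin.isValue, Matrix.cons_val_one, Matrix.cons_val_fin_one, ne_eq,
            ite_eq_right_iff, Classical.not_imp] at hb
          simp [hb.1]
    have hsame : A i = A j := by
      cases hi : A i <;> cases hj : A j
      · rfl
      · exfalso
        have h1 := h j i hj hi
        rcases hij with h2 | h2
        · rw [h1.2] at h2
          exact Bool.noConfusion h2
        · rw [h1.1] at h2
          exact Bool.noConfusion h2
      · exfalso
        have h1 := h i j hi hj
        rcases hij with h2 | h2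
        · rw [h1.1] at h2
          exact Bool.noConfusion h2
        · rw [h1.2] at h2
          exact Bool.noConfusion h2
      · rfl
    have hab : a = b := by
      rw [hsame] at key
      have h3 : a = 0 ↔ b = 0 := key.1.symm.trans key.2
      omega
    subst hab
    left
    fin_cases a <;> decide

/-- all edges between `A` and the other parts -/
theorem codisc_ge (hP : GP n q P) {k : ℕ} (s : Fin k → ℕ) (A : Fin k → Bool)
    (Γ : Fin k → Fin k → Bool) (h : ∀ a b, A a = true → A b = false → Γ a b = true ∨ Γ b a = true) :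
    hv P ![szA s A true, szA s A false] (pat [(0, 1)]) ≤ hv P s Γ := by
  refine emb hP _ s _ Γ (fun a i => (![if A i = true then s i else 0,
    if A i = false then s i else 0] : Fin 2 → ℕ) a) (fun a => ?_) (fun i => ?_) ?_
  · fin_cases a
    · rfl
    · rfl
  · rw [Fin.sum_univ_two]
    cases hA : A i <;> simp
  · intro a b i j hab ha hb
    have hp0 : ∀ a b : Fin 2, (pat [(0, 1)] a b = true ∨ pat [(0, 1)] b a = true) →
        (a = 0 ∧ b = 1) ∨ (a = 1 ∧ b = 0) := by decide
    have hpat := hp0 a b hab
    rcases hpat with ⟨rfl, rfl⟩ | ⟨rfl, rfl⟩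
    · simp only [Fin.isValue, Matrix.cons_val_zero, ne_eq, ite_eq_right_iff, Classical.not_imp,
        Matrix.cons_val_one, Matrix.cons_val_fin_one] at ha hb
      exact h i j ha.1 hb.1
    · simp only [Fin.isValue, Matrix.cons_val_zero, ne_eq, ite_eq_right_iff, Classical.not_imp,
        Matrix.cons_val_one, Matrix.cons_val_fin_one] at ha hb
      exact (h j i hb.1 ha.1).symm

/-- the transport for the hub facts -/
def th {k : ℕ} (s : Fin k → ℕ) (A : Fin k → Bool) (j : Fin k) (r : ℕ) (a : Fin 3) (i : Fin k) : ℕ :=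
  (![if A i = true then s i else 0, if i = j then r else 0,
    if A i = true then 0 else if i = j then s i - r else s i] : Fin 3 → ℕ) a

theorem th_row {k : ℕ} (s : Fin k → ℕ) (A : Fin k → Bool) (j : Fin k) (r y m : ℕ)
    (hj : A j = false) (hr : r ≤ s j) (hy : szA s A true = y) (hm : szA s A false = r + m)
    (a : Fin 3) : ∑ i, th s A j r a i = (![y, r, m] : Fin 3 → ℕ) a := by
  have h2 : ∑ i, th s A j r 2 i + r = r + m := by
    rw [← hm]
    have h3 : ∑ i, (if i = j then r else 0) = r := by
      rw [Finset.sum_ite_eq' univ, if_pos (mem_univ _)]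
    conv_lhs => rw [← h3]
    unfold szA
    rw [← Finset.sum_add_distrib]
    refine Finset.sum_congr rfl fun i _ => ?_
    unfold th
    by_cases hij : i = j
    · subst hij
      simp [hj, hr]
    · cases hA : A i <;> simp [hij]
  fin_cases a
  · exact hy
  · change ∑ i, (if i = j then r else 0) = r
    rw [Finset.sum_ite_eq' univ, if_pos (mem_univ _)]
  · change ∑ i, th s A j r 2 i = m
    omega

theorem th_col {k : ℕ} (s : Fin k → ℕ) (A : Fin k → Bool) (j : Fin k) (r : ℕ)
    (hj : A j = false) (hr : r ≤ s j) (i : Fin k) : ∑ a, th s A j r a i = s i := by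
  rw [Fin.sum_univ_three]
  unfold th
  by_cases hij : i = j
  · subst hij
    simp [hj, hr]
  · cases hA : A i <;> simp [hij]

theorem th_ne {k : ℕ} (s : Fin k → ℕ) (A : Fin k → Bool) (j : Fin k) (r : ℕ) (a : Fin 3)
    (i : Fin k) (h : th s A j r a i ≠ 0) :
    (a = 0 ∧ A i = true) ∨ (a = 1 ∧ i = j) ∨ (a = 2 ∧ A i = false) := by
  unfold th at h
  fin_cases a
  · left
    refine ⟨rfl, ?_⟩
    by_contra h1
    exact h (if_neg h1)
  · right
    left
    refine ⟨rfl, ?_⟩
    by_contra h1
    exact h (if_neg h1)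
  · right
    right
    refine ⟨rfl, ?_⟩
    by_contra h1
    rw [Bool.not_eq_false] at h1
    exact h (if_pos h1)

/-- `A` is a clique, and the part `j` outside of `A` is a clique joined to all parts outside
of `A` -/
theorem hub_le (hP : GP n q P) {k : ℕ} (s : Fin k → ℕ) (A : Fin k → Bool)
    (Γ : Fin k → Fin k → Bool) (j : Fin k) (r y m : ℕ) (hj : A j = false) (hr : r ≤ s j)
    (hy : szA s A true = y) (hm : szA s A false = r + m)
    (hAA : ∀ a b, A a = true → A b = true → Γ a b = true ∨ Γ b a = true)
    (hjb : ∀ b, A b = false → Γ j b = true ∨ Γ b j = true) :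
    hv P ![y, r, m] (pat [(0, 0), (1, 1), (1, 2)]) ≤ hv P s Γ := by
  refine emb hP _ s _ Γ (th s A j r) (th_row s A j r y m hj hr hy hm) (th_col s A j r hj hr) ?_
  intro a b i i' hab ha hb
  have hp0 : ∀ a b : Fin 3, (pat [(0, 0), (1, 1), (1, 2)] a b = true ∨
      pat [(0, 0), (1, 1), (1, 2)] b a = true) →
      (a = 0 ∧ b = 0) ∨ (a = 1 ∧ (b = 1 ∨ b = 2)) ∨ (a = 2 ∧ b = 1) := by decide
  have hpat := hp0 a b hab
  have h1 := th_ne s A j r a i ha
  have h2 := th_ne s A j r b i' hb
  rcases hpat with ⟨rfl, rfl⟩ | ⟨rfl, rfl | rfl⟩ | ⟨rfl, rfl⟩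
  · simp only [Fin.isValue, true_and, Fin.reduceEq, false_and, or_false, zero_ne_one] at h1 h2
    exact hAA i i' h1 h2
  · simp only [Fin.isValue, one_ne_zero, false_and, true_and, Fin.reduceEq, or_false,
      false_or] at h1 h2
    subst h1
    subst h2
    exact hjb _ hj
  · simp only [Fin.isValue, one_ne_zero, false_and, true_and, Fin.reduceEq, or_false,
      false_or] at h1 h2
    subst h1
    exact hjb _ h2
  · simp only [Fin.isValue, one_ne_zero, false_and, true_and, Fin.reduceEq, or_false,
      false_or] at h1 h2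
    subst h2
    exact (hjb _ h1).symm

/-- `A` is independent, and the part `j` outside of `A` is independent and not joined to any
other part outside of `A` -/
theorem cohub_le (hP : GP n q P) {k : ℕ} (s : Fin k → ℕ) (A : Fin k → Bool)
    (Γ : Fin k → Fin k → Bool) (j : Fin k) (r y m : ℕ) (hj : A j = false) (hr : r ≤ s j)
    (hy : szA s A true = y) (hm : szA s A false = r + m)
    (hAA : ∀ a b, A a = true → A b = true → Γ a b = false ∧ Γ b a = false)
    (hjb : ∀ b, A b = false → Γ j b = false ∧ Γ b j = false) :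
    hv P s Γ ≤ hv P ![y, r, m] (pat [(0, 1), (0, 2), (2, 2)]) := by
  refine emb hP s _ Γ _ (fun i a => th s A j r a i) (th_col s A j r hj hr)
    (th_row s A j r y m hj hr hy hm) ?_
  intro i i' a b hab ha hb
  have hfalse : ∀ u v, (Γ u v = true ∨ Γ v u = true) → ¬ (Γ u v = false ∧ Γ v u = false) := by
    rintro u v (h | h) ⟨h1, h2⟩
    · rw [h] at h1
      exact Bool.noConfusion h1
    · rw [h] at h2
      exact Bool.noConfusion h2
  have h1 := th_ne s A j r a i ha
  have h2 := th_ne s A j r b i' hb
  rcases h1 with ⟨rfl, h1⟩ | ⟨rfl, rfl⟩ | ⟨rfl, h1⟩ <;>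
    rcases h2 with ⟨rfl, h2⟩ | ⟨rfl, rfl⟩ | ⟨rfl, h2⟩
  · exact absurd (hAA i i' h1 h2) (hfalse _ _ hab)
  · decide
  · decide
  · decide
  · exact absurd (hjb _ hj) (hfalse _ _ hab)
  · exact absurd (hjb _ h2) (hfalse _ _ hab)
  · decide
  · exact absurd (hjb _ h1).symm (hfalse _ _ hab)
  · decide

/-- **the case distinction for `D(y)`** -/
theorem case_disc (hP : GP n q P) (hS : Star n P) (p y r : ℕ) [Fact p.Prime] (hp : 3 < p)
    (hy : 0 < y) (hn : y + r + 5 * p = n) (hq : q < 5 * p * y + 10 * p * p) :
    (∀ (k : ℕ) (s : Fin k → ℕ) (A : Fin k → Bool) (Γ : Fin k → Fin k → Bool),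
      szA s A true = y → szA s A false = r + 5 * p →
      (∀ a b, A a = true → A b = false → Γ a b = false ∧ Γ b a = false) → hv P s Γ = 0) ∨
    (∀ (k : ℕ) (s : Fin k → ℕ) (A : Fin k → Bool) (Γ : Fin k → Fin k → Bool) (j : Fin k),
      szA s A true = y → szA s A false = r + 5 * p → A j = false → r ≤ s j →
      (∀ a b, A a = true → A b = true → Γ a b = true ∨ Γ b a = true) →
      (∀ b, A b = false → Γ j b = true ∨ Γ b j = true) → hv P s Γ = 1) := by
  rcases hv01 P ![y, r + 5 * p] (pat [(0, 0), (1, 1)]) with h | h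
  · left
    intro k s A Γ h1 h2 h3
    have h4 := disc_le hP s A Γ h3
    rw [h1, h2, h] at h4
    rcases hv01 P s Γ with h5 | h5
    · exact h5
    · rw [h5] at h4
      norm_num at h4
  · right
    intro k s A Γ j h1 h2 h3 h4 h5 h6
    have h7 := hub_le hP s A Γ j r y (5 * p) h3 h4 h1 h2 h5 h6
    rw [hub5 hP hS p y r hp hy hn hq h] at h7
    rcases hv01 P s Γ with h8 | h8
    · rw [h8] at h7
      norm_num at h7
    · exact h8

/-- **the case distinction for `D*(y)`** -/
theorem case_codisc (hP : GP n q P) (hS : Star n P) (p y r : ℕ) [Fact p.Prime] (hp : 3 < p)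
    (hy : 0 < y) (hn : y + r + 5 * p = n) (hq : q < 5 * p * y + 10 * p * p) :
    (∀ (k : ℕ) (s : Fin k → ℕ) (A : Fin k → Bool) (Γ : Fin k → Fin k → Bool),
      szA s A true = y → szA s A false = r + 5 * p →
      (∀ a b, A a = true → A b = false → Γ a b = true ∨ Γ b a = true) → hv P s Γ = 1) ∨
    (∀ (k : ℕ) (s : Fin k → ℕ) (A : Fin k → Bool) (Γ : Fin k → Fin k → Bool) (j : Fin k),
      szA s A true = y → szA s A false = r + 5 * p → A j = false → r ≤ s j →
      (∀ a b, A a = true → A b = true → Γ a b = false ∧ Γ b a = false) →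
      (∀ b, A b = false → Γ j b = false ∧ Γ b j = false) → hv P s Γ = 0) := by
  rcases hv01 P ![y, r + 5 * p] (pat [(0, 1)]) with h | h
  · right
    intro k s A Γ j h1 h2 h3 h4 h5 h6
    have h7 := cohub_le hP s A Γ j r y (5 * p) h3 h4 h1 h2 h5 h6
    rw [cohub5 hP hS p y r hp hy hn hq h] at h7
    rcases hv01 P s Γ with h8 | h8
    · exact h8
    · rw [h8] at h7
      norm_num at h7
  · left
    intro k s A Γ h1 h2 h3
    have h4 := codisc_ge hP s A Γ h3
    rw [h1, h2, h] at h4
    rcases hv01 P s Γ with h5 | h5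
    · rw [h5] at h4
      norm_num at h4
    · exact h5

end Pool.Agent.L0h93.Karp
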