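import Mathlib
import Pool.Agent.L0h93.Karp.SnapD
import Pool.Agent.H70.KP.Stm

set_option autoImplicit false

/-! MP_257582_lc: the case `D = 1111`, `D* = 0000` (snapshots; generated). -/

namespace Pool.Agent.L0h93.Karp

open Pool.Agent.H119R2.Kp Pool.Agent.L0h93.Karp.M5
open Pool.Agent.H70.KP (Cse S_F1 okF1 okF0)

theorem leafS (hF1 : S_F1) : ∀ (n q : ℕ) (P : SimpleGraph (Fin n) → Prop), GP n q P → Star n P →
    ∀ r p : ℕ, Ar n q r p → Cse P r p 255 85 → False := by
  intro n q P hP hSt r p har hc
  have hpf : Fact p.Prime := ⟨har.hp⟩
  have hp2 : 2 < p := by have := har.hp3; omega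
  have hFa := hF1 n q P hP hSt r p har 255 85 hc
  obtain ⟨f, hf⟩ : ∃ f : ℕ → ℤ, f = fV P r p := ⟨_, rfl⟩
  have hf01 : ∀ g, f g = 0 ∨ f g = 1 := by
    intro g
    rw [hf]
    exact hv01 _ _ _
  have up1 : ∀ i π g g', okD i π g g' = true → f g = 1 → f g' = 1 := fun i π g g' h h1 => by
    have h2 := dom hP r p har.hrp i π g g' h
    have h3 := hf01 g'
    rw [← hf] at h2
    omega
  have dn0 : ∀ i π g g', okD i π g g' = true → f g' = 0 → f g = 0 := fun i π g g' h h1 => by
    have h2 := dom hP r p har.hrp i π g g' h
    have h3 := hf01 g
    rw [← hf] at h2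
    omega
  subst hf
  set f := fV P r p with hf
  have vf_4060 : f 4060 = 0 := (hFa 4060).2 (by decide +kernel)
  have vf_197057 : f 197057 = 1 := (hFa 197057).1 (by decide +kernel)
  have vf_459367 : f 459367 = 0 := (hFa 459367).2 (by decide +kernel)
  have vf_475111 : f 475111 = 1 := (hFa 475111).1 (by decide +kernel)
  have vf_481015 : f 481015 = 0 := (hFa 481015).2 (by decide +kernel)
  have vf_491495 : f 491495 = 1 := (hFa 491495).1 (by decide +kernel)
  have vf_492135 : f 492135 = 0 := (hFa 492135).2 (by decide +kernel)
  have vf_507879 : f 507879 = 1 := (hFa 507879).1 (by decide +kernel)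
  have vf_513775 : f 513775 = 0 := (hFa 513775).2 (by decide +kernel)
  have vf_524263 : f 524263 = 1 := (hFa 524263).1 (by decide +kernel)
  have vf_2070286 : f 2070286 = 1 := (hFa 2070286).1 (by decide +kernel)
  have vf_229853 : f 229853 = 1 := up1 0 181896 197057 229853 (by decide +kernel) vf_197057
  have vf_480503 : f 480503 = 0 := dn0 0 181896 480503 481015 (by decide +kernel) vf_481015
  have vf_481008 : f 481008 = 0 := dn0 0 181896 481008 481015 (by decide +kernel) vf_481015
  have vf_509679 : f 509679 = 0 := dn0 0 181896 509679 513775 (by decide +kernel) vf_513775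
  have vf_229436 : f 229436 = 1 := (hFa 229436).1 (by decide +kernel)
  have vf_459649 : f 459649 = 1 := (hFa 459649).1 (by decide +kernel)
  have vf_462243 : f 462243 = 1 := up1 3 181448 229853 462243 (by decide +kernel) vf_229853
  have vf_480439 : f 480439 = 0 := dn0 0 181896 480439 480503 (by decide +kernel) vf_480503
  have vf_475751 : f 475751 = 0 := dn0 4 181896 475751 481008 (by decide +kernel) vf_481008
  have vf_508655 : f 508655 = 0 := dn0 0 181896 508655 509679 (by decide +kernel) vf_509679
  have vf_229500 : f 229500 = 1 := up1 0 181896 229436 229500 (by decide +kernel) vf_229436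
  have vf_233532 : f 233532 = 1 := up1 0 181896 229436 233532 (by decide +kernel) vf_229436
  have vf_459657 : f 459657 = 1 := up1 0 181896 459649 459657 (by decide +kernel) vf_459649
  have vf_495588 : f 495588 = 1 := up1 3 181896 462243 495588 (by decide +kernel) vf_462243
  have vf_480407 : f 480407 = 0 := dn0 0 181896 480407 480439 (by decide +kernel) vf_480439
  have vf_508143 : f 508143 = 0 := dn0 0 181896 508143 508655 (by decide +kernel) vf_508655
  have vf_508527 : f 508527 = 0 := dn0 0 181896 508527 508655 (by decide +kernel) vf_508655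
  have vf_229628 : f 229628 = 1 := up1 0 181896 229500 229628 (by decide +kernel) vf_229500
  have vf_241724 : f 241724 = 1 := up1 0 181896 233532 241724 (by decide +kernel) vf_233532
  have vf_476041 : f 476041 = 1 := up1 0 181896 459657 476041 (by decide +kernel) vf_459657
  have vf_495596 : f 495596 = 1 := up1 0 181896 495588 495596 (by decide +kernel) vf_495588
  have vf_480400 : f 480400 = 0 := dn0 0 181896 480400 480407 (by decide +kernel) vf_480407
  have vf_508129 : f 508129 = 0 := dn0 0 181896 508129 508143 (by decide +kernel) vf_508143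
  have vf_508519 : f 508519 = 0 := dn0 0 181896 508519 508527 (by decide +kernel) vf_508527
  have vf_229884 : f 229884 = 1 := up1 0 181896 229628 229884 (by decide +kernel) vf_229628
  have vf_258108 : f 258108 = 1 := up1 0 181896 241724 258108 (by decide +kernel) vf_241724
  have vf_989489 : f 989489 = 1 := up1 0 88264 476041 989489 (by decide +kernel) vf_476041
  have vf_495612 : f 495612 = 1 := up1 0 181896 495596 495612 (by decide +kernel) vf_495596
  have vf_475143 : f 475143 = 0 := dn0 4 181896 475143 480400 (by decide +kernel) vf_480400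
  have vf_507919 : f 507919 = 0 := dn0 1 181896 507919 508129 (by decide +kernel) vf_508129
  have vf_230396 : f 230396 = 1 := up1 0 181896 229884 230396 (by decide +kernel) vf_229884
  have vf_2037518 : f 2037518 = 1 := up1 0 152272 989489 2037518 (by decide +kernel) vf_989489
  have vf_1019900 : f 1019900 = 1 := up1 0 181896 495612 1019900 (by decide +kernel) vf_495612
  have vf_507911 : f 507911 = 0 := dn0 0 181896 507911 507919 (by decide +kernel) vf_507919
  have vf_231420 : f 231420 = 1 := up1 0 181896 230396 231420 (by decide +kernel) vf_230396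
  have vf_2068476 : f 2068476 = 1 := up1 0 181896 1019900 2068476 (by decide +kernel) vf_1019900
  have vf_233468 : f 233468 = 1 := up1 0 181896 231420 233468 (by decide +kernel) vf_231420
  have R6159 : (((f 1867836 - f 2064444) - (f 1896508 - f 2093116)) - ((f 1871868 - f 2068476) - (f 1900540 - f 2097148))) = 0 := relM hP r p hp2 har.hn har.hq 4 229312 1867836 (by decide +kernel)
  have qf1867836 : f 1867836 = f 507911 := per hP r p 107360 1867836 507911 (by decide +kernel)
  have qf1896508 : f 1896508 = f 508519 := per hP r p 107360 1896508 508519 (by decide +kernel)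
  have qf2093116 : f 2093116 = f 2070286 := per hP r p 144712 2093116 2070286 (by decide +kernel)
  have qf1871868 : f 1871868 = f 523655 := per hP r p 107360 1871868 523655 (by decide +kernel)
  have qf1900540 : f 1900540 = f 524263 := per hP r p 107360 1900540 524263 (by decide +kernel)
  have qf2097148 : f 2097148 = f 2097127 := per hP r p 107360 2097148 2097127 (by decide +kernel)
  have bf523655 := hf01 523655
  have bf2064444 := hf01 2064444
  have bf2097127 := hf01 2097127
  have vf_523655 : f 523655 = 1 := by omega
  have R6190 : (((f 1867804 - f 1896476) - (f 1871836 - f 1900508)) - ((f 1867836 - f 1896508) - (f 1871868 - f 1900540))) = 0 := relM hP r p hp2 har.hn har.hq 4 32736 1867804 (by decide +kernel)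
  have qf1867804 : f 1867804 = f 491527 := per hP r p 107360 1867804 491527 (by decide +kernel)
  have qf1896476 : f 1896476 = f 492135 := per hP r p 107360 1896476 492135 (by decide +kernel)
  have qf1871836 : f 1871836 = f 507271 := per hP r p 107360 1871836 507271 (by decide +kernel)
  have qf1900508 : f 1900508 = f 507879 := per hP r p 107360 1900508 507879 (by decide +kernel)
  have bf491527 := hf01 491527
  have bf507271 := hf01 507271
  have vf_507271 : f 507271 = 1 := by omega
  have vf_507279 : f 507279 = 1 := up1 0 181896 507271 507279 (by decide +kernel) vf_507271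
  have vf_1010158 : f 1010158 = 1 := up1 5 55504 507279 1010158 (by decide +kernel) vf_507279
  have vf_2035708 : f 2035708 = 1 := up1 0 88264 1010158 2035708 (by decide +kernel) vf_1010158
  have R6155 : (((f 1835068 - f 2031676) - (f 1863740 - f 2060348)) - ((f 1839100 - f 2035708) - (f 1867772 - f 2064380))) = 0 := relM hP r p hp2 har.hn har.hq 4 229312 1835068 (by decide +kernel)
  have qf1835068 : f 1835068 = f 475143 := per hP r p 107360 1835068 475143 (by decide +kernel)
  have qf1863740 : f 1863740 = f 475751 := per hP r p 107360 1863740 475751 (by decide +kernel)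
  have qf2060348 : f 2060348 = f 2037518 := per hP r p 144712 2060348 2037518 (by decide +kernel)
  have qf1839100 : f 1839100 = f 490887 := per hP r p 107360 1839100 490887 (by decide +kernel)
  have qf1867772 : f 1867772 = f 491495 := per hP r p 107360 1867772 491495 (by decide +kernel)
  have qf2064380 : f 2064380 = f 2064359 := per hP r p 107360 2064380 2064359 (by decide +kernel)
  have bf490887 := hf01 490887
  have bf2031676 := hf01 2031676
  have bf2064359 := hf01 2064359
  have vf_490887 : f 490887 = 1 := by omega
  have R6186 : (((f 1835036 - f 1863708) - (f 1839068 - f 1867740)) - ((f 1835068 - f 1863740) - (f 1839100 - f 1867772))) = 0 := relM hP r p hp2 har.hn har.hq 4 32736 1835036 (by decide +kernel)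
  have qf1835036 : f 1835036 = f 458759 := per hP r p 107360 1835036 458759 (by decide +kernel)
  have qf1863708 : f 1863708 = f 459367 := per hP r p 107360 1863708 459367 (by decide +kernel)
  have qf1839068 : f 1839068 = f 474503 := per hP r p 107360 1839068 474503 (by decide +kernel)
  have qf1867740 : f 1867740 = f 475111 := per hP r p 107360 1867740 475111 (by decide +kernel)
  have bf458759 := hf01 458759
  have bf474503 := hf01 474503
  have vf_474503 : f 474503 = 1 := by omega
  have e1 : f (4060 ||| zl 2) = 1 := by
    have h : f 1839068 = f 474503 := per hP r p 107360 1839068 474503 (by decide +kernel)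
    exact h.trans vf_474503
  obtain ⟨F, hS, hX0, hX1⟩ := snap hP har 2 (by norm_num) 4060 vf_4060 e1
  have hF01 := hS.h01
  have lo1 : ∀ g, f g = 1 → F g = 1 := fun g h => by
    have h1 := hS.lo g
    have h2 := hF01 g
    have h3 : fV P r p g = 1 := h
    omega
  have hi0 : ∀ g, f (g ||| zl 2) = 0 → F g = 0 := fun g h => by
    have h1 := hS.hi g
    have h2 := hF01 g
    have h3 : fV P r p (g ||| zl 2) = 0 := h
    omega
  have Up1 : ∀ i π g g', okDZ 2 i π g g' = true → F g = 1 → F g' = 1 := fun i π g g' h h1 => by
    have h2 := hS.dom i π g g' h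
    have h3 := hF01 g'
    omega
  have Dn0 : ∀ i π g g', okDZ 2 i π g g' = true → F g' = 0 → F g = 0 := fun i π g g' h h1 => by
    have h2 := hS.dom i π g g' h
    have h3 := hF01 g
    omega
  have vF_28700 : F 28700 = 0 := hi0 28700 ((hFa 1863708).2 (by decide +kernel))
  have vF_61468 : F 61468 = 0 := hi0 61468 ((hFa 1896476).2 (by decide +kernel))
  have vF_28732 : F 28732 = 0 := hi0 28732 (dn0 0 107360 1863740 475751 (by decide +kernel) vf_475751)
  have vF_61500 : F 61500 = 0 := hi0 61500 (dn0 0 107360 1896508 508519 (by decide +kernel) vf_508519)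
  have vF_258108 : F 258108 = 1 := lo1 258108 (up1 0 181896 258108 258108 (by decide +kernel) vf_258108)
  have vF_60 : F 60 = 0 := hi0 60 (dn0 0 107360 1835068 475143 (by decide +kernel) vf_475143)
  have vF_32828 : F 32828 = 0 := hi0 32828 (dn0 0 107360 1867836 507911 (by decide +kernel) vf_507911)
  have vF_233468 : F 233468 = 1 := lo1 233468 (up1 0 181896 233468 233468 (by decide +kernel) vf_233468)
  have vF_4060 : F 4060 = 0 := hX0
  have vF_32732 : F 32732 = 1 := hX1 32732 (by decide +kernel)
  have vF_32764 : F 32764 = 1 := Up1 0 181896 32732 32764 (by decide +kernel) vF_32732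
  have vF_65500 : F 65500 = 1 := Up1 0 181896 32732 65500 (by decide +kernel) vF_32732
  have vF_65532 : F 65532 = 1 := Up1 0 181896 32764 65532 (by decide +kernel) vF_32764
  have R7059 : (((F 32828 - F 229436) - (F 61500 - F 258108)) - ((F 36860 - F 233468) - (F 65532 - F 262140))) = 0 := hS.rel 4 229312 32828 (by decide +kernel)
  have bF36860 := hF01 36860
  have bF229436 := hF01 229436
  have bF262140 := hF01 262140
  have vF_36860 : F 36860 = 1 := by omega
  have R7074 : (((F 32796 - F 61468) - (F 36828 - F 65500)) - ((F 32828 - F 61500) - (F 36860 - F 65532))) = 0 := hS.rel 4 32736 32796 (by decide +kernel)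
  have bF32796 := hF01 32796
  have bF36828 := hF01 36828
  have vF_36828 : F 36828 = 1 := by omega
  have vF_36829 : F 36829 = 1 := Up1 0 181896 36828 36829 (by decide +kernel) vF_36828
  have vF_69628 : F 69628 = 1 := Up1 2 181840 36829 69628 (by decide +kernel) vF_36829
  have vF_200700 : F 200700 = 1 := Up1 0 181896 69628 200700 (by decide +kernel) vF_69628
  have R7072 : (((F 28 - F 28700) - (F 4060 - F 32732)) - ((F 60 - F 28732) - (F 4092 - F 32764))) = 0 := hS.rel 4 32736 28 (by decide +kernel)
  have bF28 := hF01 28
  have bF4092 := hF01 4092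
  have vF_4092 : F 4092 = 0 := by omega
  have R7057 : (((F 60 - F 196668) - (F 28732 - F 225340)) - ((F 4092 - F 200700) - (F 32764 - F 229372))) = 0 := hS.rel 4 229312 60 (by decide +kernel)
  have bF196668 := hF01 196668
  have bF225340 := hF01 225340
  have bF229372 := hF01 229372
  have vF_196668 : F 196668 = 1 := by omega
  have vF_225340 : F 225340 = 0 := by omega
  have vF_200764 : F 200764 = 1 := Up1 0 181896 196668 200764 (by decide +kernel) vF_196668
  have vF_208956 : F 208956 = 0 := Dn0 0 181896 208956 225340 (by decide +kernel) vF_225340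
  have cF_208956 : F 208956 = 1 := Up1 0 181896 200764 208956 (by decide +kernel) vF_200764
  omega

end Pool.Agent.L0h93.Karp
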